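import Pool.Agent.Helper53.AE.GoalsA

/-!
# Packet AE-MPR (MP_8130e1_an): minimal projections
-/

set_option autoImplicit false

open scoped ComplexOrder Topology ComplexStarModule
open Filter TopologicalSpace

namespace Pool.Agent.Helper53.AE.MPR

theorem finite_spec {A : Type} [Ring A] [Algebra ℂ A] [FiniteDimensional ℂ A] (a : A) :
    (spectrum ℂ a).Finite := by
  by_cases hA : Nontrivial A
  · have hi : IsIntegral ℂ a := Algebra.IsIntegral.isIntegral a
    have h0 : minpoly ℂ a ≠ 0 := minpoly.ne_zero hi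
    refine (Polynomial.finite_setOfPred_isRoot h0).subset fun l hl => ?_
    have h1 : (minpoly ℂ a).eval l ∈ spectrum ℂ (Polynomial.aeval a (minpoly ℂ a)) :=
      spectrum.subset_polynomial_aeval a (minpoly ℂ a) ⟨l, hl, rfl⟩
    rw [minpoly.aeval, spectrum.zero_eq] at h1
    exact h1
  · rw [not_nontrivial_iff_subsingleton] at hA
    rw [spectrum.of_subsingleton]
    exact Set.finite_empty

section

variable {A : Type} [NonUnitalCStarAlgebra A] [FiniteDimensional ℂ A]

theorem finite_quasi (a : A) : (quasispectrum ℝ a).Finite := by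
  have h1 : (quasispectrum ℂ a).Finite := by
    rw [Unitization.quasispectrum_eq_spectrum_inr' ℂ ℂ a]
    haveI : FiniteDimensional ℂ (Unitization ℂ A) := by
      let φ : ℂ × A →ₗ[ℂ] Unitization ℂ A :=
        { toFun := fun z => Unitization.inl z.1 + (z.2 : Unitization ℂ A)
          map_add' := fun z w => by
            ext <;> simp
          map_smul' := fun c z => by
            ext <;> simp }
      exact Module.Finite.of_surjective φ fun z =>
        ⟨(z.fst, z.snd), Unitization.inl_fst_add_inr_snd_eq z⟩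
    exact finite_spec _
  have h2 : quasispectrum ℝ a = (algebraMap ℝ ℂ) ⁻¹' quasispectrum ℂ a :=
    (quasispectrum.preimage_algebraMap ℂ).symm
  rw [h2]
  exact h1.preimage Complex.ofReal_injective.injOn

theorem exists_spec (k : A) (hs : star k = k) (h0 : k ≠ 0) :
    ∃ r y : A, Pj r ∧ r ≠ 0 ∧ r = k * y := by
  have hsa : IsSelfAdjoint k := hs
  have hfin := finite_quasi k
  have hcont : ∀ f : ℝ → ℝ, ContinuousOn f (quasispectrum ℝ k) := fun f =>
    hfin.continuousOn f
  obtain ⟨t, ht, ht0⟩ : ∃ t ∈ quasispectrum ℝ k, t ≠ 0 := by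
    by_contra hc
    push Not at hc
    apply h0
    rw [← cfcₙ_id' ℝ k hsa]
    rw [cfcₙ_congr (g := fun _ => (0 : ℝ)) fun x hx => hc x hx]
    exact cfcₙ_const_zero ℝ k
  classical
  let f : ℝ → ℝ := fun x => if x = t then 1 else 0
  let g : ℝ → ℝ := fun x => if x = t then t⁻¹ else 0
  have hf0 : f 0 = 0 := if_neg fun h => ht0 h.symm
  have hg0 : g 0 = 0 := if_neg fun h => ht0 h.symm
  have hrs : IsSelfAdjoint (cfcₙ f k) := cfcₙ_predicate _ k
  refine ⟨cfcₙ f k, cfcₙ g k, ⟨hrs, ?_⟩, ?_, ?_⟩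
  · rw [← cfcₙ_mul f f k (hcont f) hf0 (hcont f) hf0]
    refine cfcₙ_congr fun x _ => ?_
    show (if x = t then (1 : ℝ) else 0) * (if x = t then 1 else 0) = if x = t then 1 else 0
    split_ifs <;> simp
  · intro hz
    have h1 := norm_apply_le_norm_cfcₙ f k ht (hcont f) hf0 hsa
    rw [hz, norm_zero] at h1
    have h2 : f t = 1 := if_pos rfl
    rw [h2, norm_one] at h1
    linarith
  · have h1 : k * cfcₙ g k = cfcₙ (fun x : ℝ => x * g x) k := by
      rw [cfcₙ_mul (fun x : ℝ => x) g k (hcont _) rfl (hcont g) hg0, cfcₙ_id' ℝ k hsa]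
    rw [h1]
    refine cfcₙ_congr fun x _ => ?_
    show (if x = t then (1 : ℝ) else 0) = x * (if x = t then t⁻¹ else 0)
    split_ifs with h
    · rw [h, mul_inv_cancel₀ ht0]
    · rw [mul_zero]

/-- the corner `p A p` -/
def corner (p : A) : Submodule ℂ A where
  carrier := {x | ∃ a, x = p * a * p}
  add_mem' := by
    rintro _ _ ⟨a, rfl⟩ ⟨b, rfl⟩
    exact ⟨a + b, by rw [mul_add, add_mul]⟩
  zero_mem' := ⟨0, by rw [mul_zero, zero_mul]⟩
  smul_mem' := by
    rintro c _ ⟨a, rfl⟩
    exact ⟨c • a, by rw [mul_smul_comm, smul_mul_assoc]⟩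

theorem corner_left {p : A} (hp : Pj p) {x : A} (hx : x ∈ corner p) : p * x = x := by
  obtain ⟨a, rfl⟩ := hx
  rw [← mul_assoc, ← mul_assoc, hp.2]

theorem corner_right {p : A} (hp : Pj p) {x : A} (hx : x ∈ corner p) : x * p = x := by
  obtain ⟨a, rfl⟩ := hx
  rw [mul_assoc, hp.2]

theorem mem_corner {p : A} {x : A} (h1 : p * x = x) (h2 : x * p = x) : x ∈ corner p :=
  ⟨x, by rw [h1, h2]⟩

theorem sa_scalar {p : A} (hp : Pj p) (hp0 : p ≠ 0)
    (hmin : ∀ r : A, Pj r → r ≠ 0 → p * r = r →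
      ¬ Module.finrank ℂ (corner r) < Module.finrank ℂ (corner p))
    (h : A) (hh : h ∈ corner p) (hs : star h = h) : ∃ l : ℂ, h = l • p := by
  have hpc : p ∈ corner p := mem_corner hp.2 hp.2
  haveI : Nontrivial (corner p) := ⟨⟨⟨p, hpc⟩, 0, fun hc => hp0 (congrArg Subtype.val hc)⟩⟩
  let L : corner p →ₗ[ℂ] corner p :=
    { toFun := fun x => ⟨h * x.1, by
        refine mem_corner ?_ ?_
        · rw [← mul_assoc, corner_left hp hh]
        · rw [mul_assoc, corner_right hp x.2]⟩
      map_add' := fun x y => Subtype.ext (mul_add _ _ _)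
      map_smul' := fun c x => Subtype.ext (mul_smul_comm _ _ _) }
  obtain ⟨μ, hμ⟩ := Module.End.exists_eigenvalue L
  obtain ⟨v, hv⟩ := hμ.exists_hasEigenvector
  have hv0 : (v : A) ≠ 0 := fun hc => hv.2 (Subtype.ext hc)
  have hhv : h * (v : A) = μ • (v : A) := congrArg Subtype.val hv.apply_eq_smul
  have hvv : star (v : A) * v ≠ 0 := by
    intro hc
    exact hv0 (CStarRing.star_mul_self_eq_zero_iff _ |>.1 hc)
  have hμr : star μ = μ := by
    have e1 : star (v : A) * (h * v) = μ • (star (v : A) * v) := by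
      rw [hhv, mul_smul_comm]
    have e2 : star (v : A) * (h * v) = star μ • (star (v : A) * v) := by
      have := congrArg star e1
      rw [star_smul] at this
      simp only [star_mul, star_star, hs] at this
      rw [← this]
      simp only [mul_assoc]
    have e3 : (star μ - μ) • (star (v : A) * v) = 0 := by
      rw [sub_smul, ← e1, ← e2, sub_self]
    exact sub_eq_zero.1 ((smul_eq_zero.1 e3).resolve_right hvv)
  by_cases hk : h - μ • p = 0
  · exact ⟨μ, sub_eq_zero.1 hk⟩
  exfalso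
  have hks : star (h - μ • p) = h - μ • p := by rw [star_sub, star_smul, hs, hp.1, hμr]
  have hkv : (h - μ • p) * (v : A) = 0 := by
    rw [sub_mul, hhv, smul_mul_assoc, corner_left hp v.2, sub_self]
  obtain ⟨r, y, hr, hr0, hry⟩ := exists_spec _ hks hk
  have hrv : r * (v : A) = 0 := by
    rw [← hr.1, hry, star_mul, hks, mul_assoc, hkv, mul_zero]
  have hpr : p * r = r := by
    rw [hry, ← mul_assoc]
    congr 1
    rw [mul_sub, corner_left hp hh, mul_smul_comm, hp.2]
  have hrp : r * p = r := by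
    have := congrArg star hpr
    rwa [star_mul, hr.1, hp.1] at this
  refine hmin r hr hr0 hpr (Submodule.finrank_lt_finrank_of_lt ⟨?_, ?_⟩)
  · rintro _ ⟨a, rfl⟩
    refine mem_corner ?_ ?_
    · rw [← mul_assoc, ← mul_assoc, hpr]
    · rw [mul_assoc, hrp]
  · intro hle
    have h1 := corner_left hr (hle v.2)
    exact hv0 (by rw [← h1, hrv])

theorem exists_min (q : A) (hq : Pj q) (hq0 : q ≠ 0) : ∃ p : A, Pj p ∧ p ≠ 0 ∧ q * p = p ∧
    ∀ a, ∃ l : ℂ, p * a * p = l • p := by
  obtain ⟨p, hpP, hmin⟩ := WellFounded.has_min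
    (measure fun p : A => Module.finrank ℂ (corner p)).wf {p : A | Pj p ∧ p ≠ 0 ∧ q * p = p}
    ⟨q, hq, hq0, hq.2⟩
  obtain ⟨hp, hp0, hqp⟩ := hpP
  have hmin' : ∀ r : A, Pj r → r ≠ 0 → p * r = r →
      ¬ Module.finrank ℂ (corner r) < Module.finrank ℂ (corner p) := by
    intro r hr hr0 hpr
    refine hmin r ⟨hr, hr0, ?_⟩
    rw [← hpr, ← mul_assoc, hqp]
  refine ⟨p, hp, hp0, hqp, fun a => ?_⟩
  have hsa : ∀ h : A, star h = h → ∃ l : ℂ, p * h * p = l • p := by
    intro h hs
    refine sa_scalar hp hp0 hmin' _ ⟨h, rfl⟩ ?_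
    rw [star_mul, star_mul, hp.1, hs, mul_assoc]
  obtain ⟨l₁, h₁⟩ := hsa (ℜ a : A) (ℜ a).2
  obtain ⟨l₂, h₂⟩ := hsa (ℑ a : A) (ℑ a).2
  refine ⟨l₁ + Complex.I * l₂, ?_⟩
  have ha : a = (ℜ a : A) + Complex.I • (ℑ a : A) := (realPart_add_I_smul_imaginaryPart a).symm
  rw [ha, mul_add, add_mul, mul_smul_comm, smul_mul_assoc, h₁, h₂, add_smul, mul_smul]

/-- families of minimal projections -/
def Fam (A : Type) [NonUnitalCStarAlgebra A] (n : ℕ) (p : Fin n → A) : Prop :=
  (∀ x, Pj (p x) ∧ p x ≠ 0) ∧ (∀ x y, x ≠ y → p x * p y = 0) ∧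
    ∀ x a, ∃ l : ℂ, p x * a * p x = l • p x

theorem fam_le {n : ℕ} {p : Fin n → A} (h : Fam A n p) : n ≤ Module.finrank ℂ A := by
  have hli : LinearIndependent ℂ p := by
    rw [Fintype.linearIndependent_iff]
    intro g hg x
    have h1 := congrArg (fun a => p x * a) hg
    simp only [mul_zero, Finset.mul_sum, mul_smul_comm] at h1
    rw [Finset.sum_eq_single x] at h1
    · rw [(h.1 x).1.2] at h1
      exact (smul_eq_zero.1 h1).resolve_right (h.1 x).2
    · intro y _ hy
      rw [h.2.1 x y hy.symm, smul_zero]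
    · intro hh
      exact absurd (Finset.mem_univ _) hh
  simpa using hli.fintype_card_le_finrank

theorem exists_max : ∃ (n : ℕ) (p : Fin n → A), Fam A n p ∧
    ¬ ∃ p' : Fin (n + 1) → A, Fam A (n + 1) p' := by
  by_contra hc
  push Not at hc
  have h : ∀ n, ∃ p : Fin n → A, Fam A n p := by
    intro n
    induction n with
    | zero => exact ⟨fun x => x.elim0, fun x => x.elim0, fun x => x.elim0, fun x => x.elim0⟩
    | succ n ih =>
      obtain ⟨p, hp⟩ := ih
      exact hc n p hp
  obtain ⟨p, hp⟩ := h (Module.finrank ℂ A + 1)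
  have := fam_le hp
  omega

theorem exists_fam : ∃ (n : ℕ) (p : Fin n → A), Fam A n p ∧
    ∀ a, (∑ x, p x) * a = a ∧ a * ∑ x, p x = a := by
  obtain ⟨n, p, hp, hmax⟩ := exists_max (A := A)
  have hPs : star (∑ x, p x) = ∑ x, p x := by
    rw [star_sum]
    exact Finset.sum_congr rfl fun x _ => (hp.1 x).1.1
  have hpP : ∀ x, p x * ∑ y, p y = p x := by
    intro x
    rw [Finset.mul_sum, Finset.sum_eq_single x]
    · exact (hp.1 x).1.2
    · intro y _ hy
      exact hp.2.1 x y hy.symm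
    · intro hh
      exact absurd (Finset.mem_univ _) hh
  have hPP : (∑ x, p x) * ∑ x, p x = ∑ x, p x := by
    rw [Finset.sum_mul]
    exact Finset.sum_congr rfl fun x _ => hpP x
  have hleft : ∀ a, (∑ x, p x) * a = a := by
    intro a
    by_contra hne
    have hc0 : a - (∑ x, p x) * a ≠ 0 := fun h0 => hne (sub_eq_zero.1 h0).symm
    set c : A := a - (∑ x, p x) * a with hc
    have hPc : (∑ x, p x) * c = 0 := by
      rw [hc, mul_sub, ← mul_assoc, hPP, sub_self]
    have hh0 : c * star c ≠ 0 := fun h0 => hc0 (CStarRing.mul_star_self_eq_zero_iff _ |>.1 h0)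
    have hhs : star (c * star c) = c * star c := by rw [star_mul, star_star]
    obtain ⟨r, y, hr, hr0, hry⟩ := exists_spec _ hhs hh0
    have hPr : (∑ x, p x) * r = 0 := by
      rw [hry, ← mul_assoc, ← mul_assoc, hPc, zero_mul, zero_mul]
    obtain ⟨p', hp', hp0', hrp', hsc'⟩ := exists_min r hr hr0
    have hxp : ∀ x, p x * p' = 0 := by
      intro x
      rw [← hpP x, ← hrp', mul_assoc, ← mul_assoc (∑ x, p x), hPr, zero_mul, mul_zero]
    have hpx : ∀ x, p' * p x = 0 := by
      intro x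
      have := congrArg star (hxp x)
      rwa [star_mul, hp'.1, (hp.1 x).1.1, star_zero] at this
    refine hmax ⟨Fin.cons p' p, fun x => ?_, fun x y hxy => ?_, fun x => ?_⟩
    · refine Fin.cases ?_ (fun x => ?_) x
      · exact ⟨hp', hp0'⟩
      · simpa using hp.1 x
    · revert hxy
      refine Fin.cases ?_ (fun x => ?_) x <;> refine Fin.cases ?_ (fun y => ?_) y <;> intro hxy
      · exact absurd rfl hxy
      · simpa using hpx y
      · simpa using hxp x
      · simpa using hp.2.1 x y fun hh => hxy (by rw [hh])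
    · refine Fin.cases ?_ (fun x => ?_) x
      · exact hsc'
      · simpa using hp.2.2 x
  refine ⟨n, p, hp, fun a => ⟨hleft a, ?_⟩⟩
  have := congrArg star (hleft (star a))
  rwa [star_mul, star_star, hPs] at this

end

theorem t : S_MPR := by
  intro N _ F hF
  have hcl : IsClosed (F : Set N) :=
    Submodule.closed_of_finiteDimensional F.toNonUnitalSubalgebra.toSubmodule
  obtain ⟨n, p, hp, hu⟩ := exists_fam (A := F)
  refine ⟨n, fun x => (p x : N), fun x => ⟨(p x).2, ⟨?_, ?_⟩, ?_⟩, fun x y hxy => ?_,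
    fun a ha => ⟨?_, ?_⟩, fun x a ha => ?_⟩
  · exact congrArg Subtype.val (hp.1 x).1.1
  · exact congrArg Subtype.val (hp.1 x).1.2
  · exact fun h0 => (hp.1 x).2 (Subtype.ext h0)
  · exact congrArg Subtype.val (hp.2.1 x y hxy)
  · have := congrArg Subtype.val (hu ⟨a, ha⟩).1
    simpa using this
  · have := congrArg Subtype.val (hu ⟨a, ha⟩).2
    simpa using this
  · obtain ⟨l, hl⟩ := hp.2.2 x ⟨a, ha⟩
    exact ⟨l, congrArg Subtype.val hl⟩

end Pool.Agent.Helper53.AE.MPR
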