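import Pool.Agent.Helper53.AE.Defs

/-!
# Project AE (MP_8130e1_an), goals A: finite-dimensional subalgebras, isometries

Every packet proves one Prop `S_...` as a theorem `t : S_...` in
`Pool/Agent/<You>/AE/<Name>.lean`; Props named in its proof (uses ..) are hypotheses of the
theorem (`theorem t (hPRJ : S_PRJ) : S_PCL := ..`). Landed facts may be used freely.
-/

set_option autoImplicit false

open scoped ComplexOrder Topology
open Filter TopologicalSpace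

namespace Pool.Agent.Helper53.AE

/-! ## Projections -/

/-- PRJ. Projections near almost idempotent elements.
Proof. As `Pool.Agent.Helper82.BD.exists_proj` (`Helper82/BD/AfB.lean`), with `δ`. For `t` in the quasispectrum of `c` we have `|t² - t| ≤ δ ≤ 1/8`, so `|t| ≤ 2δ ≤ 1/4` or `|t - 1| ≤ 2δ ≤ 1/4` (one of `|t|`, `|t - 1|` is
`≥ 1/2`). `f t = max 0 (min 1 (2 t - 1/2))` is `0` resp. `1` there, so `q = cfcₙ f c ∈ C` is a projection and `‖q - c‖ ≤ sup |f t - t| ≤ 2δ`. -/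
def S_PRJ : Prop := ∀ (N : Type) [NonUnitalCStarAlgebra N] (C : NonUnitalStarSubalgebra ℂ N),
  IsClosed (C : Set N) → ∀ c ∈ C, star c = c → ∀ δ : ℝ, δ ≤ 1 / 8 → ‖c * c - c‖ ≤ δ →
  ∃ q ∈ C, Pj q ∧ ‖q - c‖ ≤ 2 * δ ∧ ∀ x, x * c = c * x → x * q = q * x

/-- PCL. Close projections are conjugate by a unitary near `1`.
Proof. As `Pool.Agent.Helper82.BD.exists_unitary` (`Helper82/BD/AfA.lean`): `z = q p + (1 - q) (1 - p)`, `star z * z = z * star z = m = 1 - (p - q)²`, `w = z m^(-1/2)`. With `d = ‖p - q‖ ≤ 1/4`: `z - 1 = (2 q - 1) (p - q)`, so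
`‖z - 1‖ ≤ d`, `‖m^(-1/2) - 1‖ ≤ (1 - d²)^(-1/2) - 1 ≤ d²` (`(1 - t)^(-1/2) ≤ 1 + t` for `0 ≤ t ≤ 1/2`), `‖w - 1‖ ≤ ‖z‖ ‖m^(-1/2) - 1‖ + ‖z - 1‖ ≤ (1 + d) d² + d ≤ 4 d`. -/
def S_PCL : Prop := ∀ (M : Type) [CStarAlgebra M] (p q : M), Pj p → Pj q → ‖p - q‖ ≤ 1 / 4 →
  ∃ w : M, star w * w = 1 ∧ w * star w = 1 ∧ w * p = q * w ∧ ‖w - 1‖ ≤ 4 * ‖p - q‖ ∧
    ∀ x, x * p = p * x → x * q = q * x → x * w = w * x

/-- POL. Polar decomposition near a partial isometry.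
Proof. Put `y₁ = q y p ∈ F`; `v = q v p` (from `star v * v = p`, `v * star v = q`, as `p`, `q` are projections), so `‖y₁ - v‖ ≤ δ`. `a = star y₁ * y₁ ∈ F`, `a = p a p`, `‖a - p‖ ≤ δ (2 + δ) ≤ 1/15`, `‖a² - a‖ = ‖a (a - p)‖ ≤ 1/12`. So every `t` in the
quasispectrum of `a` has `|t² - t| ≤ 1/12`, hence `0 ≤ t ≤ 1/4` or `|t - 1| ≤ 1/4`. `χ t = max 0 (min 1 (2 t - 1/2))` (`0` or `1` on the quasispectrum), `g t = χ t * (max t (1/4))^(-1/2)`, `z = cfcₙ g a ∈ F`, `r = cfcₙ χ a`; then `z a z = r`, `r` is a projection,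
`r = p r p`, `‖a - r a‖ ≤ sup_{t ≤ 1/4} t ≤ 1/4`. So `‖p - r‖ ≤ ‖(p - r) (p - a)‖ + ‖(p - r) a‖ ≤ 1/15 + 1/4 < 1`, and `p - r` is a projection, so `r = p`. `v' = y₁ z ∈ F`: `star v' * v' = z a z = p`. `‖z - p‖ = ‖cfcₙ (g - χ) a‖ ≤ sup_{|t-1| ≤ 1/4} |t^(-1/2) - 1|`
`≤ sup |t - 1|` over the `t ≥ 3/4` of the quasispectrum, and there `|t - 1| ≤ (4/3) ‖a² - a‖ ≤ (4/3) ‖a‖ δ (2 + δ) ≤ 3 δ` (`|t| |t - 1| ≤ ‖a² - a‖`, `‖a‖ ≤ 16/15`; `(4/3)(16/15)(2 + 1/32) < 3`). `‖v' - v‖ ≤ ‖y₁‖ ‖z - p‖ + ‖y₁ - v‖ ≤ (33/32) 3 δ + δ ≤ 8 δ` (`y₁ p = y₁`). Finally `v' * star v'` is a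
projection (as `star v' * v'` is) with `q v' = v'`, and `‖v' * star v' - q‖ ≤ 2 ‖v' - v‖ ≤ 16 δ < 1`, so the projection `q - v' * star v'` is `0`. -/
def S_POL : Prop := ∀ (N : Type) [NonUnitalCStarAlgebra N] (F : NonUnitalStarSubalgebra ℂ N),
  IsClosed (F : Set N) → ∀ (p q v y : N) (δ : ℝ), p ∈ F → q ∈ F → Pj p → Pj q →
  star v * v = p → v * star v = q → y ∈ F → ‖y - v‖ ≤ δ → δ ≤ 1 / 32 →
  ∃ v' ∈ F, star v' * v' = p ∧ v' * star v' = q ∧ ‖v' - v‖ ≤ 8 * δ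

/-! ## Finite-dimensional algebras -/

/-- MPR. Minimal projections.
Proof. `F` is closed. (1) A selfadjoint `0 ≠ h ∈ F` has a finite quasispectrum (the powers of `h` lie in the finite-dimensional `F`, so a polynomial without constant term kills `h`) with an element `l ≠ 0`; `q = cfcₙ g h`, `g` continuous, `g l = 1`, `g = 0` on the other
points and at `0`, is a nonzero projection in `F`, and `q` is of the form `h * y`, `y ∈ F`. (2) Every nonzero projection `q ∈ F` dominates a minimal one, i.e. a projection `0 ≠ p ∈ F`, `p = q p = p q`, with `p a p ∈ ℂ p` for all `a ∈ F`: induction on `dim q F q`: if `q F q ≠ ℂ q`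
there is a selfadjoint `h ∈ q F q` that is not a multiple of `q` (real and imaginary parts); `q` is a unit of the finite-dimensional algebra `q F q`; replacing `h` by `h - l q` with `l` in the (finite) spectrum we may assume that `h ≠ 0` is not invertible in `q F q`; then the projection `r ∈ q F q` of (1)
for `h` is `≠ 0`, and `≠ q` (otherwise `q = h y` with `y ∈ q F q`, `h` invertible). `r F r ⊊ q F q` because `q ∉ r F r`. (3) Nonzero orthogonal projections are linearly independent, so there is a family `p : Fin m → F` of nonzero minimal orthogonal projections with `m` maximal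
(`m ≤ dim F`). `P = ∑ p x`. If `a ∈ F`, `c = a - P a ≠ 0`, then `h = c * star c ≠ 0` is selfadjoint, `P h = 0`; the projection `q = h y` of (1) has `P q = 0`, (2) gives a minimal `p ≤ q`, orthogonal to all `p x`: contradiction to maximality. So `P a = a`, and `a P = a` by adjoints. -/
def S_MPR : Prop := ∀ (N : Type) [NonUnitalCStarAlgebra N] (F : NonUnitalStarSubalgebra ℂ N),
  FiniteDimensional ℂ F → ∃ (m : ℕ) (p : Fin m → N), (∀ x, p x ∈ F ∧ Pj (p x) ∧ p x ≠ 0) ∧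
    (∀ x y, x ≠ y → p x * p y = 0) ∧ (∀ a ∈ F, (∑ x, p x) * a = a ∧ a * ∑ x, p x = a) ∧
    ∀ x, ∀ a ∈ F, ∃ l : ℂ, p x * a * p x = l • p x

/-- MU1. Finite-dimensional C*-algebras have matrix units (uses MPR).
Proof. Take `p x` from MPR. `x ~ y` iff `p x * a * p y ≠ 0` for some `a ∈ F`. Symmetric by `star`; transitive: if `0 ≠ a = p x a p y`, `0 ≠ c = p y c p z` then `star a * a = l p y` with `l ≠ 0`, and `star a * (a c) = l c ≠ 0`, so `a c ≠ 0`. `b x` = the least `y ~ x`: `b (b x) = b x`, `b x = b y ↔ x ~ y`.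
Choose `v x ∈ F`, `v x = p x * v x * p (b x)`, `star (v x) * v x = p (b x)` (scale: `star a * a = l p`, and `l > 0` because `‖a‖² p`-positivity: `l p = star a * a`, `p * p = p`; e.g. `‖l‖ = ‖a‖²` and `l` is real, nonnegative as `l p` is positive), with `v x = p x` if `b x = x`.
`v x * star (v x)` is a nonzero projection in `p x F p x = ℂ p x`, so it is `p x`. `e x y = v x * star (v y)` if `b x = b y`, else `0`. Span: `a = ∑ p x a p y`, `p x a p y = 0` unless `x ~ y`, and then `star (v x) * a * v y ∈ p (b x) F p (b x) = ℂ p (b x)`, so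
`p x a p y = v x (star (v x) a v y) star (v y) ∈ ℂ e x y`. -/
def S_MU1 : Prop := ∀ (N : Type) [NonUnitalCStarAlgebra N] (F : NonUnitalStarSubalgebra ℂ N),
  FiniteDimensional ℂ F → ∃ (m : ℕ) (b : Fin m → Fin m) (e : Fin m → Fin m → N), MUs b e ∧
    (∀ a, a ∈ F ↔ a ∈ spn e) ∧ ∀ a ∈ F, (∑ x, e x x) * a = a ∧ a * ∑ x, e x x = a

/-- COE. Coordinates.
Proof. The `e x y` with `b x = b y` are linearly independent: from `∑ c x y • e x y = 0` multiply by `e (b x) x` on the left and `e y (b x)` on the right: `c x y • e (b x) (b x) = 0`. They span `spn e`. Take the coordinate functionals of this basis of `spn e`, extended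
linearly to `N` (`LinearMap.exists_extend`), and `c x y = 0` if `b x ≠ b y`. -/
def S_COE : Prop := ∀ (N : Type) [NonUnitalCStarAlgebra N] (m : ℕ) (b : Fin m → Fin m)
  (e : Fin m → Fin m → N), MUs b e → ∃ c : Fin m → Fin m → N →ₗ[ℂ] ℂ,
    (∀ x y z w, b z = b w → c x y (e z w) = if x = z ∧ y = w then 1 else 0) ∧
    (∀ x y, b x ≠ b y → c x y = 0) ∧ ∀ a ∈ spn e, a = ∑ x, ∑ y, c x y a • e x y

/-- HOM. *-homomorphisms from matrix units (uses COE).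
Proof. `φ a = ∑ x, ∑ y, c x y a • g x y` with `c` from COE. Check `φ (a * a') = φ a * φ a'`, `φ (star a) = star (φ a)` on the `e x y` with `b x = b y` (span; bilinearity). -/
def S_HOM : Prop := ∀ (N R : Type) [NonUnitalCStarAlgebra N] [NonUnitalCStarAlgebra R]
  (F : NonUnitalStarSubalgebra ℂ N) (m : ℕ) (b : Fin m → Fin m) (e : Fin m → Fin m → N)
  (g : Fin m → Fin m → R), MUs b e → (∀ a, a ∈ F ↔ a ∈ spn e) →
  (∀ x y, b x ≠ b y → g x y = 0) → (∀ x y, star (g x y) = g y x) →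
  (∀ x y z, b x = b y → b y = b z → g x y * g y z = g x z) →
  (∀ x y z w, y ≠ z → g x y * g z w = 0) →
  ∃ φ : F →⋆ₙₐ[ℂ] R, ∀ x y (h : e x y ∈ F), φ ⟨e x y, h⟩ = g x y

/-! ## Locally finite-dimensional ideals -/

/-- PRX. Exact containment of orthogonal projections (uses PRJ, PCL).
Proof. Induction on `n` for all `S`, `ε`. `n = 0`: LAF. Step, projections `g 0, .., g n`: let `K ≥ ‖x‖` for `x ∈ S`, `η > 0` small (`η ≤ 1/64`, `72 η K + η < ε`). By induction `F' ≤ D` finite-dimensional contains `g i` for `i < n` and approximates `S ∪ {g n}` up to `η`. Take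
`y ∈ F'`, `‖g n - y‖ < η`; replace `y` by `(y + star y)/2`. `Q = ∑_{i<n} g i ∈ F'`, `c = (1-Q) y (1-Q) ∈ F'` selfadjoint, `(1-Q) g n (1-Q) = g n`, so `‖c - g n‖ < η`, `‖c² - c‖ ≤ η (2 + η) + η ≤ 4 η ≤ 1/8`, and PRJ (`F'` is closed) gives a projection `q ∈ F'`, `‖q - c‖ ≤ 8 η`;
`g i` (`i < n`) commutes with `c` (`g i c = 0 = c g i`), so with `q`; `q' = q (1-Q)` is a projection in `F'` with `q' g i = 0`, `‖q' - c‖ = ‖(1-Q)(q-c)(1-Q)‖ ≤ 8 η`, `‖q' - g n‖ ≤ 9 η ≤ 1/4`. PCL for `q'`, `g n`: `w q' = g n w`, `‖w - 1‖ ≤ 36 η`, `w` commutes with `g i`, `i < n`.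
`F = w F' star w` (finite-dimensional, in `D` because `D` is an ideal) contains `w q' star w = g n` and `g i`; for `x ∈ S` near `y' ∈ F'`: `‖x - w y' star w‖ ≤ 2 ‖w - 1‖ ‖x‖ + η ≤ 72 η K + η < ε`. -/
def S_PRX : Prop := ∀ (M : Type) [CStarAlgebra M] (D : NonUnitalStarSubalgebra ℂ M), Idl D →
  LAF D → ∀ (n : ℕ) (g : Fin n → M), (∀ i, g i ∈ D ∧ Pj (g i)) → (∀ i j, i ≠ j → g i * g j = 0) →
  ∀ (S : Finset M) (ε : ℝ), (∀ x ∈ S, x ∈ D) → 0 < ε →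
  ∃ F : NonUnitalStarSubalgebra ℂ M, FiniteDimensional ℂ F ∧ F ≤ D ∧ (∀ i, g i ∈ F) ∧
    ∀ x ∈ S, ∃ y ∈ F, ‖x - y‖ < ε

/-- HER. Hereditary subalgebras of locally finite-dimensional ideals (uses PRJ, PCL).
Proof. Let `S ⊆ H` be finite, `K ≥ 1` a bound for the norms, `ε > 0`. Choose `k ≥ 1` with `2^-k K` small. `h = ∑_{x ∈ S} (x * star x + star x * x) ∈ H`; `e = cfcₙ (t ↦ min 1 (t / δ)) h ∈ H` (for `t ≥ 0`; use `max`), `0 ≤ e ≤ 1`;
`‖(1 - e^k) x‖² ≤ ‖(1 - e^k) h (1 - e^k)‖ ≤ δ` (for `t ≥ δ` the function is `0`, for `t < δ` it is `≤ t`), also `‖x (1 - e^k)‖² ≤ δ` (everything in the unital `M`). Fix `δ` small, so `k`, `e` are fixed. Let `η > 0` be small. LAF: `F ≤ D` finite-dimensional, `e' ∈ F` selfadjoint,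
`‖e - e'‖ < η`, and `x' ∈ F`, `‖x - x'‖ < η` for `x ∈ S`. The spectrum of `e'` is finite (`F` is finite-dimensional), so every function on it is continuous: `p = f(e')`, `f = 1` on `[1/2, ∞)`, else `0`; `c = g(e')`, `g t = 1/t` for `t ≥ 1/2`, else `0`; `p, c ∈ F`, `p = e' c² e'`, `‖c‖ ≤ 2`,
`‖(1 - p) e'^k‖ ≤ 2^-k` (the spectrum of `e'` is `≥ -η`). `y = e c² e ∈ H` (`c² ∈ D`), selfadjoint, `‖y - p‖ ≤ 4 η (2 + η) ≤ 12 η`, `‖y² - y‖ ≤ 48 η ≤ 1/8`, PRJ (in `H`): a projection `q ∈ H`, `‖q - y‖ ≤ 96 η`, `‖q - p‖ ≤ 108 η ≤ 1/4`; PCL in `M`: `w p = q w`, `‖w - 1‖ ≤ 432 η`.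
`F₁ = {w (p z p) star w : z ∈ F}` is a finite-dimensional *-subalgebra; its elements are `q d q` with `d = w p z p star w ∈ D`, so they are in `H`. For `x ∈ S`: `‖x - w p x' p star w‖ ≤ η + 2 ‖w - 1‖ ‖x‖ + ‖x - p x p‖`, `‖x - p x p‖ ≤ ‖(1-p) x‖ + ‖x (1-p)‖`,
`‖(1-p) x‖ ≤ ‖(1-p) e'^k‖ ‖x‖ + ‖e^k - e'^k‖ ‖x‖ + ‖(1 - e^k) x‖ ≤ (2^-k + k (1+η)^(k-1) η) K + √δ`, and the same for `x (1-p)`. -/
def S_HER : Prop := ∀ (M : Type) [CStarAlgebra M] (D H : NonUnitalStarSubalgebra ℂ M), Idl D →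
  LAF D → IsClosed (H : Set M) → H ≤ D → (∀ h ∈ H, ∀ d ∈ D, ∀ k ∈ H, h * d * k ∈ H) → LAF H

/-- PEX. Large projections (uses PRX, MPR).
Proof. PRX with `n = 1`, `g = p`, `ε/2`: `F`. `q = ∑ p x` of MPR for `F` is the unit of `F`, a projection in `D`; `q p = p` as `p ∈ F`; for `s ∈ S` near `y ∈ F`: `‖s - q s‖ ≤ ‖s - y‖ + ‖q (y - s)‖ < ε`, and the same on the right. -/
def S_PEX : Prop := ∀ (M : Type) [CStarAlgebra M] (D : NonUnitalStarSubalgebra ℂ M), Idl D →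
  LAF D → ∀ p ∈ D, Pj p → ∀ (S : Finset M) (ε : ℝ), (∀ x ∈ S, x ∈ D) → 0 < ε →
  ∃ q ∈ D, Pj q ∧ q * p = p ∧ ∀ s ∈ S, ‖s - q * s‖ < ε ∧ ‖s - s * q‖ < ε

/-- EXF. Exact containment of a finite-dimensional algebra (uses MU1, PRX, POL).
Proof. `b`, `e`, `m` from MU1 for `F₁`; `∑ e x x = 1` because `1 ∈ F₁`. Let `K ≥ ‖x‖` on `S`, `η > 0` small (`8 η ≤ 1/4`, `η ≤ 1/32`, `16 m η K + η < ε`). PRX (`D = ⊤`, `g x = e x x`, the finite set `S ∪ {e x y}`, `η`): `F'`. For each `x` POL in `F'` (`p = e (b x) (b x)`, `q = e x x`,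
`v = e x (b x)`, `y ∈ F'` near `v`) gives `v x ∈ F'`, `star (v x) * v x = e (b x) (b x)`, `v x * star (v x) = e x x`, `‖v x - e x (b x)‖ ≤ 8 η`. `w = ∑ x, v x * e (b x) x`: `star w * w = ∑ x, e x (b x) * star (v x) * v x * e (b x) x = ∑ e x x = 1` (for `x ≠ y`
`star (v x) * v y = star (v x) * e x x * e y y * v y = 0`), `w * star w = ∑ v x * star (v x) = 1`, `‖w - 1‖ ≤ 8 m η`. For `b x = b y`: `w * e x y = v x * e (b x) y`, `w * e x y * star w = v x * star (v y) ∈ F'`. `F₂ = star w F' w` contains `F₁` and approximates `S`. -/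
def S_EXF : Prop := ∀ (C : Type) [CStarAlgebra C], LAF (⊤ : NonUnitalStarSubalgebra ℂ C) →
  ∀ F₁ : NonUnitalStarSubalgebra ℂ C, FiniteDimensional ℂ F₁ → (1 : C) ∈ F₁ →
  ∀ (S : Finset C) (ε : ℝ), 0 < ε → ∃ F₂ : NonUnitalStarSubalgebra ℂ C,
    FiniteDimensional ℂ F₂ ∧ F₁ ≤ F₂ ∧ ∀ x ∈ S, ∃ y ∈ F₂, ‖x - y‖ < ε

/-- BRT. Bratteli sequences (uses EXF).
Proof. `AFC C` gives `LAF ⊤` (a `StarSubalgebra` is a `NonUnitalStarSubalgebra`). Dense sequence `d`. `F 0 = ℂ 1`; `F (n+1) ⊇ F n` from EXF for `S = {d 0, .., d n}`, `ε = 1/(n+1)`. -/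
def S_BRT : Prop := ∀ (C : Type) [CStarAlgebra C], AFC C →
  ∃ F : ℕ → NonUnitalStarSubalgebra ℂ C, Brt F

/-! ## Isometries and good homomorphisms -/

/-- CUN. `n` isometries from two.
Proof. Multiply `s₁ star s₁ + s₂ star s₂ = 1` by `star s₁` on the left: `star s₁ s₂ star s₂ = 0`, so `star s₁ s₂ = 0`. Induction: `n = 1`: `r = 1`; `r' = (s₁ r 0, .., s₁ r (n-1), s₂)`. -/
def S_CUN : Prop := ∀ (M : Type) [CStarAlgebra M] (s₁ s₂ : M), Cz s₁ s₂ → star s₁ * s₂ = 0 ∧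
  ∀ n : ℕ, 0 < n → ∃ r : Fin n → M, (∀ i j, star (r i) * r j = if i = j then 1 else 0) ∧
    ∑ i, r i * star (r i) = 1

/-- ISM. Sums of orthogonal range projections (uses CUN).
Proof. `t = ∑ i, τ i * star (r i)` with `r` from CUN: `star t * t = ∑ r i star (r i) = 1`, `t * star t = ∑ τ i star (r i) r j star (τ j) = ∑ τ i star (τ i)`. -/
def S_ISM : Prop := ∀ (M : Type) [CStarAlgebra M] (s₁ s₂ : M), Cz s₁ s₂ → ∀ (n : ℕ)
  (τ : Fin n → M), 0 < n → (∀ i j, star (τ i) * τ j = if i = j then 1 else 0) →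
  Isr (∑ i, τ i * star (τ i))

/-- GHX. Good homomorphisms of finite-dimensional algebras exist (uses MPR, MU1, HOM, CUN, ISM).
Proof. `b`, `e`, `m` from MU1, `∑ e x x = 1`, `m > 0` (as `1 ≠ 0`), `r : Fin m → M` from CUN, `σ` from HOM for `g x y = r x * star (r y)` if `b x = b y`, else `0`. `σ 1 = ∑ r x star (r x) = 1`. Let `0 ≠ p ∈ F` be a projection. MPR for the finite-dimensional *-subalgebra `p F p`: orthogonal
nonzero projections `p i`, `i < n`, with `∑ p i = p` (it is the unit of `p F p ∋ p`), `n > 0`, and `p i a p i = p i (p a p) p i ∈ ℂ p i` for `a ∈ F`. Fix `i`. `∑_x p i e x x = p i ≠ 0`, so `a = p i e x x ≠ 0` for some `x`; `a * star a = p i e x x p i = l p i`, `l > 0`; `v = l^(-1/2) a ∈ F`: `v * star v = p i`;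
`star v * v` is a nonzero projection in `e x x F e x x = ℂ e x x`, so it is `e x x`. `τ i = σ v * r x`: `star (τ i) τ i = star (r x) σ(e x x) r x = 1`, `τ i star (τ i) = σ (v e x x star v) = σ (p i)`; `star (τ i) τ j = star (τ i) σ (p i) σ (p j) τ j = 0` for `i ≠ j`. ISM: `Isr (σ p)`. -/
def S_GHX : Prop := ∀ (C M : Type) [CStarAlgebra C] [CStarAlgebra M] (s₁ s₂ : M), Cz s₁ s₂ →
  (1 : C) ≠ 0 → ∀ F : NonUnitalStarSubalgebra ℂ C, FiniteDimensional ℂ F → (1 : C) ∈ F →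
  ∃ σ : F →⋆ₙₐ[ℂ] M, Good σ

/-- EQV. Good homomorphisms are unitarily equivalent (uses MU1).
Proof. `b`, `e` from MU1, `∑ e x x = 1`. For each root `x = b x` isometries `t x`, `t' x` with `t x star (t x) = σ (e x x)`, `t' x star (t' x) = σ' (e x x)` (Good, `e x x ≠ 0`). `U = ∑ x, σ' (e x (b x)) * t' (b x) * star (t (b x)) * σ (e (b x) x)`. `star U * U = ∑ σ (e x x) = 1`:
for `x ≠ y` the product `σ' (e (b x) x) σ' (e y (b y))` is `0`, for `x = y` it is `σ' (e (b x) (b x)) = t' star t'`, and `star t' t' = 1`. The same for `U * star U`. `U * σ (e x y) = σ' (e x (b x)) t' star t σ (e (b x) y) = σ' (e x y) * U`. -/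
def S_EQV : Prop := ∀ (C M : Type) [CStarAlgebra C] [CStarAlgebra M]
  (F : NonUnitalStarSubalgebra ℂ C), FiniteDimensional ℂ F → (1 : C) ∈ F →
  ∀ σ σ' : F →⋆ₙₐ[ℂ] M, Good σ → Good σ' → ∃ U : M, star U * U = 1 ∧ U * star U = 1 ∧
    ∀ a, U * σ a * star U = σ' a

/-- SGX. Extension of good homomorphisms (uses GHX, EQV).
Proof. `σ'` good on `F₂` (GHX); its restriction to `F₁` is good (projections of `F₁` are projections of `F₂`). EQV on `F₁`: `U σ'(a) star U = σ₁ a`. `σ₂ = U σ'(·) star U` (if `σ'(p) = t star t` then `U σ'(p) star U = (U t) star (U t)`). -/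
def S_SGX : Prop := ∀ (C M : Type) [CStarAlgebra C] [CStarAlgebra M] (s₁ s₂ : M), Cz s₁ s₂ →
  (1 : C) ≠ 0 → ∀ F₁ F₂ : NonUnitalStarSubalgebra ℂ C, FiniteDimensional ℂ F₁ →
  FiniteDimensional ℂ F₂ → (1 : C) ∈ F₁ → F₁ ≤ F₂ → ∀ σ₁ : F₁ →⋆ₙₐ[ℂ] M, Good σ₁ →
  ∃ σ₂ : F₂ →⋆ₙₐ[ℂ] M, Good σ₂ ∧ ∀ a (h₁ : a ∈ F₁) (h₂ : a ∈ F₂), σ₂ ⟨a, h₂⟩ = σ₁ ⟨a, h₁⟩

/-- SIG. The good homomorphism of `C` (uses GHX, SGX).
Proof. GHX for `F 0`, then SGX recursively: good `σ k : F k →⋆ₙₐ M`, compatible. `S_EXT` (landed: `Pool.Agent.Helper34.CAR.t_EXT` in `Helper34/CAR/Parts.lean`, or `Pool.Agent.Helper52.CAR.ext`; statement in `Helper34/CAR/GoalsB.lean`) with `H = C`, `A k = F k` (finite-dimensional, so closed, so a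
`NonUnitalCStarAlgebra`), `ι k` the inclusion gives `C →⋆ₙₐ M` that extends all `σ k`; it is unital. -/
def S_SIG : Prop := ∀ (C M : Type) [CStarAlgebra C] [CStarAlgebra M] (s₁ s₂ : M), Cz s₁ s₂ →
  (1 : C) ≠ 0 → ∀ F : ℕ → NonUnitalStarSubalgebra ℂ C, Brt F →
  ∃ σ : C →⋆ₐ[ℂ] M, ∀ k, ∀ p ∈ F k, Pj p → p ≠ 0 → Isr (σ p)

/-- FAR. Isometries that are far out.
Proof. Let `K ≥ ‖d‖` on `S`. `h = ∑_{d ∈ S} d * star d ∈ D`, `e = cfcₙ (t ↦ min 1 (t / δ)) h ∈ D` (`t ≥ 0`), `0 ≤ e ≤ 1`, `‖(1 - e²) d‖² ≤ ‖(1 - e²) h (1 - e²)‖ ≤ δ`. `v = s₁ e ∈ D`; LAF: `x' ∈ F ≤ D`, `F` finite-dimensional, `‖v - x'‖ < η`. The powers of `x'` lie in `F`, so a nonzero polynomial kills `x'` and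
the spectrum of `x'` in `M` is finite: there is `0 < t < η` with `y = x' + t` invertible, `‖y - v‖ < 2 η`. `u = y (star y y)^(-1/2)` is unitary (`star y y` is invertible and positive; e.g. `CFC.rpow`, `cfc`), `u (star y y) star u = y star y`. So
`‖u e² star u - s₁ e² star s₁‖ = ‖u star v v star u - v star v‖ ≤ 2 · 2 η (2 + 2 η)`. `r = star u * s₂`: `star r r = 1`; `star r e² = star s₂ (u e² star u) u`, `star s₂ s₁ = 0` (adjoint of `star s₁ s₂ = 0`), so `‖star r e²‖ ≤ 4 η (2 + 2 η)`; `‖star r d‖ ≤ ‖star r e²‖ K + ‖(1 - e²) d‖`. -/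
def S_FAR : Prop := ∀ (M : Type) [CStarAlgebra M] (D : NonUnitalStarSubalgebra ℂ M), Idl D →
  LAF D → ∀ s₁ s₂ : M, star s₁ * s₁ = 1 → star s₂ * s₂ = 1 → star s₁ * s₂ = 0 →
  ∀ (S : Finset M) (ε : ℝ), (∀ x ∈ S, x ∈ D) → 0 < ε →
  ∃ r : M, star r * r = 1 ∧ ∀ d ∈ S, ‖star r * d‖ < ε

/-- STL. Compression to a given kernel by a far element (uses CUN, FAR).
Proof. If `L = 0` take `X = 0`. `v : Fin L → M` from CUN (`star (v l) v l' = δ`), for each root `ρ = b ρ` an isometry `t ρ` with `t ρ star (t ρ) = σ (e ρ ρ)`. FAR: `r` with `‖star r * (star (t (b x)) * σ (e (b x) x) * d)‖ < ε'` for all `x`, `d ∈ S` (these are in `D`).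
`X = ∑ x, σ (e x (b x)) * ∑ l, t (b x) * r * v l * y l x ∈ D`. For `b x = b x' = ρ`: `star X σ(e x x') X = (∑_l star (y l x) star (v l) star r star (t ρ)) σ (e ρ ρ) (∑_l' t ρ r v l' y l' x') = ∑_l star (y l x) y l x'` (`e ρ z * e x x' * e w ρ' = 0` unless `z = x`, `w = x'`;
`star (t ρ) σ (e ρ ρ) t ρ = 1`). `‖star X d‖ ≤ ∑_{x,l} ‖y l x‖ ε' < ε`. -/
def S_STL : Prop := ∀ (C M : Type) [CStarAlgebra C] [CStarAlgebra M]
  (D : NonUnitalStarSubalgebra ℂ M), Idl D → LAF D → ∀ s₁ s₂ : M, Cz s₁ s₂ →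
  ∀ (σ : C →⋆ₐ[ℂ] M) (m : ℕ) (b : Fin m → Fin m) (e : Fin m → Fin m → C), MUs b e →
  (∀ x, Isr (σ (e x x))) → ∀ (L : ℕ) (y : Fin L → Fin m → M), (∀ l x, y l x ∈ D) →
  ∀ (S : Finset M) (ε : ℝ), (∀ x ∈ S, x ∈ D) → 0 < ε → ∃ X ∈ D,
    (∀ x x', b x = b x' → star X * σ (e x x') * X = ∑ l, star (y l x) * y l x') ∧
    ∀ d ∈ S, ‖star X * d‖ < ε

end Pool.Agent.Helper53.AE
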