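import Pool.Agent.Helper53.AE.GoalsB

/-!
# Project AE (MP_8130e1_an), goals C: the environment, the target algebra, assembly
-/

set_option autoImplicit false

open scoped ComplexOrder Topology
open Filter TopologicalSpace

namespace Pool.Agent.Helper53.AE

/-! ## The target algebra -/

/-- QPR. A projection of the ideal that commutes with a finite-dimensional algebra (uses HER, MPR).
Proof. For a root `ρ = b ρ` put `H = {d ∈ D : σ(e ρ ρ) d = d = d σ(e ρ ρ)}`, a closed *-subalgebra, `h d k ∈ H` for `h, k ∈ H`, `d ∈ D`. HER: `LAF H`. The elements `g x d * star (g x d)`, `g x d = σ(e ρ x) d`, `b x = ρ`, `d ∈ S`, are in `H`; take `F₁ ≤ H` finite-dimensional close (`η`) to them and `q ρ` = the unit of `F₁`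
(MPR: `∑ p x`): `‖(1 - q ρ) g g*‖ ≤ 2 η`, so `‖(1 - q ρ) σ(e ρ x) d‖² ≤ 2 η`. With `Q = ∑_x σ(e x (b x)) q(b x) σ(e (b x) x)`: `(1 - Q) d = ∑_x σ(e x x) (1 - Q) d = ∑_x σ(e x (b x)) (1 - q (b x)) σ(e (b x) x) d`, of norm `≤ m √(2η)`. Use `S ∪ star S` and `‖d - d Q‖ = ‖star d - Q star d‖`. (`q x = 0`, or anything, for non-roots.) -/
def S_QPR : Prop := ∀ (C M : Type) [CStarAlgebra C] [CStarAlgebra M]
  (D : NonUnitalStarSubalgebra ℂ M), Idl D → LAF D → ∀ (σ : C →⋆ₐ[ℂ] M) (m : ℕ)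
  (b : Fin m → Fin m) (e : Fin m → Fin m → C), MUs b e → ∑ x, e x x = 1 →
  ∀ (S : Finset M) (ε : ℝ), (∀ d ∈ S, d ∈ D) → 0 < ε → ∃ q : Fin m → M,
    (∀ x, b x = x → q x ∈ D ∧ Pj (q x) ∧ σ (e x x) * q x = q x) ∧
    ∀ d ∈ S, ‖d - (∑ x, σ (e x (b x)) * q (b x) * σ (e (b x) x)) * d‖ < ε ∧
      ‖d - d * ∑ x, σ (e x (b x)) * q (b x) * σ (e (b x) x)‖ < ε

/-- XAF. The finite-dimensional algebra under `Q` (uses PRX).
Proof. PRX with `g x = q x` if `b x = x`, else `0` (orthogonal: `q x = σ(e x x) q x`), the finite set `{σ(e (b x) x) d σ(e y (b y)) : d ∈ S}` and `ε / (m² + 1)`: `F'`. `F = {∑_{x,y} σ(e x (b x)) a x y σ(e (b y) y) : a x y ∈ F', q(b x) a x y q(b y) = a x y}`. It is a finite-dimensional *-subalgebra of `D`: the product of the elements with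
entries `a`, `c` has the entries `∑_y a x y * c y z` (`σ(e (b y) y) σ(e z (b z)) = 0` for `y ≠ z` and `a x y σ(e (b y) (b y)) c y z = a x y c y z`). For `b x = b y` the element with the one entry `q (b x)` at `(x, y)` is `σ(e x (b x)) q(b x) σ(e (b y) y) = σ(e x y) Q = Q σ(e x y)`; if `b x ≠ b y` both are `0`. `Q` has the entries
`q (b x)` on the diagonal; `Q f = f = f Q` for `f ∈ F`. `Q d Q` has the entries `q(b x) σ(e (b x) x) d σ(e y (b y)) q(b y)`; replace `σ(e (b x) x) d σ(e y (b y))` by a close element of `F'`. -/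
def S_XAF : Prop := ∀ (C M : Type) [CStarAlgebra C] [CStarAlgebra M]
  (D : NonUnitalStarSubalgebra ℂ M), Idl D → LAF D → ∀ (σ : C →⋆ₐ[ℂ] M) (m : ℕ)
  (b : Fin m → Fin m) (e : Fin m → Fin m → C), MUs b e → ∀ q : Fin m → M,
  (∀ x, b x = x → q x ∈ D ∧ Pj (q x) ∧ σ (e x x) * q x = q x) → ∀ Q : M,
  Q = ∑ x, σ (e x (b x)) * q (b x) * σ (e (b x) x) →
  ∀ (S : Finset M) (ε : ℝ), (∀ d ∈ S, d ∈ D) → 0 < ε →
  ∃ F : NonUnitalStarSubalgebra ℂ M, FiniteDimensional ℂ F ∧ F ≤ D ∧ Q ∈ F ∧ Pj Q ∧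
    (∀ f ∈ F, Q * f = f ∧ f * Q = f) ∧
    (∀ x y, σ (e x y) * Q = Q * σ (e x y) ∧ σ (e x y) * Q ∈ F) ∧
    ∀ d ∈ S, ∃ z ∈ F, ‖Q * d * Q - z‖ < ε

/-- GAF. The split extension `G = {(m, c) : m - σ c ∈ D}` is an AF algebra (uses BRT, MU1, QPR, XAF).
Proof. `G` is a closed unital *-subalgebra of `M × C`, so a `CStarAlgebra`; `p₁`, `p₂` the projections. Separable: image of `D × C` (separable) under `(d, c) ↦ (σ c + d, c)`. Given `(m i, c i) ∈ G`, `i ≤ n`, and `ε`: BRT and density: `k` and `c' i ∈ F k`, `‖c i - c' i‖ < ε/4`; `d i = m i - σ (c i) ∈ D`. MU1 for `F k`: `e`, `∑ e x x = 1`.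
QPR (`{d i}`, `ε/4` small) and XAF: `Q`, `F`, `z i ∈ F`, `‖d i - z i‖ ≤ ‖d i - Q d i Q‖ + ‖Q d i Q - z i‖ < ε/2`. `Q` commutes with `σ c`, `σ c Q ∈ F` for `c ∈ F k`. `{(σ c (1 - Q) + z, c) : c ∈ F k, z ∈ F}` is a finite-dimensional unital *-subalgebra of `G` (`(σ c (1-Q) + z) (σ c' (1-Q) + z') = σ(c c') (1-Q) + z z'`;
`1 = σ 1 (1 - Q) + Q`). It contains `(σ (c' i) + z i, c' i)`, at distance `≤ max (‖c i - c' i‖ + ‖d i - z i‖, ‖c i - c' i‖) < ε` from `(m i, c i)`. -/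
def S_GAF : Prop := ∀ (C M : Type) [CStarAlgebra C] [CStarAlgebra M]
  (D : NonUnitalStarSubalgebra ℂ M), Idl D → LAF D → IsSeparable (D : Set M) → AFC C →
  ∀ σ : C →⋆ₐ[ℂ] M, ∃ (G : Type) (_ : CStarAlgebra G) (p₁ : G →⋆ₐ[ℂ] M) (p₂ : G →⋆ₐ[ℂ] C),
    AFC G ∧ (∀ m c, m - σ c ∈ D → ∃ g, p₁ g = m ∧ p₂ g = c) ∧
    ∀ g, p₁ g = 0 → p₂ g = 0 → g = 0

/-! ## The environment -/

/-- TBD. `T` is bounded.
Proof. `a ↦ T a 1` is a *-homomorphism, so `‖T a 1‖ ≤ ‖a‖`. `star a * a = k * k`, `k = √(star a * a) ∈ J` selfadjoint (`cfcₙ`), `‖x‖² 1 - star x * x = star y * y` in `O`. `star (T k y) * T k y = T (star a * a) (‖x‖² 1 - star x * x) ≥ 0`, so `0 ≤ star (T a x) * T a x = T (star a * a) (star x * x) ≤ ‖x‖² T (star a * a) 1`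
(spectral order of `K`, or of its unitization), `‖T a x‖² ≤ ‖x‖² ‖a‖²`. -/
def S_TBD : Prop := ∀ (J O K : Type) [NonUnitalCStarAlgebra J] [CStarAlgebra O]
  [NonUnitalCStarAlgebra K] (T : J →ₗ[ℂ] O →ₗ[ℂ] K), Mlt T → ∀ a x, ‖T a x‖ ≤ ‖a‖ * ‖x‖

/-- AUS. Sequential approximate units.
Proof. Dense sequence `x`. With `h n = ∑_{i<n} (x i star (x i) + star (x i) x i)`, `u n = cfcₙ (t ↦ min 1 (n t)) (h n)` (for `t ≥ 0`): `0 ≤ u n ≤ 1`, `‖(1 - u n) x i‖² ≤ ‖(1 - u n) h n (1 - u n)‖ ≤ 1/n` for `i < n` (in the unitization). Or take the filter `CStarAlgebra.approximateUnit` of Mathlib and choose `u n` for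
the first `n` elements of the dense sequence. -/
def S_AUS : Prop := ∀ (J : Type) [NonUnitalCStarAlgebra J] [SeparableSpace J], ∃ v : ℕ → J,
  (∀ n, star (v n) = v n ∧ ‖v n‖ ≤ 1) ∧
    ∀ x, Tendsto (fun n => v n * x) atTop (𝓝 x) ∧ Tendsto (fun n => x * v n) atTop (𝓝 x)

/-- HDR. Cutting down to a nondegenerate representation (uses TBD, AUS, HER).
Proof. `v n` from AUS for `J`, `w n = T (v n) 1`, `‖w n‖ ≤ 1`, selfadjoint. `H = {d ∈ D₀ : w n d → d and d w n → d}` is a closed *-subalgebra of `D₀` with `h d k ∈ H` for `h, k ∈ H`, `d ∈ D₀`. HER (`M = D₀`, `D = ⊤`): `LAF H`. `T a x ∈ H`: `w n T a x = T (v n a) x → T a x` (TBD). `K = H` (closed, so a `NonUnitalCStarAlgebra`;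
separable as a subset of the separable metric space `D₀`), `T'` = `T` with values in `K`; `LAF ⊤` in `K`: finite-dimensional subalgebras of `D₀` below `H` are subalgebras of `K` (comap along the inclusion). -/
def S_HDR : Prop := ∀ (J O D₀ : Type) [NonUnitalCStarAlgebra J] [SeparableSpace J]
  [CStarAlgebra O] [CStarAlgebra D₀] (T : J →ₗ[ℂ] O →ₗ[ℂ] D₀), Mlt T → AFC D₀ →
  ∃ (K : Type) (_ : NonUnitalCStarAlgebra K) (T' : J →ₗ[ℂ] O →ₗ[ℂ] K), SeparableSpace K ∧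
    LAF (⊤ : NonUnitalStarSubalgebra ℂ K) ∧ Mlt T' ∧
    ∀ (d : K) (ε : ℝ), 0 < ε → ∃ a : J, ‖T' a 1 * d - d‖ < ε ∧ ‖d * T' a 1 - d‖ < ε

/-- ENV. The multiplier algebra as environment (uses AUS).
Proof. `S_MUL` (landed: `Pool.Agent.Helper39.CF.MUL.t`; statement in `Helper45/CF/GoalsA.lean`): `M`, `k`. `D = range k` (`NonUnitalStarAlgHom.range k`), closed because `k` is isometric; ideal and essential by `S_MUL`; separable; `LAF D`: images of finite-dimensional subalgebras. Strict completeness: let `b n ∈ M` be bounded, `b n d`, `d b n` Cauchy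
for `d ∈ D`; `v n` from AUS for `K`; `b' n ∈ K` with `k (b' n) = b n k(v n)`; `k (b' n x) = b n k x - b n k (x - v n x)`, so it has the same limit as `b n k x`; `k (x b' n) = (k x b n) k(v n)` has the same limit as `k x b n` (`k x b n → w ∈ D`, `w k(v n) → w`). Apply `S_MUL` to `b'`. -/
def S_ENV : Prop := ∀ (K : Type) [NonUnitalCStarAlgebra K] [SeparableSpace K],
  LAF (⊤ : NonUnitalStarSubalgebra ℂ K) → ∃ (M : Type) (_ : CStarAlgebra M)
    (D : NonUnitalStarSubalgebra ℂ M) (k : K →⋆ₙₐ[ℂ] M), Env M D ∧ Function.Injective k ∧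
    ∀ d, d ∈ D ↔ d ∈ Set.range k

/-- THA. The action of `A` and `O`, existence (uses TBD, AUS).
Proof. `v n` from AUS for `J`; `α n ∈ J` with `u (α n) = a * u (v n)`, `‖α n‖ ≤ ‖a‖`. `b n = k (T (α n) x)`, bounded (TBD). For `j' = ` the element with `u j' = a * u j`: `α n j → j'` (`u (α n j) = a u (v n j)`, `u` isometric), so `b n k (T j y d) = k (T (α n j) (x y) d) → k (T j' (x y) d)`. The elements `T j 1 d` approximate every `d ∈ K`
and the `b n` are bounded, so `b n k d` is Cauchy for every `d`. On the other side: `k (d T i y) b n = k (d T (i α n) (y x))`, `u (i α n) = (u i a) u (v n) → u i a` (`u i a ∈ range u` by taking stars of `hid`), so it converges, and `d T i 1` approximates `d`. `strict`: `m` with `b n w → m w` for `w ∈ D`; so `m k (T j y d) = k (T j' (x y) d)`. -/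
def S_THA : Prop := ∀ (J A O K M : Type) [NonUnitalCStarAlgebra J] [SeparableSpace J]
  [CStarAlgebra A] [CStarAlgebra O] [NonUnitalCStarAlgebra K] [CStarAlgebra M]
  (D : NonUnitalStarSubalgebra ℂ M) (k : K →⋆ₙₐ[ℂ] M) (u : J →⋆ₙₐ[ℂ] A)
  (T : J →ₗ[ℂ] O →ₗ[ℂ] K), Env M D → Function.Injective k → (∀ d, d ∈ D ↔ d ∈ Set.range k) →
  Function.Injective u → (∀ a j, ∃ j', u j' = a * u j) → Mlt T →
  (∀ (d : K) (ε : ℝ), 0 < ε → ∃ a : J, ‖T a 1 * d - d‖ < ε ∧ ‖d * T a 1 - d‖ < ε) →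
  ∀ (a : A) (x : O), ∃ m : M, ∀ j j' y d, u j' = a * u j → m * k (T j y * d) = k (T j' (x * y) * d)

/-- THB. The action of `A` and `O`, algebra.
Proof. Choose `Θ a x` (`hΘ`). `(∗)`: if `m k (T j y d) = m' k (T j y d)` for all `j, y, d` then `m = m'` (the elements `T j 1 d` approximate all `d`; `ess`). So `Θ` is linear in both variables, `Θ a x Θ b y = Θ (a b) (x y)` (both map `k (T j z d)` to `k (T j'' (x y z) d)`), `Θ 1 1 = 1`. Star: for `i, z, c` and `j, y, d` with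
`u i' = star a * u i`, `u j' = a * u j`: `star (k (T i z c)) * (Θ a x * k (T j y d)) = k (star c * T (star i * j') (star z * x * y) * d)` and `star (Θ (star a) (star x) * k (T i z c)) * k (T j y d) = k (star c * T (star i' * j) (star z * x * y) * d)`, equal because `star i * j' = star i' * j` (apply `u`); by density and `ess` (and its adjoint:
`star w m = 0` for all `w ∈ D` implies `m w' = 0`..: `star (w) (m w') = 0` for all `w` gives `m w' = 0` as `m w' ∈ D`) `star (Θ a x) = Θ (star a) (star x)`. `θ a = Θ a 1`, `s i = Θ 1 (t i)`: `Cz`, and they commute. `θ (u j) = k (T j 1)` (compare on `k (T i y d)`), in `D`; it is `0` only if `T j 1 = 0`, so `j = 0`. -/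
def S_THB : Prop := ∀ (J A O K M : Type) [NonUnitalCStarAlgebra J]
  [CStarAlgebra A] [CStarAlgebra O] [NonUnitalCStarAlgebra K] [CStarAlgebra M]
  (D : NonUnitalStarSubalgebra ℂ M) (k : K →⋆ₙₐ[ℂ] M) (u : J →⋆ₙₐ[ℂ] A)
  (T : J →ₗ[ℂ] O →ₗ[ℂ] K), Env M D → Function.Injective k → (∀ d, d ∈ D ↔ d ∈ Set.range k) →
  Function.Injective u → (∀ a j, ∃ j', u j' = a * u j) → Mlt T →
  (∀ (d : K) (ε : ℝ), 0 < ε → ∃ a : J, ‖T a 1 * d - d‖ < ε ∧ ‖d * T a 1 - d‖ < ε) →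
  (∀ (a : A) (x : O), ∃ m : M, ∀ j j' y d, u j' = a * u j →
    m * k (T j y * d) = k (T j' (x * y) * d)) →
  ∀ t₁ t₂ : O, Cz t₁ t₂ → ∃ (θ : A →⋆ₐ[ℂ] M) (s₁ s₂ : M), Cz s₁ s₂ ∧
    (∀ a, s₁ * θ a = θ a * s₁ ∧ s₂ * θ a = θ a * s₂) ∧ (∀ j, θ (u j) ∈ D) ∧
    ∀ j, θ (u j) = 0 → j = 0

/-- QDI. Distance to the kernel.
Proof. `f t = min 1 (δ / √t)` (`= 1` for `t ≤ δ²`), continuous; `y = x * cfc f (star x * x)`: `‖y‖ ≤ δ` (`t f(t)² ≤ δ²`), `π y = π x * cfc f (star (π x) * π x) = π x` (the spectrum of `star (π x) π x` is in `[0, δ²]`, where `f = 1`). `k = x - y`. -/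
def S_QDI : Prop := ∀ (A B : Type) [CStarAlgebra A] [CStarAlgebra B] (π : A →⋆ₐ[ℂ] B) (x : A)
  (δ : ℝ), 0 < δ → ‖π x‖ ≤ δ → ∃ k : A, π k = 0 ∧ ‖x - k‖ ≤ δ

/-! ## Assembly -/

/-- ABV. The absorbing isometry (uses PSQ, WIN, FWA, FWB, QDI, ONE, GLA, GLB, NRM).
Proof. Dense sequence `a j` of `A`. `E n`, `s n` from LocLift for `S = {π (a j) : j < n}`, `ε = 2^-n`. QDI for `x = a j - s n (π (a j))` (`‖π x‖ < 2^-n`): `κ n j ∈ ker π`, `‖x - κ n j‖ ≤ 2^-n`, `θ (κ n j) ∈ D`. PSQ for `x j = θ (a j)`: `p`. `R n` such that `‖(1 - p N) θ (κ n j)‖ ≤ 2^-n` for `N ≥ R n`, `j < n` (`p k d → d`, monotone). WIN: `N`, `c`.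
`f = fw p N c`, FWA, FWB. `P n = p (N (n+2))`, `z n j = θ (s n (π (a j)))` for `j < n` (else `0`), `y j = σ (ι (π (a j)))`. For `j < n` (so `n ≥ 1`): `f n = f n (1 - p (N n))`, so `‖f n (z n j - x j) f n‖ ≤ ‖(1 - p (N n)) θ (κ n j)‖ + 2^-n ≤ 2 · 2^-n`. ONE is the one-step property. GLA with a dense sequence `d` of `D`, GLB with `C j = 2 ‖x j‖ + 14`, NRM: `v`. `star v σ(ι(π a)) v - θ a ∈ D`
for `a = a j`, so for all `a` (density, `D` closed). -/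
def S_ABV : Prop := ∀ (A B C M : Type) [CStarAlgebra A] [CStarAlgebra B] [CStarAlgebra C]
  [CStarAlgebra M] [SeparableSpace A] (D : NonUnitalStarSubalgebra ℂ M), Env M D →
  ∀ s₁ s₂ : M, Cz s₁ s₂ → ∀ (θ : A →⋆ₐ[ℂ] M) (π : A →⋆ₐ[ℂ] B) (ι : B →⋆ₐ[ℂ] C),
  Function.Injective ι → LocLift π → (∀ a, π a = 0 → θ a ∈ D) →
  ∀ F : ℕ → NonUnitalStarSubalgebra ℂ C, Brt F → ∀ σ : C →⋆ₐ[ℂ] M,
  (∀ k, ∀ p ∈ F k, Pj p → p ≠ 0 → Isr (σ p)) →
  ∃ v : M, star v * v = 1 ∧ ∀ a, star v * σ (ι (π a)) * v - θ a ∈ D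

/-- COR. The theorem for unital algebras (uses HDR, ENV, THA, THB, BRT, SIG, ABV, ABS, GAF).
Proof. `J` is separable (`u` is isometric). O2Emb, HDR, ENV, THA, THB (`hid`: `range u = ker π` is an ideal): `M`, `D`, `θ`, `s₁`, `s₂`. BRT: `F`; SIG: `σ` (`1 ≠ 0` in `C`). `π a = 0 → a = u j → θ a ∈ D`. ABV: `v`. ABS with `ς = σ ∘ ι ∘ π`: `Φ`. GAF: `G`, `p₁`, `p₂`. For `a ∈ A` there is a unique `Ξ a ∈ G` with `p₁ (Ξ a) = Φ a`,
`p₂ (Ξ a) = ι (π a)`; so `Ξ` is a *-homomorphism. `Ξ a = 0`: `π a = 0`, `a = u j`, `θ (u j) = 0`, `j = 0`, `a = 0`. -/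
def S_COR : Prop := ∀ (J A B C : Type) [NonUnitalCStarAlgebra J] [CStarAlgebra A]
  [CStarAlgebra B] [CStarAlgebra C] [SeparableSpace A] (u : J →⋆ₙₐ[ℂ] A) (π : A →⋆ₐ[ℂ] B)
  (ι : B →⋆ₐ[ℂ] C), Function.Injective u → (∀ a, π a = 0 ↔ a ∈ Set.range u) →
  Function.Injective ι → AFC C → (1 : C) ≠ 0 → LocLift π → O2Emb J → AFEmb A

/-- UTB. Unital embeddings of the unitization.
Proof. `C = B₀ × ℂ` for an AF algebra `B₀ ⊇ B` (`j : B →⋆ₙₐ B₀`); `ι = (Unitization.lift j, Unitization.fstHom)` : `(λ, b) ↦ (λ 1 + j b, λ)`, injective. `AFC C`: `D × ℂ` (`StarSubalgebra.prod D ⊤` or by hand). -/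
def S_UTB : Prop := ∀ (B : Type) [NonUnitalCStarAlgebra B], AFEmb B →
  ∃ (C : Type) (_ : CStarAlgebra C) (ι : Unitization ℂ B →⋆ₐ[ℂ] C), AFC C ∧ (1 : C) ≠ 0 ∧
    Function.Injective ι

/-- The main theorem. -/
def S_MAIN : Prop := ∀ (J A B : Type) [NonUnitalCStarAlgebra J] [NonUnitalCStarAlgebra A]
  [NonUnitalCStarAlgebra B] [SeparableSpace A] (u : J →⋆ₙₐ[ℂ] A) (π : A →⋆ₙₐ[ℂ] B),
  Function.Injective u → (∀ a, π a = 0 ↔ a ∈ Set.range u) →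
  LocLift (Unitization.starMap π : Unitization ℂ A →⋆ₐ[ℂ] Unitization ℂ B) →
  O2Emb J → AFEmb B → AFEmb A

end Pool.Agent.Helper53.AE
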