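import Pool.Agent.Helper53.AE.GoalsC

/-!
# Packet AE-ABV (MP_8130e1_an): the absorbing isometry
-/

set_option autoImplicit false

open scoped ComplexOrder Topology
open Filter TopologicalSpace

namespace Pool.Agent.Helper53.AE.ABV

theorem exists_seq {M : Type} [CStarAlgebra M] {D : NonUnitalStarSubalgebra ℂ M}
    (h : IsSeparable (D : Set M)) : ∃ d : ℕ → M, (∀ j, d j ∈ D) ∧
      ∀ a ∈ D, ∀ ε : ℝ, 0 < ε → ∃ j, ‖a - d j‖ < ε := by
  obtain ⟨t, hts, htc, htd⟩ := h.exists_countable_dense_subset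
  have hne : t.Nonempty := by
    by_contra hn
    rw [Set.not_nonempty_iff_eq_empty] at hn
    have : (0 : M) ∈ closure t := htd D.zero_mem
    simp [hn] at this
  obtain ⟨d, hd⟩ := htc.exists_eq_range hne
  refine ⟨d, fun j => hts (by rw [hd]; exact ⟨j, rfl⟩), fun a ha ε hε => ?_⟩
  obtain ⟨x, hx, hxe⟩ := Metric.mem_closure_iff.1 (htd ha) ε hε
  rw [hd] at hx
  obtain ⟨j, rfl⟩ := hx
  exact ⟨j, by rwa [dist_eq_norm] at hxe⟩

theorem t (hPSQ : S_PSQ) (hWIN : S_WIN) (hFWA : S_FWA) (hFWB : S_FWB) (hQDI : S_QDI)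
    (hONE : S_ONE) (hGLA : S_GLA) (hGLB : S_GLB) (hNRM : S_NRM) : S_ABV := by
  intro A B C M _ _ _ _ _ D hE s₁ s₂ hs θ π ι hι hL hker F hF σ hσ
  classical
  let a : ℕ → A := denseSeq A
  have hLn := fun n : ℕ => hL ((Finset.range n).image (fun j => π (a j))) ((1 / 2) ^ n)
    (by positivity)
  choose E s h1 hst hs1 hap hcp using hLn
  have hmem : ∀ n j, j < n → π (a j) ∈ (Finset.range n).image (fun j => π (a j)) :=
    fun n j h => Finset.mem_image.2 ⟨j, Finset.mem_range.2 h, rfl⟩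
  have hin : ∀ n j, j < n → π (a j) ∈ E n := fun n j h => (hap n _ (hmem n j h)).1
  have hapx : ∀ n j (h : j < n), ‖π (s n ⟨π (a j), hin n j h⟩) - π (a j)‖ < (1 / 2) ^ n :=
    fun n j h => (hap n _ (hmem n j h)).2
  let zz : ℕ → ℕ → A := fun n j => if h : j < n then s n ⟨π (a j), hin n j h⟩ else 0
  have hzz : ∀ n j (h : j < n), zz n j = s n ⟨π (a j), hin n j h⟩ := fun n j h => dif_pos h
  have hq : ∀ n j, j < n → ∃ k, π k = 0 ∧ ‖a j - zz n j - k‖ ≤ (1 / 2) ^ n := by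
    intro n j h
    refine hQDI A B π _ _ (by positivity) ?_
    rw [map_sub, hzz n j h, norm_sub_rev]
    exact (hapx n j h).le
  choose! κ hκ0 hκ using hq
  obtain ⟨p, hp0, hp, hpm, hpx, hpd⟩ := hPSQ M D hE (fun j => θ (a j))
  have hR : ∀ n, ∃ R : ℕ, ∀ N, R ≤ N → ∀ j, j < n → ‖(1 - p N) * θ (κ n j)‖ ≤ (1 / 2) ^ n := by
    intro n
    have h2 : ∀ j ∈ Finset.range n, ∀ᶠ N in atTop, ‖(1 - p N) * θ (κ n j)‖ ≤ (1 / 2) ^ n := by
      intro j hj
      have h3 := hpd (θ (κ n j)) (hker _ (hκ0 n j (Finset.mem_range.1 hj)))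
      have h4 := (tendsto_iff_norm_sub_tendsto_zero.1 h3).eventually_lt_const
        (show (0 : ℝ) < (1 / 2) ^ n by positivity)
      filter_upwards [h4] with N hN
      rw [sub_mul, one_mul, norm_sub_rev]
      exact hN.le
    have h5 := (Filter.eventually_all_finset (Finset.range n)).2 h2
    obtain ⟨R, hR⟩ := Filter.eventually_atTop.1 h5
    exact ⟨R, fun N hN j hj => hR N hN j (Finset.mem_range.2 hj)⟩
  choose R hR using hR
  obtain ⟨N, c, hN0, hNR, hNm, hc0, hcs, hcd, hcsum⟩ := hWIN R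
  obtain ⟨f1, f2, f3⟩ := hFWA M D hE p hp0 hp hpm hpd N c hN0 hNm hc0 hcs hcsum
  have f4 := hFWB M p (fun j => θ (a j)) hp0 (fun k => (hp k).2) hpm hpx N c hN0 hNm hc0 hcs hcd
  obtain ⟨d, hdD, hdd⟩ := exists_seq hE.sep
  have hstep : ∀ (n : ℕ) (S : Finset M) (δ : ℝ), (∀ d ∈ S, d ∈ D) → 0 < δ →
      ∃ X ∈ D, star X * X = p (N (n + 2)) ∧
        (∀ j < n, ‖star X * σ (ι (π (a j))) * X -
          p (N (n + 2)) * θ (zz n j) * p (N (n + 2))‖ < δ) ∧ ∀ d ∈ S, ‖star X * d‖ < δ := by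
    intro n S δ hS hδ
    obtain ⟨X, hX1, hX2, hX3, hX4⟩ := hONE A B C M D hE.idl hE.laf s₁ s₂ hs θ ι hι F hF σ hσ (E n)
      (s n) (h1 n) (hst n) (hs1 n) (hcp n) n (fun i => ⟨π (a i), hin n i i.2⟩) (p (N (n + 2)))
      (hp _).1 (hp _).2 S δ hS hδ
    refine ⟨X, hX1, hX2, fun j hj => ?_, hX4⟩
    have := hX3 ⟨j, hj⟩
    rw [hzz n j hj]
    exact this
  obtain ⟨X, hX⟩ := hGLA M D hE.idl (fun n => p (N (n + 2))) (fun j => σ (ι (π (a j))))
    (fun n j => θ (zz n j)) d hdD hstep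
  have hx1 : ∀ j n, j < n → ‖fw p N c n * (θ (zz n j) - θ (a j)) * fw p N c n‖ ≤
      (2 * ‖θ (a j)‖ + 14) * (1 / 2) ^ n := by
    intro j n hjn
    have e1 : fw p N c n = fw p N c n * (1 - p (N n)) := by
      rw [mul_sub, mul_one, (f1 n).2.2.2.2, sub_zero]
    have hn0 : 0 < n := by omega
    have e2 : ‖(1 - p (N n)) * θ (κ n j)‖ ≤ (1 / 2) ^ n := hR n _ (hNR n hn0) j hjn
    have e3 : ‖(1 - p (N n)) * (θ (a j) - θ (zz n j))‖ ≤ 2 * (1 / 2) ^ n := by
      have e4 : (1 - p (N n)) * (θ (a j) - θ (zz n j)) = (1 - p (N n)) * θ (κ n j) +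
          (1 - p (N n)) * θ (a j - zz n j - κ n j) := by
        rw [map_sub, map_sub, ← mul_add]
        congr 1
        abel
      have e5 : ‖(1 : M) - p (N n)‖ ≤ 1 := by
        have hpj := (hp (N n)).2
        have hsq : star (1 - p (N n)) * (1 - p (N n)) = 1 - p (N n) := by
          rw [star_sub, star_one, hpj.1, mul_sub, sub_mul, sub_mul, one_mul, mul_one, one_mul,
            hpj.2]
          abel
        have h6 : ‖(1 : M) - p (N n)‖ * ‖(1 : M) - p (N n)‖ = ‖(1 : M) - p (N n)‖ := by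
          rw [← CStarRing.norm_star_mul_self, hsq]
        by_contra hcon
        push Not at hcon
        nlinarith [norm_nonneg ((1 : M) - p (N n))]
      have e6 : ‖θ (a j - zz n j - κ n j)‖ ≤ (1 / 2) ^ n :=
        (NonUnitalStarAlgHom.norm_apply_le θ _).trans (hκ n j hjn)
      calc ‖(1 - p (N n)) * (θ (a j) - θ (zz n j))‖
          ≤ ‖(1 - p (N n)) * θ (κ n j)‖ + ‖(1 - p (N n)) * θ (a j - zz n j - κ n j)‖ := by
            rw [e4]; exact norm_add_le _ _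
        _ ≤ (1 / 2) ^ n + 1 * (1 / 2) ^ n := by
            refine add_le_add e2 ((norm_mul_le _ _).trans ?_)
            exact mul_le_mul e5 e6 (norm_nonneg _) zero_le_one
        _ = 2 * (1 / 2) ^ n := by ring
    have hfn : ‖fw p N c n‖ ≤ 1 := (f1 n).2.2.1
    calc ‖fw p N c n * (θ (zz n j) - θ (a j)) * fw p N c n‖
        ≤ ‖fw p N c n * (θ (zz n j) - θ (a j))‖ * ‖fw p N c n‖ := norm_mul_le _ _
      _ ≤ ‖fw p N c n * (θ (zz n j) - θ (a j))‖ * 1 := by gcongr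
      _ = ‖fw p N c n * ((1 - p (N n)) * (θ (a j) - θ (zz n j)))‖ := by
          rw [mul_one, ← mul_assoc, ← e1, ← norm_neg, ← mul_neg, neg_sub]
      _ ≤ ‖fw p N c n‖ * ‖(1 - p (N n)) * (θ (a j) - θ (zz n j))‖ := norm_mul_le _ _
      _ ≤ 1 * (2 * (1 / 2) ^ n) := mul_le_mul hfn e3 (norm_nonneg _) zero_le_one
      _ ≤ (2 * ‖θ (a j)‖ + 14) * (1 / 2) ^ n := by
          have : (0 : ℝ) < (1 / 2) ^ n := by positivity
          nlinarith [norm_nonneg (θ (a j)), mul_nonneg (norm_nonneg (θ (a j))) this.le]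
  have hx2 : ∀ j n, j < n → ‖fw p N c n * θ (a j) - θ (a j) * fw p N c n‖ ≤
      (2 * ‖θ (a j)‖ + 14) * (1 / 2) ^ n := by
    intro j n hjn
    refine (f4 j n hjn).trans ?_
    have : (0 : ℝ) < (1 / 2) ^ n := by positivity
    nlinarith
  obtain ⟨V, h, hhD, hVV, hh, hVy⟩ := hGLB M D hE (fw p N c) (fun n => p (N (n + 2)))
    (fun j => σ (ι (π (a j)))) (fun j => θ (a j)) (fun n j => θ (zz n j))
    (fun j => 2 * ‖θ (a j)‖ + 14) d X hdD hdd
    (fun n => ⟨(f1 n).1, (f1 n).2.1, (f1 n).2.2.1, (f1 n).2.2.2.1, (hp _).2⟩) f3 f2 hx1 hx2 hX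
  obtain ⟨v, hv, hvy⟩ := hNRM M D hE.idl V h hhD hVV hh
  refine ⟨v, hv, fun b => ?_⟩
  have hcl : IsClosed {b : A | star v * σ (ι (π b)) * v - θ b ∈ D} := by
    have hcont : Continuous fun b : A => star v * σ (ι (π b)) * v - θ b := by
      have c1 : Continuous θ := AddMonoidHomClass.continuous_of_bound θ 1 fun x => by
        simpa using NonUnitalStarAlgHom.norm_apply_le θ x
      have c2 : Continuous fun b : A => σ (ι (π b)) :=
        AddMonoidHomClass.continuous_of_bound ((σ.comp ι).comp π) 1 fun x => by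
          simpa using NonUnitalStarAlgHom.norm_apply_le ((σ.comp ι).comp π) x
      exact ((continuous_const.mul c2).mul continuous_const).sub c1
    exact hE.idl.1.preimage hcont
  exact (denseRange_denseSeq A).induction_on b hcl fun j => hvy _ _ (hVy j)

end Pool.Agent.Helper53.AE.ABV
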