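import Pool.Agent.Helper53.AE.GoalsA

/-!
# Packet AE-BRT (MP_8130e1_an)
-/

set_option autoImplicit false

open scoped ComplexOrder Topology
open Filter TopologicalSpace

namespace Pool.Agent.Helper53.AE.BRT

/-- the scalars -/
def sc (C : Type) [CStarAlgebra C] : NonUnitalStarSubalgebra ℂ C :=
  { carrier := {x | ∃ c : ℂ, x = c • 1}
    add_mem' := by
      rintro _ _ ⟨c, rfl⟩ ⟨d, rfl⟩
      exact ⟨c + d, (add_smul _ _ _).symm⟩
    zero_mem' := ⟨0, (zero_smul _ _).symm⟩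
    mul_mem' := by
      rintro _ _ ⟨c, rfl⟩ ⟨d, rfl⟩
      exact ⟨c * d, by rw [smul_mul_smul_comm, mul_one]⟩
    smul_mem' := by
      rintro c _ ⟨d, rfl⟩
      exact ⟨c * d, by rw [smul_smul]⟩
    star_mem' := by
      rintro _ ⟨c, rfl⟩
      exact ⟨star c, by rw [star_smul, star_one]⟩ }

theorem mem_sc {C : Type} [CStarAlgebra C] (x : C) : x ∈ sc C ↔ ∃ c : ℂ, x = c • 1 := Iff.rfl

theorem fd_sc (C : Type) [CStarAlgebra C] : FiniteDimensional ℂ (sc C) := by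
  let φ : ℂ →ₗ[ℂ] sc C :=
    { toFun := fun c => ⟨c • 1, c, rfl⟩
      map_add' := fun a b => Subtype.ext (add_smul a b (1 : C))
      map_smul' := fun a b => Subtype.ext (by
        show (a * b) • (1 : C) = a • (b • (1 : C))
        rw [smul_smul]) }
  refine Module.Finite.of_surjective φ ?_
  rintro ⟨_, c, rfl⟩
  exact ⟨c, rfl⟩

theorem laf_top {C : Type} [CStarAlgebra C] (h : AFC C) :
    LAF (⊤ : NonUnitalStarSubalgebra ℂ C) := by
  intro S ε _ hε
  obtain ⟨D, hD, hS⟩ := h.2 S ε hε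
  refine ⟨D.toNonUnitalStarSubalgebra, hD, le_top, hS⟩

theorem t (hEXF : S_EXF) : S_BRT := by
  classical
  intro C _ hC
  have hl := laf_top hC
  haveI := hC.1
  let d : ℕ → C := denseSeq C
  let Z : Type := {F : NonUnitalStarSubalgebra ℂ C // FiniteDimensional ℂ F ∧ (1 : C) ∈ F}
  have hst : ∀ (n : ℕ) (F : Z), ∃ F' : Z, F.1 ≤ F'.1 ∧
      ∀ i ≤ n, ∃ y ∈ F'.1, ‖d i - y‖ < 1 / ((n : ℝ) + 1) := by
    intro n F
    obtain ⟨F₂, h1, h2, h3⟩ := hEXF C hl F.1 F.2.1 F.2.2 ((Finset.range (n + 1)).image d)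
      (1 / ((n : ℝ) + 1)) (by positivity)
    exact ⟨⟨F₂, h1, h2 F.2.2⟩, h2, fun i hi => h3 _ (Finset.mem_image.2
      ⟨i, Finset.mem_range.2 (by omega), rfl⟩)⟩
  choose nx hnx1 hnx2 using hst
  let G : ℕ → Z := fun n => Nat.rec ⟨sc C, fd_sc C, 1, (one_smul _ _).symm⟩ (fun n F => nx n F) n
  have hG : ∀ n, G (n + 1) = nx n (G n) := fun n => rfl
  refine ⟨fun n => (G n).1, fun n => ⟨(G n).2.1, (G n).2.2, ?_⟩, ?_⟩
  · exact hnx1 n (G n)
  · rw [Metric.dense_iff]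
    intro x r hr
    obtain ⟨i, hi⟩ := Metric.denseRange_iff.1 (denseRange_denseSeq C) x (r / 2) (by positivity)
    obtain ⟨m, hm⟩ := exists_nat_one_div_lt (show (0 : ℝ) < r / 2 by positivity)
    obtain ⟨y, hy, hyd⟩ := hnx2 (max i m) (G (max i m)) i (le_max_left _ _)
    refine ⟨y, ?_, Set.mem_iUnion.2 ⟨max i m + 1, ?_⟩⟩
    · rw [Metric.mem_ball, dist_comm]
      have h1 : dist (d i) y < r / 2 := by
        rw [dist_eq_norm]
        refine hyd.trans (lt_of_le_of_lt ?_ hm)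
        have : (m : ℝ) ≤ ((max i m : ℕ) : ℝ) := by exact_mod_cast le_max_right i m
        gcongr
      have h2 := dist_triangle x (d i) y
      have h3 : dist x (d i) < r / 2 := hi
      linarith
    · show y ∈ (G (max i m + 1)).1
      rw [hG]
      exact hy

end Pool.Agent.Helper53.AE.BRT
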