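import Pool.Agent.Helper53.AE.GoalsA

/-!
# Packets AE-COE, AE-HOM (MP_8130e1_an)
-/

set_option autoImplicit false

open scoped ComplexOrder Topology
open Filter TopologicalSpace

namespace Pool.Agent.Helper53.AE.COE

section

variable {N : Type} [NonUnitalCStarAlgebra N] {m : ℕ} {b : Fin m → Fin m}
  {e : Fin m → Fin m → N}

/-- the index set of the basis -/
abbrev Ix (b : Fin m → Fin m) : Type := {q : Fin m × Fin m // b q.1 = b q.2}

theorem sandwich (h : MUs b e) {x y z w : Fin m} (hxy : b x = b y) (hzw : b z = b w) :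
    e (b x) x * e z w * e y (b x) = if x = z ∧ y = w then e (b x) (b x) else 0 := by
  by_cases h1 : x = z
  · subst h1
    by_cases h2 : y = w
    · subst h2
      rw [if_pos ⟨rfl, rfl⟩, h.mul _ _ _ (h.root x) hxy,
        h.mul _ _ _ ((h.root x).trans hxy) (by rw [h.root, hxy])]
    · rw [if_neg fun hh => h2 hh.2, mul_assoc, h.orth x w y (b x) (Ne.symm h2), mul_zero]
  · rw [if_neg fun hh => h1 hh.1, h.orth (b x) x z w h1, zero_mul]

theorem indep (h : MUs b e) : LinearIndependent ℂ (fun q : Ix b => e q.1.1 q.1.2) := by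
  rw [Fintype.linearIndependent_iff]
  intro g hg q
  obtain ⟨⟨x, y⟩, hxy⟩ := q
  have hxy' : b x = b y := hxy
  have h1 := congrArg (fun a => e (b x) x * a * e y (b x)) hg
  simp only [mul_zero, zero_mul, Finset.mul_sum, Finset.sum_mul, mul_smul_comm,
    smul_mul_assoc] at h1
  rw [Finset.sum_eq_single (⟨(x, y), hxy⟩ : Ix b)] at h1
  · rw [sandwich h hxy' hxy', if_pos ⟨rfl, rfl⟩] at h1
    exact (smul_eq_zero.1 h1).resolve_right (h.ne (b x))
  · rintro ⟨⟨z, w⟩, hzw⟩ _ hne
    have hzw' : b z = b w := hzw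
    show g _ • (e (b x) x * e z w * e y (b x)) = 0
    rw [sandwich h hxy' hzw', if_neg, smul_zero]
    rintro ⟨rfl, rfl⟩
    exact hne rfl
  · intro hh
    exact absurd (Finset.mem_univ _) hh

theorem span_eq (h : MUs b e) :
    Submodule.span ℂ (Set.range fun q : Ix b => e q.1.1 q.1.2) = spn e := by
  apply le_antisymm
  · refine Submodule.span_mono ?_
    rintro _ ⟨q, rfl⟩
    exact ⟨q.1, rfl⟩
  · refine Submodule.span_le.2 ?_
    rintro _ ⟨⟨x, y⟩, rfl⟩
    by_cases hxy : b x = b y
    · exact Submodule.subset_span ⟨⟨(x, y), hxy⟩, rfl⟩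
    · show e x y ∈ _
      rw [h.zero x y hxy]
      exact Submodule.zero_mem _

end

theorem t : S_COE := by
  classical
  intro N _ m b e h
  have hli := indep h
  let W : Submodule ℂ N := Submodule.span ℂ (Set.range fun q : Ix b => e q.1.1 q.1.2)
  let B : Module.Basis (Ix b) ℂ W := Module.Basis.span hli
  have hB : ∀ q : Ix b, ((B q : W) : N) = e q.1.1 q.1.2 := fun q =>
    congrArg Subtype.val (Module.Basis.span_apply hli q)
  have hex : ∀ q : Ix b, ∃ g : N →ₗ[ℂ] ℂ, g.comp W.subtype = B.coord q := fun q =>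
    LinearMap.exists_extend _
  choose g hg using hex
  have hgv : ∀ (q : Ix b) (a : W), g q (a : N) = B.coord q a := fun q a =>
    LinearMap.congr_fun (hg q) a
  let c : Fin m → Fin m → N →ₗ[ℂ] ℂ := fun x y =>
    if hxy : b x = b y then g ⟨(x, y), hxy⟩ else 0
  have hc1 : ∀ x y (hxy : b x = b y), c x y = g ⟨(x, y), hxy⟩ := fun x y hxy => dif_pos hxy
  have hc0 : ∀ x y, b x ≠ b y → c x y = 0 := fun x y hxy => dif_neg hxy
  refine ⟨c, fun x y z w hzw => ?_, hc0, fun a ha => ?_⟩
  · by_cases hxy : b x = b y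
    · rw [hc1 x y hxy, ← hB ⟨(z, w), hzw⟩, hgv, Module.Basis.coord_apply, Module.Basis.repr_self,
        Finsupp.single_apply]
      by_cases h1 : x = z ∧ y = w
      · obtain ⟨rfl, rfl⟩ := h1
        rw [if_pos rfl, if_pos ⟨rfl, rfl⟩]
      · rw [if_neg h1, if_neg]
        intro h2
        have h3 := congrArg Subtype.val h2
        exact h1 ⟨(congrArg Prod.fst h3).symm, (congrArg Prod.snd h3).symm⟩
    · rw [hc0 x y hxy, if_neg]
      · rfl
      · rintro ⟨rfl, rfl⟩
        exact hxy hzw
  · have ha' : a ∈ W := by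
      show a ∈ Submodule.span ℂ (Set.range fun q : Ix b => e q.1.1 q.1.2)
      rw [span_eq h]
      exact ha
    have h2 : a = ∑ q : Ix b, g q a • e q.1.1 q.1.2 := by
      have h1 : ((∑ q, B.repr ⟨a, ha'⟩ q • B q : W) : N) = a :=
        congrArg (fun v : W => (v : N)) (B.sum_repr ⟨a, ha'⟩)
      rw [AddSubmonoidClass.coe_finsetSum] at h1
      refine h1.symm.trans (Finset.sum_congr rfl fun q _ => ?_)
      have h5 := hgv q ⟨a, ha'⟩
      rw [Module.Basis.coord_apply] at h5
      rw [Submodule.coe_smul, hB, ← h5]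
    have h3 : ∑ x, ∑ y, c x y a • e x y = ∑ q : Ix b, g q a • e q.1.1 q.1.2 := by
      rw [← Finset.sum_product', Finset.univ_product_univ,
        ← Fintype.sum_subtype_add_sum_subtype (fun q : Fin m × Fin m => b q.1 = b q.2)
          (fun q : Fin m × Fin m => c q.1 q.2 a • e q.1 q.2)]
      have h4 : ∑ q : {q : Fin m × Fin m // ¬ b q.1 = b q.2}, c q.1.1 q.1.2 a • e q.1.1 q.1.2
          = 0 := by
        refine Finset.sum_eq_zero fun q _ => ?_
        rw [hc0 _ _ q.2]
        simp
      rw [h4, add_zero]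
      refine Finset.sum_congr rfl fun q _ => ?_
      rw [hc1 _ _ q.2]
    rw [h3]
    exact h2

theorem hom (hCOE : S_COE) : S_HOM := by
  intro N R _ _ F m b e g h hF g0 gs gm go
  obtain ⟨c, hc1, hc0, hc2⟩ := hCOE N m b e h
  have hval : ∀ x y, b x = b y → ∑ z, ∑ w, c z w (e x y) • g z w = g x y := by
    intro x y hxy
    rw [Finset.sum_eq_single x]
    · rw [Finset.sum_eq_single y]
      · rw [hc1 x y x y hxy, if_pos ⟨rfl, rfl⟩, one_smul]
      · intro w _ hw
        rw [hc1 x w x y hxy, if_neg (fun hh => hw hh.2), zero_smul]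
      · intro hh
        exact absurd (Finset.mem_univ _) hh
    · intro z _ hz
      refine Finset.sum_eq_zero fun w _ => ?_
      rw [hc1 z w x y hxy, if_neg (fun hh => hz hh.1), zero_smul]
    · intro hh
      exact absurd (Finset.mem_univ _) hh
  let φ : N →ₗ[ℂ] R :=
    { toFun := fun a => ∑ z, ∑ w, c z w a • g z w
      map_add' := fun a a' => by
        simp only [map_add, add_smul, Finset.sum_add_distrib]
      map_smul' := fun r a => by
        simp only [map_smul, smul_eq_mul, mul_smul, RingHom.id_apply, Finset.smul_sum] }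
  have hφ : ∀ a, φ a = ∑ z, ∑ w, c z w a • g z w := fun _ => rfl
  have hφe : ∀ x y, φ (e x y) = g x y := by
    intro x y
    by_cases hxy : b x = b y
    · rw [hφ, hval x y hxy]
    · rw [h.zero x y hxy, map_zero, g0 x y hxy]
  have hmul1 : ∀ x y z w, φ (e x y * e z w) = g x y * g z w := by
    intro x y z w
    by_cases hyz : y = z
    · subst hyz
      by_cases hxy : b x = b y
      · by_cases hyw : b y = b w
        · rw [h.mul x y w hxy hyw, hφe, gm x y w hxy hyw]
        · rw [h.zero y w hyw, g0 y w hyw, mul_zero, mul_zero, map_zero]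
      · rw [h.zero x y hxy, g0 x y hxy, zero_mul, zero_mul, map_zero]
    · rw [h.orth x y z w hyz, go x y z w hyz, map_zero]
  have hmul2 : ∀ x y, ∀ a ∈ spn e, φ (e x y * a) = g x y * φ a := by
    intro x y a ha
    induction ha using Submodule.span_induction with
    | mem a ha =>
      obtain ⟨⟨z, w⟩, rfl⟩ := ha
      show φ (e x y * e z w) = g x y * φ (e z w)
      rw [hmul1, hφe]
    | zero => rw [mul_zero, map_zero, mul_zero]
    | add a a' _ _ h1 h2 => rw [mul_add, map_add, map_add, mul_add, h1, h2]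
    | smul r a _ h1 => rw [mul_smul_comm, map_smul, map_smul, mul_smul_comm, h1]
  have hmul3 : ∀ a ∈ spn e, ∀ a' ∈ spn e, φ (a * a') = φ a * φ a' := by
    intro a ha a' ha'
    induction ha using Submodule.span_induction with
    | mem a ha =>
      obtain ⟨⟨z, w⟩, rfl⟩ := ha
      show φ (e z w * a') = φ (e z w) * φ a'
      rw [hmul2 z w a' ha', hφe]
    | zero => rw [zero_mul, map_zero, zero_mul]
    | add a a' _ _ h1 h2 => rw [add_mul, map_add, map_add, add_mul, h1, h2]
    | smul r a _ h1 => rw [smul_mul_assoc, map_smul, map_smul, smul_mul_assoc, h1]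
  have hstar : ∀ a ∈ spn e, φ (star a) = star (φ a) := by
    intro a ha
    induction ha using Submodule.span_induction with
    | mem a ha =>
      obtain ⟨⟨z, w⟩, rfl⟩ := ha
      show φ (star (e z w)) = star (φ (e z w))
      rw [h.star, hφe, hφe, gs]
    | zero => rw [star_zero, map_zero, star_zero]
    | add a a' _ _ h1 h2 => rw [star_add, map_add, map_add, star_add, h1, h2]
    | smul r a _ h1 => rw [star_smul, map_smul, map_smul, star_smul, h1]
  refine ⟨{ toFun := fun a => φ a
            map_smul' := fun r a => φ.map_smul r a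
            map_zero' := φ.map_zero
            map_add' := fun a a' => φ.map_add a a'
            map_mul' := fun a a' => hmul3 _ ((hF _).1 a.2) _ ((hF _).1 a'.2)
            map_star' := fun a => hstar _ ((hF _).1 a.2) }, fun x y hxy => hφe x y⟩

end Pool.Agent.Helper53.AE.COE
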