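import Pool.Agent.Helper53.AE.GoalsC

/-!
# Packet AE-COR (MP_8130e1_an): the extension theorem for unital algebras
-/

set_option autoImplicit false

open scoped ComplexOrder Topology
open Filter TopologicalSpace

namespace Pool.Agent.Helper53.AE.COR

theorem lift {A G M C : Type} [CStarAlgebra A] [CStarAlgebra G] [CStarAlgebra M] [CStarAlgebra C]
    (p₁ : G →⋆ₐ[ℂ] M) (p₂ : G →⋆ₐ[ℂ] C) (hi : ∀ g, p₁ g = 0 → p₂ g = 0 → g = 0)
    (Φ : A →⋆ₐ[ℂ] M) (ψ : A →⋆ₐ[ℂ] C) (h : ∀ a, ∃ g, p₁ g = Φ a ∧ p₂ g = ψ a) :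
    ∃ Ξ : A →⋆ₙₐ[ℂ] G, ∀ a, p₁ (Ξ a) = Φ a ∧ p₂ (Ξ a) = ψ a := by
  choose Ξ h1 h2 using h
  have huniq : ∀ g g' : G, p₁ g = p₁ g' → p₂ g = p₂ g' → g = g' := by
    intro g g' e1 e2
    have := hi (g - g') (by rw [map_sub, e1, sub_self]) (by rw [map_sub, e2, sub_self])
    exact sub_eq_zero.1 this
  refine ⟨{ toFun := Ξ
            map_smul' := fun c a => huniq _ _ ?_ ?_
            map_zero' := huniq _ _ ?_ ?_
            map_add' := fun a b => huniq _ _ ?_ ?_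
            map_mul' := fun a b => huniq _ _ ?_ ?_
            map_star' := fun a => huniq _ _ ?_ ?_ }, fun a => ⟨h1 a, h2 a⟩⟩
  · simp only [h1, map_smul, MonoidHom.id_apply]
  · simp only [h2, map_smul, MonoidHom.id_apply]
  · simp only [h1, map_zero]
  · simp only [h2, map_zero]
  · simp only [h1, map_add]
  · simp only [h2, map_add]
  · simp only [h1, map_mul]
  · simp only [h2, map_mul]
  · simp only [h1, map_star]
  · simp only [h2, map_star]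

theorem t (hHDR : S_HDR) (hENV : S_ENV) (hTHA : S_THA) (hTHB : S_THB) (hBRT : S_BRT)
    (hSIG : S_SIG) (hABV : S_ABV) (hABS : S_ABS) (hGAF : S_GAF) : S_COR := by
  intro J A B C _ _ _ _ _ u π ι hu hker hι hC h1 hL hJ
  have hiso : Isometry u := NonUnitalStarAlgHom.isometry u hu
  have : SecondCountableTopology A := UniformSpace.secondCountable_of_separable A
  have : SecondCountableTopology J := hiso.isUniformInducing.isInducing.secondCountableTopology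
  obtain ⟨O, iO, D₀, iD₀, t₁, t₂, T, ht, hD₀, hT⟩ := hJ
  obtain ⟨K, iK, T', hKsep, hKlaf, hT', hKnd⟩ := hHDR J O D₀ T hT hD₀
  obtain ⟨M, iM, D, k, hE, hk, hkD⟩ := hENV K hKlaf
  have hid : ∀ a j, ∃ j', u j' = a * u j := fun a j =>
    (hker (a * u j)).1 (by rw [map_mul, (hker (u j)).2 ⟨j, rfl⟩, mul_zero])
  obtain ⟨θ, s₁, s₂, hs, hcomm, hθD, hθ0⟩ := hTHB J A O K M D k u T' hE hk hkD hu hid hT' hKnd
    (hTHA J A O K M D k u T' hE hk hkD hu hid hT' hKnd) t₁ t₂ ht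
  obtain ⟨F, hF⟩ := hBRT C hC
  obtain ⟨σ, hσ⟩ := hSIG C M s₁ s₂ hs h1 F hF
  have hker' : ∀ a, π a = 0 → θ a ∈ D := by
    intro a ha
    obtain ⟨j, rfl⟩ := (hker a).1 ha
    exact hθD j
  obtain ⟨v, hv, hva⟩ := hABV A B C M D hE s₁ s₂ hs θ π ι hι hL hker' F hF σ hσ
  obtain ⟨Φ, hΦ, hΦ0⟩ := hABS A M D hE.idl θ ((σ.comp ι).comp π) s₁ s₂ v hs hcomm hv hva
  obtain ⟨G, iG, p₁, p₂, hG, hGs, hGi⟩ := hGAF C M D hE.idl hE.laf hE.sep hC σ
  obtain ⟨Ξ, hΞ⟩ := lift p₁ p₂ hGi Φ (ι.comp π) (fun a => hGs _ _ (hΦ a))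
  refine ⟨G, iG, hG, Ξ, (injective_iff_map_eq_zero _).2 fun a ha => ?_⟩
  have e1 : Φ a = 0 := by rw [← (hΞ a).1, ha, map_zero]
  have e2 : ι (π a) = 0 := by
    have := (hΞ a).2
    rw [ha, map_zero] at this
    exact this.symm
  have e3 : π a = 0 := hι (by rw [e2, map_zero])
  obtain ⟨j, rfl⟩ := (hker a).1 e3
  rw [hθ0 j (hΦ0 _ e1), map_zero]

end Pool.Agent.Helper53.AE.COR
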