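import Pool.Agent.Helper53.AE.GoalsA

/-!
# Packets AE-CUN, AE-ISM (MP_8130e1_an)
-/

set_option autoImplicit false

open scoped ComplexOrder Topology
open Filter TopologicalSpace

namespace Pool.Agent.Helper53.AE.CUN

theorem orth {M : Type} [CStarAlgebra M] {s₁ s₂ : M} (h : Cz s₁ s₂) : star s₁ * s₂ = 0 := by
  obtain ⟨h1, h2, h3⟩ := h
  have e1 : star s₁ * (s₁ * star s₁ + s₂ * star s₂) = star s₁ := by rw [h3, mul_one]
  have e2 : star s₁ * s₂ * star s₂ = 0 := by
    rw [mul_add, ← mul_assoc, h1, one_mul, ← mul_assoc] at e1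
    simpa using e1
  calc star s₁ * s₂ = star s₁ * s₂ * star s₂ * s₂ := by rw [mul_assoc, h2, mul_one]
    _ = 0 := by rw [e2, zero_mul]

theorem t : S_CUN := by
  intro M _ s₁ s₂ h
  have h12 := orth h
  have h21 : star s₂ * s₁ = 0 := by
    have := congrArg star h12
    simpa using this
  refine ⟨h12, fun n hn => ?_⟩
  obtain ⟨n, rfl⟩ := Nat.exists_eq_succ_of_ne_zero hn.ne'
  clear hn
  induction n with
  | zero =>
    refine ⟨fun _ => 1, fun i j => ?_, by simp⟩
    simp [Subsingleton.elim i j]
  | succ n ih =>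
    obtain ⟨r, hr1, hr2⟩ := ih
    refine ⟨Fin.cons s₂ fun i => s₁ * r i, fun i j => ?_, ?_⟩
    · refine Fin.cases ?_ (fun i => ?_) i <;> refine Fin.cases ?_ (fun j => ?_) j
      · simp [h.2.1]
      · simp only [Fin.cons_zero, Fin.cons_succ]
        rw [← mul_assoc, h21, zero_mul, if_neg (Fin.succ_ne_zero j).symm]
      · simp only [Fin.cons_zero, Fin.cons_succ]
        rw [star_mul, mul_assoc, h12, mul_zero, if_neg (Fin.succ_ne_zero i)]
      · simp only [Fin.cons_succ]
        rw [star_mul, mul_assoc, ← mul_assoc (star s₁), h.1, one_mul, hr1]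
        simp
    · rw [Fin.sum_univ_succ]
      simp only [Fin.cons_zero, Fin.cons_succ]
      have : ∑ i, s₁ * r i * star (s₁ * r i) = s₁ * star s₁ := by
        have e : ∀ i, s₁ * r i * star (s₁ * r i) = s₁ * (r i * star (r i)) * star s₁ := by
          intro i
          simp only [star_mul, mul_assoc]
        simp only [e]
        rw [← Finset.sum_mul, ← Finset.mul_sum, hr2, mul_one]
      rw [this, add_comm, h.2.2]

theorem ism (hCUN : S_CUN) : S_ISM := by
  intro M _ s₁ s₂ h n τ hn hτ
  obtain ⟨r, hr1, hr2⟩ := (hCUN M s₁ s₂ h).2 n hn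
  refine ⟨∑ i, τ i * star (r i), ?_, ?_⟩
  · rw [star_sum, Finset.sum_mul_sum]
    calc ∑ i, ∑ j, star (τ i * star (r i)) * (τ j * star (r j))
        = ∑ i, r i * star (r i) := by
          refine Finset.sum_congr rfl fun i _ => ?_
          rw [Finset.sum_eq_single i]
          · rw [star_mul, star_star, mul_assoc, ← mul_assoc (star (τ i)), hτ, if_pos rfl, one_mul]
          · intro j _ hj
            rw [star_mul, star_star, mul_assoc, ← mul_assoc (star (τ i)), hτ, if_neg hj.symm,
              zero_mul, mul_zero]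
          · simp
      _ = 1 := hr2
  · rw [star_sum, Finset.sum_mul_sum]
    refine Finset.sum_congr rfl fun i _ => ?_
    rw [Finset.sum_eq_single i]
    · rw [star_mul, star_star, mul_assoc, ← mul_assoc (star (r i)), hr1, if_pos rfl, one_mul]
    · intro j _ hj
      rw [star_mul, star_star, mul_assoc, ← mul_assoc (star (r i)), hr1, if_neg hj.symm,
        zero_mul, mul_zero]
    · simp

end Pool.Agent.Helper53.AE.CUN
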