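import Mathlib

/-!
# Project AE (MP_8130e1_an): extensions of AF-embeddable C*-algebras, definitions
-/

set_option autoImplicit false

open scoped ComplexOrder Topology
open Filter TopologicalSpace

namespace Pool.Agent.Helper53.AE

/-- Unital AF algebras: separable, every finite set is approximated by a finite-dimensional
*-subalgebra. -/
def AFC (B : Type) [CStarAlgebra B] : Prop :=
  SeparableSpace B ∧ ∀ (F : Finset B) (ε : ℝ), 0 < ε →
    ∃ D : StarSubalgebra ℂ B, FiniteDimensional ℂ D ∧ ∀ x ∈ F, ∃ d ∈ D, ‖x - d‖ < ε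

/-- `A` embeds into an AF algebra. -/
def AFEmb (A : Type) [NonUnitalCStarAlgebra A] : Prop :=
  ∃ (B : Type) (_ : CStarAlgebra B), AFC B ∧ ∃ ι : A →⋆ₙₐ[ℂ] B, Function.Injective ι

/-- A finite family of elements `K s t` (a matrix) is a sum of squares `star (w s) * w t` with
`w s ∈ V`. -/
def PosK {N : Type} [NonUnitalCStarAlgebra N] (V : Set N) {n : ℕ} (K : Fin n → Fin n → N) : Prop :=
  ∃ (r : ℕ) (W : Fin r → Fin n → N), (∀ j s, W j s ∈ V) ∧
    ∀ s t, K s t = ∑ j, star (W j s) * W j t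

/-- `π` has unital completely positive approximate local liftings: every finite set `S ⊆ B` lies
in a selfadjoint subspace `E ∋ 1` with a unital completely positive map `s : E → A` such that
`π ∘ s` is close to the identity on `S`. -/
def LocLift {A B : Type} [CStarAlgebra A] [CStarAlgebra B] (π : A →⋆ₐ[ℂ] B) : Prop :=
  ∀ (S : Finset B) (ε : ℝ), 0 < ε → ∃ (E : Submodule ℂ B) (s : E →ₗ[ℂ] A) (h1 : (1 : B) ∈ E),
    (∀ x ∈ E, star x ∈ E) ∧ s ⟨1, h1⟩ = 1 ∧
    (∀ x ∈ S, ∃ h : x ∈ E, ‖π (s ⟨x, h⟩) - x‖ < ε) ∧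
    ∀ (n : ℕ) (K : Fin n → Fin n → E), PosK Set.univ (fun i j => (K i j : B)) →
      PosK Set.univ fun i j => s (K i j)

/-- The relations of the Cuntz algebra of order two. -/
def Cz {M : Type} [CStarAlgebra M] (s₁ s₂ : M) : Prop :=
  star s₁ * s₁ = 1 ∧ star s₂ * s₂ = 1 ∧ s₁ * star s₁ + s₂ * star s₂ = 1

/-- `T a x` is multiplicative and *-preserving, for commuting copies of `J` and `O`. -/
def Mlt {J O K : Type} [NonUnitalCStarAlgebra J] [CStarAlgebra O] [NonUnitalCStarAlgebra K]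
    (T : J →ₗ[ℂ] O →ₗ[ℂ] K) : Prop :=
  (∀ a b x y, T a x * T b y = T (a * b) (x * y)) ∧ (∀ a x, star (T a x) = T (star a) (star x)) ∧
    ∀ a, T a 1 = 0 → a = 0

/-- `J ⊗ O₂` embeds into a unital AF algebra. -/
def O2Emb (J : Type) [NonUnitalCStarAlgebra J] : Prop :=
  ∃ (O : Type) (_ : CStarAlgebra O) (D : Type) (_ : CStarAlgebra D) (t₁ t₂ : O)
    (T : J →ₗ[ℂ] O →ₗ[ℂ] D), Cz t₁ t₂ ∧ AFC D ∧ Mlt T

/-- Closed two-sided ideals (as *-subalgebras). -/
def Idl {M : Type} [CStarAlgebra M] (D : NonUnitalStarSubalgebra ℂ M) : Prop :=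
  IsClosed (D : Set M) ∧ ∀ (m : M), ∀ d ∈ D, m * d ∈ D ∧ d * m ∈ D

/-- Projections. -/
def Pj {N : Type} [NonUnitalCStarAlgebra N] (p : N) : Prop := star p = p ∧ p * p = p

/-- `D` is locally finite-dimensional. -/
def LAF {N : Type} [NonUnitalCStarAlgebra N] (D : NonUnitalStarSubalgebra ℂ N) : Prop :=
  ∀ (S : Finset N) (ε : ℝ), (∀ x ∈ S, x ∈ D) → 0 < ε →
    ∃ F : NonUnitalStarSubalgebra ℂ N, FiniteDimensional ℂ F ∧ F ≤ D ∧
      ∀ x ∈ S, ∃ y ∈ F, ‖x - y‖ < ε

/-- Matrix units of a finite-dimensional algebra; `b x` is the root of the block of `x`. -/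
structure MUs {N : Type} [NonUnitalCStarAlgebra N] {m : ℕ} (b : Fin m → Fin m)
    (e : Fin m → Fin m → N) : Prop where
  root : ∀ x, b (b x) = b x
  zero : ∀ x y, b x ≠ b y → e x y = 0
  star : ∀ x y, star (e x y) = e y x
  mul : ∀ x y z, b x = b y → b y = b z → e x y * e y z = e x z
  orth : ∀ x y z w, y ≠ z → e x y * e z w = 0
  ne : ∀ x, e x x ≠ 0

/-- The span of the matrix units. -/
def spn {N : Type} [NonUnitalCStarAlgebra N] {m : ℕ} (e : Fin m → Fin m → N) : Submodule ℂ N :=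
  Submodule.span ℂ (Set.range fun p : Fin m × Fin m => e p.1 p.2)

/-- The ambient algebra: `D` is an essential closed ideal of the unital algebra `M`, separable,
locally finite-dimensional, and `M` is complete for the strict topology. -/
structure Env (M : Type) [CStarAlgebra M] (D : NonUnitalStarSubalgebra ℂ M) : Prop where
  idl : Idl D
  ess : ∀ m : M, (∀ d ∈ D, m * d = 0) → m = 0
  strict : ∀ (b : ℕ → M) (C : ℝ), (∀ n, ‖b n‖ ≤ C) → (∀ d ∈ D, CauchySeq fun n => b n * d) →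
    (∀ d ∈ D, CauchySeq fun n => d * b n) → ∃ m : M, ∀ d ∈ D,
      Tendsto (fun n => b n * d) atTop (𝓝 (m * d)) ∧ Tendsto (fun n => d * b n) atTop (𝓝 (d * m))
  laf : LAF D
  sep : IsSeparable (D : Set M)

/-- `p` is the range projection of an isometry. -/
def Isr {M : Type} [CStarAlgebra M] (p : M) : Prop := ∃ t : M, star t * t = 1 ∧ t * star t = p

/-- Unital *-homomorphisms of `F` that map nonzero projections to range projections of
isometries. -/
def Good {N M : Type} [CStarAlgebra N] [CStarAlgebra M] {F : NonUnitalStarSubalgebra ℂ N}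
    (σ : F →⋆ₙₐ[ℂ] M) : Prop :=
  (∀ h : (1 : N) ∈ F, σ ⟨1, h⟩ = 1) ∧ ∀ p : F, star p = p → p * p = p → p ≠ 0 → Isr (σ p)

/-- An increasing sequence of unital finite-dimensional subalgebras with dense union. -/
def Brt {C : Type} [CStarAlgebra C] (F : ℕ → NonUnitalStarSubalgebra ℂ C) : Prop :=
  (∀ n, FiniteDimensional ℂ (F n) ∧ (1 : C) ∈ F n ∧ F n ≤ F (n + 1)) ∧
    Dense (⋃ n, (F n : Set C))

end Pool.Agent.Helper53.AE
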