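import Pool.Agent.Helper53.AE.GoalsA

/-!
# Packet AE-EQV (MP_8130e1_an)
-/

set_option autoImplicit false

open scoped ComplexOrder Topology
open Filter TopologicalSpace

namespace Pool.Agent.Helper53.AE.EQV

section

variable {C M : Type} [CStarAlgebra C] [CStarAlgebra M] {F : NonUnitalStarSubalgebra ℂ C}
  {m : ℕ} {b : Fin m → Fin m} {e : Fin m → Fin m → C}

/-- the partial isometries `c x` of a good homomorphism -/
theorem parts (h : MUs b e) (hm : ∀ x y, e x y ∈ F) {σ : F →⋆ₙₐ[ℂ] M} (hg : Good σ) :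
    ∃ c : Fin m → M, (∀ x, star (c x) * c x = 1) ∧ (∀ x, c x * star (c x) = σ ⟨e x x, hm x x⟩) ∧
      (∀ x y, x ≠ y → star (c x) * c y = 0) ∧
      (∀ x y z, z ≠ y → σ ⟨e x y, hm x y⟩ * c z = 0) ∧
      ∀ x y, b x = b y → σ ⟨e x y, hm x y⟩ * c y = c x := by
  have hI : ∀ x, Isr (σ ⟨e x x, hm x x⟩) := fun x => by
    refine hg.2 _ (Subtype.ext (h.star x x)) (Subtype.ext (h.mul x x x rfl rfl)) fun h0 => ?_
    exact h.ne x (congrArg Subtype.val h0)
  choose t ht1 ht2 using hI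
  have hmul : ∀ x y z w, σ ⟨e x y, hm x y⟩ * σ ⟨e z w, hm z w⟩ =
      σ (⟨e x y, hm x y⟩ * ⟨e z w, hm z w⟩) := fun x y z w => (map_mul σ _ _).symm
  have hst : ∀ x y, star (σ ⟨e x y, hm x y⟩) = σ ⟨e y x, hm y x⟩ := fun x y => by
    rw [← map_star]
    congr 1
    exact Subtype.ext (h.star x y)
  have h0 : ∀ x y z w, y ≠ z → σ ⟨e x y, hm x y⟩ * σ ⟨e z w, hm z w⟩ = 0 := by
    intro x y z w hyz
    have : (⟨e x y, hm x y⟩ * ⟨e z w, hm z w⟩ : F) = 0 := Subtype.ext (h.orth x y z w hyz)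
    rw [hmul, this, map_zero]
  have hm' : ∀ x y z, b x = b y → b y = b z →
      σ ⟨e x y, hm x y⟩ * σ ⟨e y z, hm y z⟩ = σ ⟨e x z, hm x z⟩ := by
    intro x y z h1 h2
    rw [hmul]
    congr 1
    exact Subtype.ext (h.mul x y z h1 h2)
  refine ⟨fun x => σ ⟨e x (b x), hm _ _⟩ * t (b x), fun x => ?_, fun x => ?_, fun x y hxy => ?_,
    fun x y z hz => ?_, fun x y hxy => ?_⟩
  · rw [star_mul, hst, mul_assoc, ← mul_assoc (σ ⟨e (b x) x, _⟩), hm' _ _ _ (h.root x)
      (h.root x).symm, ← ht2, mul_assoc (t (b x)), ht1, mul_one, ht1]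
  · rw [star_mul, hst, mul_assoc, ← mul_assoc (t (b x)), ht2, hm' _ _ _ rfl (h.root x),
      hm' _ _ _ (h.root x).symm (h.root x)]
  · rw [star_mul, hst, mul_assoc, ← mul_assoc (σ ⟨e (b x) x, _⟩), h0 _ _ _ _ hxy, zero_mul,
      mul_zero]
  · rw [← mul_assoc, h0 _ _ _ _ hz.symm, zero_mul]
  · show σ ⟨e x y, _⟩ * (σ ⟨e y (b y), _⟩ * t (b y)) = σ ⟨e x (b x), _⟩ * t (b x)
    rw [← mul_assoc, hm' x y (b y) hxy (h.root y).symm]
    have hb : b y = b x := hxy.symm
    rw! [hb]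
    rfl

end

theorem t (hMU1 : S_MU1) : S_EQV := by
  classical
  intro C M _ _ F hF h1F σ σ' hg hg'
  obtain ⟨m, b, e, h, hsp, hun⟩ := hMU1 C F hF
  have hm : ∀ x y, e x y ∈ F := fun x y => (hsp _).2 (Submodule.subset_span ⟨(x, y), rfl⟩)
  have hone : ∑ x, e x x = 1 := by
    have := (hun 1 h1F).1
    rwa [mul_one] at this
  obtain ⟨c, c1, c2, c3, c4, c5⟩ := parts h hm hg
  obtain ⟨a, a1, a2, a3, a4, a5⟩ := parts h hm hg'
  have hsum : ∀ τ : F →⋆ₙₐ[ℂ] M, Good τ → ∑ x, τ ⟨e x x, hm x x⟩ = 1 := by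
    intro τ hτ
    rw [← map_sum]
    have : (∑ x, (⟨e x x, hm x x⟩ : F)) = ⟨1, h1F⟩ := by
      apply Subtype.ext
      rw [AddSubmonoidClass.coe_finsetSum]
      exact hone
    rw [this, hτ.1]
  have hU1 : star (∑ x, a x * star (c x)) * (∑ x, a x * star (c x)) = 1 := by
    rw [star_sum, Finset.sum_mul_sum, ← hsum σ hg]
    refine Finset.sum_congr rfl fun x _ => ?_
    rw [Finset.sum_eq_single x]
    · rw [star_mul, star_star, mul_assoc, ← mul_assoc (star (a x)), a1, one_mul, c2]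
    · intro y _ hy
      rw [star_mul, star_star, mul_assoc, ← mul_assoc (star (a x)), a3 x y hy.symm, zero_mul,
        mul_zero]
    · simp
  have hU2 : (∑ x, a x * star (c x)) * star (∑ x, a x * star (c x)) = 1 := by
    rw [star_sum, Finset.sum_mul_sum, ← hsum σ' hg']
    refine Finset.sum_congr rfl fun x _ => ?_
    rw [Finset.sum_eq_single x]
    · rw [star_mul, star_star, mul_assoc, ← mul_assoc (star (c x)), c1, one_mul, a2]
    · intro y _ hy
      rw [star_mul, star_star, mul_assoc, ← mul_assoc (star (c x)), c3 x y hy.symm, zero_mul,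
        mul_zero]
    · simp
  have hst : ∀ x y, star (σ ⟨e x y, hm x y⟩) = σ ⟨e y x, hm y x⟩ := fun x y => by
    rw [← map_star]
    congr 1
    exact Subtype.ext (h.star x y)
  have key : ∀ x y, (∑ z, a z * star (c z)) * σ ⟨e x y, hm x y⟩ =
      σ' ⟨e x y, hm x y⟩ * ∑ z, a z * star (c z) := by
    intro x y
    by_cases hxy : b x = b y
    · have e1 : (∑ z, a z * star (c z)) * σ ⟨e x y, hm x y⟩ = a x * star (c y) := by
        rw [Finset.sum_mul, Finset.sum_eq_single x]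
        · rw [mul_assoc]
          have : star (c x) * σ ⟨e x y, hm x y⟩ = star (c y) := by
            rw [← c5 y x hxy.symm, star_mul, hst]
          rw [this]
        · intro z _ hz
          have : star (c z) * σ ⟨e x y, hm x y⟩ = 0 := by
            have := congrArg star (c4 y x z hz)
            rwa [star_mul, hst, star_zero] at this
          rw [mul_assoc, this, mul_zero]
        · simp
      have e2 : σ' ⟨e x y, hm x y⟩ * ∑ z, a z * star (c z) = a x * star (c y) := by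
        rw [Finset.mul_sum, Finset.sum_eq_single y]
        · rw [← mul_assoc, a5 x y hxy]
        · intro z _ hz
          rw [← mul_assoc, a4 x y z hz, zero_mul]
        · simp
      rw [e1, e2]
    · have : (⟨e x y, hm x y⟩ : F) = 0 := Subtype.ext (h.zero x y hxy)
      rw [this, map_zero, map_zero, mul_zero, zero_mul]
  have key2 : ∀ v (hv : v ∈ spn e), (∑ z, a z * star (c z)) * σ ⟨v, (hsp v).2 hv⟩ =
      σ' ⟨v, (hsp v).2 hv⟩ * ∑ z, a z * star (c z) := by
    intro v hv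
    induction hv using Submodule.span_induction with
    | mem v hv =>
      obtain ⟨⟨x, y⟩, rfl⟩ := hv
      exact key x y
    | zero =>
      have : (⟨0, (hsp 0).2 (Submodule.zero_mem _)⟩ : F) = 0 := rfl
      rw [this, map_zero, map_zero, mul_zero, zero_mul]
    | add v w hv hw h1 h2 =>
      have : (⟨v + w, (hsp _).2 (Submodule.add_mem _ hv hw)⟩ : F) =
          ⟨v, (hsp v).2 hv⟩ + ⟨w, (hsp w).2 hw⟩ := rfl
      rw [this, map_add, map_add, mul_add, add_mul, h1, h2]
    | smul r v hv h1 =>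
      have : (⟨r • v, (hsp _).2 (Submodule.smul_mem _ r hv)⟩ : F) = r • ⟨v, (hsp v).2 hv⟩ := rfl
      rw [this, map_smul, map_smul, mul_smul_comm, smul_mul_assoc, h1]
  refine ⟨_, hU1, hU2, fun v => ?_⟩
  have := key2 v.1 ((hsp _).1 v.2)
  rw [this, mul_assoc, hU2, mul_one]

end Pool.Agent.Helper53.AE.EQV
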