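import Pool.Agent.Helper53.AE.Parts

/-!
# Project AE (MP_8130e1_an): the definitions of the final statement, in short terms
-/

set_option autoImplicit false

open scoped ComplexOrder Topology
open Filter TopologicalSpace

namespace Pool.Agent.Helper53.AE

/-- `s` is completely positive on the self-adjoint subspace `E`: it maps positive matrices to
positive matrices. -/
def CPOn {A B : Type} [CStarAlgebra A] [CStarAlgebra B] (E : Submodule ℂ B) (s : E →ₗ[ℂ] A) :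
    Prop :=
  ∀ (n : ℕ) (K : Fin n → Fin n → E), PosK Set.univ (fun i j => (K i j : B)) →
    PosK Set.univ fun i j => s (K i j)

/-- `s` is unital and completely positive, and `E` is self-adjoint and contains `1`. -/
def UCPOn {A B : Type} [CStarAlgebra A] [CStarAlgebra B] (E : Submodule ℂ B) (s : E →ₗ[ℂ] A) :
    Prop :=
  (∀ x ∈ E, star x ∈ E) ∧ (∃ h : (1 : B) ∈ E, s ⟨1, h⟩ = 1) ∧ CPOn E s

/-- `s` lifts the elements of `S` up to `ε`. -/
def LiftsOn {A B : Type} [CStarAlgebra A] [CStarAlgebra B] (π : A →⋆ₐ[ℂ] B) (S : Finset B) (ε : ℝ)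
    (E : Submodule ℂ B) (s : E →ₗ[ℂ] A) : Prop :=
  ∀ x ∈ S, ∃ h : x ∈ E, ‖π (s ⟨x, h⟩) - x‖ < ε

/-- `π` has unital completely positive approximate local liftings: every finite set `S ⊆ B` lies
in a selfadjoint subspace `E ∋ 1` with a unital completely positive map `s : E → A` such that
`π ∘ s` is close to the identity on `S`. -/
def LocalLift {A B : Type} [CStarAlgebra A] [CStarAlgebra B] (π : A →⋆ₐ[ℂ] B) : Prop :=
  ∀ (S : Finset B) (ε : ℝ), 0 < ε → ∃ (E : Submodule ℂ B) (s : E →ₗ[ℂ] A),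
    UCPOn E s ∧ LiftsOn π S ε E s

/-- `φ` is a completely positive contraction. -/
def CPC {A D : Type} [NonUnitalCStarAlgebra A] [NonUnitalCStarAlgebra D] (φ : A →ₗ[ℂ] D) : Prop :=
  (∀ a, ‖φ a‖ ≤ ‖a‖) ∧ IsCP φ

/-- The identity of `B` factors through `D` up to `ε` on `F`. -/
def Factors (B D : Type) [NonUnitalCStarAlgebra B] [NonUnitalCStarAlgebra D] (F : Finset B)
    (ε : ℝ) : Prop :=
  ∃ (φ : B →ₗ[ℂ] D) (ψ : D →ₗ[ℂ] B), CPC φ ∧ CPC ψ ∧ ∀ a ∈ F, ‖ψ (φ a) - a‖ < ε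

/-- `B` is nuclear (completely positive approximation property). -/
def Nuclear (B : Type) [NonUnitalCStarAlgebra B] : Prop :=
  ∀ (F : Finset B) (ε : ℝ), 0 < ε → ∃ k : ℕ, Factors B (Mk k) F ε

/-- `T a x` is multiplicative, for commuting copies of `J` and `O`. -/
def MulT {J O K : Type} [Mul J] [Mul O] [Mul K] (T : J → O → K) : Prop :=
  ∀ a b x y, T a x * T b y = T (a * b) (x * y)

/-- `T a x` is *-preserving. -/
def StarT {J O K : Type} [Star J] [Star O] [Star K] (T : J → O → K) : Prop :=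
  ∀ a x, star (T a x) = T (star a) (star x)

/-- The bilinear map `T` is multiplicative, *-preserving, and `a ↦ T a 1` is injective. -/
def TensorMap {J O K : Type} [NonUnitalCStarAlgebra J] [CStarAlgebra O] [NonUnitalCStarAlgebra K]
    (T : J →ₗ[ℂ] O →ₗ[ℂ] K) : Prop :=
  MulT (fun a x => T a x) ∧ StarT (fun a x => T a x) ∧ ∀ a, T a 1 = 0 → a = 0

/-- `J ⊗ O₂` embeds into a unital AF algebra. -/
def CuntzAFEmb (J : Type) [NonUnitalCStarAlgebra J] : Prop :=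
  ∃ (O : Type) (_ : CStarAlgebra O) (D : Type) (_ : CStarAlgebra D) (t₁ t₂ : O)
    (T : J →ₗ[ℂ] O →ₗ[ℂ] D), Cz t₁ t₂ ∧ AFC D ∧ TensorMap T

theorem LocalLift.locLift {A B : Type} [CStarAlgebra A] [CStarAlgebra B] {π : A →⋆ₐ[ℂ] B}
    (h : LocalLift π) : LocLift π := by
  intro S ε hε
  obtain ⟨E, s, ⟨h1, ⟨h2, h3⟩, h4⟩, h5⟩ := h S ε hε
  exact ⟨E, s, h2, h1, h3, h5, h4⟩

theorem Nuclear.nuc {B : Type} [NonUnitalCStarAlgebra B] (h : Nuclear B) : Nuc B := by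
  intro F ε hε
  obtain ⟨k, φ, ψ, ⟨h1, h2⟩, ⟨h3, h4⟩, h5⟩ := h F ε hε
  exact ⟨k, φ, ψ, h1, h3, h2, h4, h5⟩

theorem CuntzAFEmb.o2Emb {J : Type} [NonUnitalCStarAlgebra J] (h : CuntzAFEmb J) : O2Emb J := by
  obtain ⟨O, iO, D, iD, t₁, t₂, T, h1, h2, h3, h4, h5⟩ := h
  exact ⟨O, iO, D, iD, t₁, t₂, T, h1, h2, h3, h4, h5⟩

end Pool.Agent.Helper53.AE
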