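import Pool.Agent.Helper53.AE.GoalsC

/-!
# Packet AE-GAF (MP_8130e1_an)
-/

set_option autoImplicit false

open scoped ComplexOrder Topology
open Filter TopologicalSpace

namespace Pool.Agent.Helper53.AE.GAF

variable {C M : Type} [CStarAlgebra C] [CStarAlgebra M]

theorem norm_le (σ : C →⋆ₐ[ℂ] M) (c : C) : ‖σ c‖ ≤ ‖c‖ := NonUnitalStarAlgHom.norm_apply_le σ c

theorem cont (σ : C →⋆ₐ[ℂ] M) : Continuous σ :=
  AddMonoidHomClass.continuous_of_bound σ 1 fun c => by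
    rw [one_mul]
    exact norm_le σ c

/-- the algebra -/
def G (D : NonUnitalStarSubalgebra ℂ M) (hD : Idl D) (σ : C →⋆ₐ[ℂ] M) :
    StarSubalgebra ℂ (M × C) where
  carrier := {p | p.1 - σ p.2 ∈ D}
  mul_mem' := by
    rintro ⟨m, c⟩ ⟨m', c'⟩ h h'
    have h1 : m * m' - σ (c * c') = (m - σ c) * m' + σ c * (m' - σ c') := by
      rw [map_mul, sub_mul, mul_sub]
      abel
    change m * m' - σ (c * c') ∈ D
    rw [h1]
    exact add_mem (hD.2 _ _ h).2 (hD.2 _ _ h').1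
  add_mem' := by
    rintro ⟨m, c⟩ ⟨m', c'⟩ h h'
    change m + m' - σ (c + c') ∈ D
    rw [map_add, add_sub_add_comm]
    exact add_mem h h'
  algebraMap_mem' := by
    intro r
    change algebraMap ℂ M r - σ (algebraMap ℂ C r) ∈ D
    rw [AlgHomClass.commutes, sub_self]
    exact zero_mem _
  star_mem' := by
    rintro ⟨m, c⟩ h
    change star m - σ (star c) ∈ D
    rw [map_star, ← star_sub]
    exact star_mem h

theorem mem_G {D : NonUnitalStarSubalgebra ℂ M} {hD : Idl D} {σ : C →⋆ₐ[ℂ] M} (p : M × C) :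
    p ∈ G D hD σ ↔ p.1 - σ p.2 ∈ D := Iff.rfl

theorem closed_G (D : NonUnitalStarSubalgebra ℂ M) (hD : Idl D) (σ : C →⋆ₐ[ℂ] M) :
    IsClosed (G D hD σ : Set (M × C)) := by
  have hc : Continuous fun p : M × C => p.1 - σ p.2 :=
    continuous_fst.sub ((cont σ).comp continuous_snd)
  exact hD.1.preimage hc

theorem sep_G (D : NonUnitalStarSubalgebra ℂ M) (hD : Idl D) (σ : C →⋆ₐ[ℂ] M)
    (hs : IsSeparable (D : Set M)) [SeparableSpace C] : SeparableSpace (G D hD σ) := by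
  have : SeparableSpace D := hs.separableSpace
  let f : D × C → G D hD σ := fun p => ⟨(σ p.2 + p.1.1, p.2), by
    rw [mem_G]
    change σ p.2 + p.1.1 - σ p.2 ∈ D
    rw [add_sub_cancel_left]
    exact p.1.2⟩
  have hf : Continuous f := by
    refine Continuous.subtype_mk ?_ _
    exact (((cont σ).comp continuous_snd).add (continuous_subtype_val.comp continuous_fst)).prodMk
      continuous_snd
  have hs : Function.Surjective f := by
    rintro ⟨⟨m, c⟩, h⟩
    refine ⟨(⟨m - σ c, h⟩, c), ?_⟩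
    apply Subtype.ext
    change (σ c + (m - σ c), c) = (m, c)
    rw [add_sub_cancel]
  exact hs.denseRange.separableSpace hf

theorem pj_norm {Q : M} (h : Pj Q) : ‖Q‖ ≤ 1 := by
  have h1 : ‖star Q * Q‖ = ‖Q‖ * ‖Q‖ := CStarRing.norm_star_mul_self
  rw [h.1, h.2] at h1
  by_contra h2
  push Not at h2
  nlinarith

/-- the finite-dimensional algebra -/
def E (D : NonUnitalStarSubalgebra ℂ M) (hD : Idl D) (σ : C →⋆ₐ[ℂ] M)
    (K : NonUnitalStarSubalgebra ℂ C) (hK : (1 : C) ∈ K) (F : NonUnitalStarSubalgebra ℂ M)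
    (Q : M) (hQ : Q ∈ F) (hP : Pj Q) (hF : ∀ f ∈ F, Q * f = f ∧ f * Q = f)
    (hc : ∀ c ∈ K, σ c * Q = Q * σ c) : StarSubalgebra ℂ (G D hD σ) where
  carrier := {g | ∃ c ∈ K, ∃ z ∈ F, g.1 = (σ c * (1 - Q) + z, c)}
  mul_mem' := by
    rintro g g' ⟨c, hcK, z, hz, h⟩ ⟨c', hcK', z', hz', h'⟩
    refine ⟨c * c', mul_mem hcK hcK', z * z', mul_mem hz hz', ?_⟩
    change g.1 * g'.1 = _
    rw [h, h']
    have e1 := hc c' hcK'
    have e2 := (hF z hz).2
    have e3 := (hF z' hz').1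
    have e4 : (1 - Q) * (1 - Q) = 1 - Q := by
      rw [sub_mul, one_mul, mul_sub, mul_one, hP.2, sub_self, sub_zero]
    have e5 : σ c' * (1 - Q) = (1 - Q) * σ c' := by
      rw [mul_sub, mul_one, sub_mul, one_mul, e1]
    have e6 : (1 - Q) * z' = 0 := by rw [sub_mul, one_mul, e3, sub_self]
    have e7 : z * (1 - Q) = 0 := by rw [mul_sub, mul_one, e2, sub_self]
    refine Prod.ext ?_ rfl
    change (σ c * (1 - Q) + z) * (σ c' * (1 - Q) + z') = σ (c * c') * (1 - Q) + z * z'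
    have e8 : σ c * (1 - Q) * (σ c' * (1 - Q)) = σ c * σ c' * (1 - Q) := by
      rw [e5, ← mul_assoc, mul_assoc (σ c) (1 - Q) (1 - Q), e4, mul_assoc, ← e5, ← mul_assoc]
    have e9 : σ c * (1 - Q) * z' = 0 := by rw [mul_assoc, e6, mul_zero]
    have e10 : z * (σ c' * (1 - Q)) = 0 := by rw [e5, ← mul_assoc, e7, zero_mul]
    rw [add_mul, mul_add, mul_add, e8, e9, e10, add_zero, zero_add, map_mul]
  add_mem' := by
    rintro g g' ⟨c, hcK, z, hz, h⟩ ⟨c', hcK', z', hz', h'⟩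
    refine ⟨c + c', add_mem hcK hcK', z + z', add_mem hz hz', ?_⟩
    change g.1 + g'.1 = _
    rw [h, h']
    refine Prod.ext ?_ rfl
    change σ c * (1 - Q) + z + (σ c' * (1 - Q) + z') = σ (c + c') * (1 - Q) + (z + z')
    rw [map_add, add_mul]
    abel
  algebraMap_mem' := by
    intro r
    refine ⟨r • 1, SMulMemClass.smul_mem r hK, r • Q, SMulMemClass.smul_mem r hQ, ?_⟩
    refine Prod.ext ?_ ?_
    · change algebraMap ℂ M r = σ (r • 1) * (1 - Q) + r • Q
      rw [map_smul, map_one, smul_mul_assoc, one_mul, ← smul_add, sub_add_cancel,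
        Algebra.algebraMap_eq_smul_one]
    · exact Algebra.algebraMap_eq_smul_one r
  star_mem' := by
    rintro g ⟨c, hcK, z, hz, h⟩
    refine ⟨star c, star_mem hcK, star z, star_mem hz, ?_⟩
    change star g.1 = _
    rw [h]
    refine Prod.ext ?_ rfl
    change star (σ c * (1 - Q) + z) = σ (star c) * (1 - Q) + star z
    have e1 := hc (star c) (star_mem hcK)
    rw [star_add, star_mul, star_sub, star_one, hP.1, ← map_star, mul_sub, mul_one, sub_mul,
      one_mul, e1]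

theorem mem_E {D : NonUnitalStarSubalgebra ℂ M} {hD : Idl D} {σ : C →⋆ₐ[ℂ] M}
    {K : NonUnitalStarSubalgebra ℂ C} {hK : (1 : C) ∈ K} {F : NonUnitalStarSubalgebra ℂ M}
    {Q : M} {hQ : Q ∈ F} {hP : Pj Q} {hF : ∀ f ∈ F, Q * f = f ∧ f * Q = f}
    {hc : ∀ c ∈ K, σ c * Q = Q * σ c} (g : G D hD σ) :
    g ∈ E D hD σ K hK F Q hQ hP hF hc ↔
      ∃ c ∈ K, ∃ z ∈ F, g.1 = (σ c * (1 - Q) + z, c) := Iff.rfl

theorem fd_E {D : NonUnitalStarSubalgebra ℂ M} {hD : Idl D} {σ : C →⋆ₐ[ℂ] M}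
    {K : NonUnitalStarSubalgebra ℂ C} {hK : (1 : C) ∈ K} {F : NonUnitalStarSubalgebra ℂ M}
    {Q : M} {hQ : Q ∈ F} {hP : Pj Q} {hF : ∀ f ∈ F, Q * f = f ∧ f * Q = f}
    {hc : ∀ c ∈ K, σ c * Q = Q * σ c} (hKf : FiniteDimensional ℂ K) (hFf : FiniteDimensional ℂ F)
    (hFD : F ≤ D) (hcF : ∀ c ∈ K, σ c * Q ∈ F) :
    FiniteDimensional ℂ (E D hD σ K hK F Q hQ hP hF hc) := by
  let φ : (K × F) →ₗ[ℂ] E D hD σ K hK F Q hQ hP hF hc :=
    { toFun := fun p => ⟨⟨(σ p.1.1 * (1 - Q) + p.2.1, p.1.1), by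
        rw [mem_G]
        change σ p.1.1 * (1 - Q) + p.2.1 - σ p.1.1 ∈ D
        have : σ p.1.1 * (1 - Q) + p.2.1 - σ p.1.1 = p.2.1 - σ p.1.1 * Q := by
          rw [mul_sub, mul_one]
          abel
        rw [this]
        exact hFD (sub_mem p.2.2 (hcF _ p.1.2))⟩, p.1.1, p.1.2, p.2.1, p.2.2, rfl⟩
      map_add' := by
        intro p p'
        apply Subtype.ext
        apply Subtype.ext
        refine Prod.ext ?_ rfl
        change σ (p.1.1 + p'.1.1) * (1 - Q) + (p.2.1 + p'.2.1) =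
          σ p.1.1 * (1 - Q) + p.2.1 + (σ p'.1.1 * (1 - Q) + p'.2.1)
        rw [map_add, add_mul]
        abel
      map_smul' := by
        intro r p
        apply Subtype.ext
        apply Subtype.ext
        refine Prod.ext ?_ rfl
        change σ (r • p.1.1) * (1 - Q) + r • p.2.1 = r • (σ p.1.1 * (1 - Q) + p.2.1)
        rw [map_smul, smul_mul_assoc, smul_add] }
  refine Module.Finite.of_surjective φ ?_
  rintro ⟨g, c, hcK, z, hz, h⟩
  refine ⟨(⟨c, hcK⟩, ⟨z, hz⟩), ?_⟩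
  apply Subtype.ext
  apply Subtype.ext
  exact h.symm

theorem t (hBRT : S_BRT) (hMU1 : S_MU1) (hQPR : S_QPR) (hXAF : S_XAF) : S_GAF := by
  classical
  intro C M _ _ D hD hlaf hsep hC σ
  have hcl : IsClosed (G D hD σ : Set (M × C)) := closed_G D hD σ
  have := hC.1
  let p₁ : G D hD σ →⋆ₐ[ℂ] M := (StarAlgHom.fst ℂ M C).comp (G D hD σ).subtype
  let p₂ : G D hD σ →⋆ₐ[ℂ] C := (StarAlgHom.snd ℂ M C).comp (G D hD σ).subtype
  refine ⟨G D hD σ, StarSubalgebra.cstarAlgebra (S := StarSubalgebra ℂ (M × C)) (G D hD σ), p₁, p₂,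
    ⟨sep_G D hD σ hsep, ?_⟩, ?_, ?_⟩
  · intro S ε hε
    obtain ⟨K, hK, hdense⟩ := hBRT C hC
    have hmono : Monotone K := monotone_nat_of_le_succ fun n => (hK n).2.2
    have happ : ∀ g : G D hD σ, ∃ k, ∃ c ∈ K k, ‖g.1.2 - c‖ < ε / 5 := by
      intro g
      obtain ⟨c, hc, hd⟩ := Metric.dense_iff.1 hdense g.1.2 (ε / 5) (by positivity)
      obtain ⟨k, hk⟩ := Set.mem_iUnion.1 hd
      refine ⟨k, c, hk, ?_⟩
      rw [← dist_eq_norm, dist_comm]
      exact hc
    choose kk cc hcc hcn using happ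
    let k := S.sup kk
    obtain ⟨m, b, e, hmu, hmem, hun⟩ := hMU1 C (K k) (hK k).1
    have h1K : (1 : C) ∈ K k := (hK k).2.1
    have hsum : ∑ x, e x x = 1 := by
      have := (hun 1 h1K).1
      rwa [mul_one] at this
    let d : G D hD σ → M := fun g => g.1.1 - σ g.1.2
    have hdD : ∀ x ∈ S.image d, x ∈ D := by
      intro x hx
      obtain ⟨g, _, rfl⟩ := Finset.mem_image.1 hx
      exact g.2
    obtain ⟨q, hq, hqd⟩ := hQPR C M D hD hlaf σ m b e hmu hsum (S.image d) (ε / 5) hdD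
      (by positivity)
    obtain ⟨F, hF1, hF2, hQF, hQP, hQf, hcomm, hz⟩ := hXAF C M D hD hlaf σ m b e hmu q hq _ rfl
      (S.image d) (ε / 5) hdD (by positivity)
    set Q : M := ∑ x, σ (e x (b x)) * q (b x) * σ (e (b x) x) with hQdef
    have hcQ : ∀ c ∈ K k, σ c * Q = Q * σ c ∧ σ c * Q ∈ F := by
      intro c hc
      have hc' : c ∈ spn e := (hmem c).1 hc
      clear hc
      induction hc' using Submodule.span_induction with
      | mem x hx =>
        obtain ⟨⟨x, y⟩, rfl⟩ := hx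
        exact hcomm x y
      | zero =>
        rw [map_zero, zero_mul, mul_zero]
        exact ⟨rfl, zero_mem _⟩
      | add x y _ _ hx hy =>
        rw [map_add, add_mul, mul_add, hx.1, hy.1]
        refine ⟨rfl, ?_⟩
        rw [← hx.1, ← hy.1]
        exact add_mem hx.2 hy.2
      | smul r x _ hx =>
        rw [map_smul, smul_mul_assoc, mul_smul_comm, hx.1]
        refine ⟨rfl, ?_⟩
        rw [← hx.1]
        exact SMulMemClass.smul_mem r hx.2
    have hQn : ‖Q‖ ≤ 1 := pj_norm hQP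
    refine ⟨E D hD σ (K k) h1K F Q hQF hQP hQf (fun c hc => (hcQ c hc).1),
      fd_E (hK k).1 hF1 hF2 (fun c hc => (hcQ c hc).2), ?_⟩
    intro g hg
    obtain ⟨z, hzF, hzn⟩ := hz (d g) (Finset.mem_image_of_mem _ hg)
    have hcK : cc g ∈ K k := hmono (Finset.le_sup hg) (hcc g)
    have hel : (σ (cc g) * (1 - Q) + (σ (cc g) * Q + z), cc g) ∈ G D hD σ := by
      rw [mem_G]
      change σ (cc g) * (1 - Q) + (σ (cc g) * Q + z) - σ (cc g) ∈ D
      have : σ (cc g) * (1 - Q) + (σ (cc g) * Q + z) - σ (cc g) = z := by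
        rw [mul_sub, mul_one]
        abel
      rw [this]
      exact hF2 hzF
    refine ⟨⟨_, hel⟩, ⟨cc g, hcK, σ (cc g) * Q + z, add_mem (hcQ _ hcK).2 hzF, rfl⟩, ?_⟩
    change ‖g.1 - (σ (cc g) * (1 - Q) + (σ (cc g) * Q + z), cc g)‖ < ε
    have h1 : ‖g.1.2 - cc g‖ < ε / 5 := hcn g
    have h2 := hqd (d g) (Finset.mem_image_of_mem _ hg)
    rw [Prod.norm_def, max_lt_iff]
    refine ⟨?_, ?_⟩
    · change ‖g.1.1 - (σ (cc g) * (1 - Q) + (σ (cc g) * Q + z))‖ < ε
      have e1 : g.1.1 - (σ (cc g) * (1 - Q) + (σ (cc g) * Q + z)) =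
          σ (g.1.2 - cc g) + (d g - Q * d g) + Q * (d g - d g * Q) + (Q * d g * Q - z) := by
        have e2 : g.1.1 = σ g.1.2 + d g := by
          change g.1.1 = σ g.1.2 + (g.1.1 - σ g.1.2)
          abel
        rw [e2]
        generalize d g = w
        simp only [map_sub, mul_sub, mul_one, mul_assoc]
        abel
      rw [e1]
      have n1 : ‖σ (g.1.2 - cc g)‖ < ε / 5 := lt_of_le_of_lt (norm_le σ _) h1
      have n2 : ‖Q * (d g - d g * Q)‖ < ε / 5 := by
        refine lt_of_le_of_lt (norm_mul_le _ _) ?_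
        refine lt_of_le_of_lt (mul_le_of_le_one_left (norm_nonneg _) hQn) h2.2
      have n3 := norm_add_le (σ (g.1.2 - cc g) + (d g - Q * d g) + Q * (d g - d g * Q))
        (Q * d g * Q - z)
      have n4 := norm_add_le (σ (g.1.2 - cc g) + (d g - Q * d g)) (Q * (d g - d g * Q))
      have n5 := norm_add_le (σ (g.1.2 - cc g)) (d g - Q * d g)
      have n6 := h2.1
      linarith
    · change ‖g.1.2 - cc g‖ < ε
      linarith
  · intro m c h
    exact ⟨⟨(m, c), h⟩, rfl, rfl⟩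
  · rintro ⟨⟨m, c⟩, h⟩ h1 h2
    apply Subtype.ext
    exact Prod.ext h1 h2

end Pool.Agent.Helper53.AE.GAF
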