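import Pool.Agent.Helper53.AE.GoalsB

/-!
# Packet AE-GLA (MP_8130e1_an)
-/

set_option autoImplicit false

open scoped ComplexOrder Topology
open Filter TopologicalSpace

namespace Pool.Agent.Helper53.AE.GLA

theorem t : S_GLA := by
  classical
  intro M _ D hD P y z d hd hstep
  -- the finite set at stage `n`
  let S : ∀ n : ℕ, (∀ m, m < n → M) → Finset M := fun n X =>
    ((Finset.range n).attach.image fun m => X m.1 (Finset.mem_range.1 m.2)) ∪
    (((Finset.range n ×ˢ (Finset.range n).attach).image fun q =>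
        y q.1 * X q.2.1 (Finset.mem_range.1 q.2.2)) ∪
      (((Finset.range n ×ˢ (Finset.range n).attach).image fun q =>
        star (y q.1) * X q.2.1 (Finset.mem_range.1 q.2.2)) ∪
      (Finset.range n).image d))
  have hS : ∀ n (X : ∀ m, m < n → M), (∀ m h, X m h ∈ D) → ∀ a ∈ S n X, a ∈ D := by
    intro n X hX a ha
    simp only [S, Finset.mem_union, Finset.mem_image] at ha
    rcases ha with ⟨m, _, rfl⟩ | ⟨q, _, rfl⟩ | ⟨q, _, rfl⟩ | ⟨j, _, rfl⟩
    · exact hX _ _
    · exact (hD.2 _ _ (hX _ _)).1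
    · exact (hD.2 _ _ (hX _ _)).1
    · exact hd j
  have hex : ∀ n (X : ∀ m, m < n → M), (∀ m h, X m h ∈ D) → ∃ x ∈ D, star x * x = P n ∧
      (∀ j < n, ‖star x * y j * x - P n * z n j * P n‖ < (1 / 16) ^ (n + 1)) ∧
      ∀ a ∈ S n X, ‖star x * a‖ < (1 / 16) ^ (n + 1) := fun n X hX =>
    hstep n (S n X) ((1 / 16) ^ (n + 1)) (hS n X hX) (by positivity)
  -- recursion
  let G : ∀ n : ℕ, (∀ m, m < n → D) → D := fun n X =>
    ⟨(hex n (fun m h => (X m h : M)) fun m h => (X m h).2).choose,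
      (hex n (fun m h => (X m h : M)) fun m h => (X m h).2).choose_spec.1⟩
  let F : ∀ n : ℕ, D := fun n => WellFounded.fix (C := fun _ : ℕ => D) Nat.lt_wfRel.wf G n
  have hF : ∀ n, F n = G n fun m _ => F m := fun n =>
    WellFounded.fix_eq (C := fun _ : ℕ => D) Nat.lt_wfRel.wf G n
  have hspec : ∀ n, star (F n : M) * (F n : M) = P n ∧
      (∀ j < n, ‖star (F n : M) * y j * (F n : M) - P n * z n j * P n‖ < (1 / 16) ^ (n + 1)) ∧
      ∀ a ∈ S n (fun m _ => (F m : M)), ‖star (F n : M) * a‖ < (1 / 16) ^ (n + 1) := by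
    intro n
    have h1 : (F n : M) = (hex n (fun m _ => (F m : M)) fun m _ => (F m).2).choose := by
      rw [hF n]
    rw [h1]
    exact (hex n (fun m _ => (F m : M)) fun m _ => (F m).2).choose_spec.2
  refine ⟨fun n => (F n : M), fun n => ⟨(F n).2, (hspec n).1, (hspec n).2.1, fun m hm => ?_,
    fun j hj m hm => ⟨?_, ?_⟩, fun j hj => ?_⟩⟩
  · refine (hspec n).2.2 _ (Finset.mem_union_left _ (Finset.mem_image.2 ?_))
    exact ⟨⟨m, Finset.mem_range.2 hm⟩, Finset.mem_attach _ _, rfl⟩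
  · rw [mul_assoc]
    refine (hspec n).2.2 _ (Finset.mem_union_right _ (Finset.mem_union_left _
      (Finset.mem_image.2 ?_)))
    exact ⟨(j, ⟨m, Finset.mem_range.2 hm⟩), Finset.mem_product.2
      ⟨Finset.mem_range.2 hj, Finset.mem_attach _ _⟩, rfl⟩
  · rw [mul_assoc]
    refine (hspec n).2.2 _ (Finset.mem_union_right _ (Finset.mem_union_right _
      (Finset.mem_union_left _ (Finset.mem_image.2 ?_))))
    exact ⟨(j, ⟨m, Finset.mem_range.2 hm⟩), Finset.mem_product.2
      ⟨Finset.mem_range.2 hj, Finset.mem_attach _ _⟩, rfl⟩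
  · refine (hspec n).2.2 _ (Finset.mem_union_right _ (Finset.mem_union_right _
      (Finset.mem_union_right _ (Finset.mem_image.2 ?_))))
    exact ⟨j, Finset.mem_range.2 hj, rfl⟩

end Pool.Agent.Helper53.AE.GLA
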