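import Pool.Agent.Helper53.AE.GoalsA

/-!
# Project AE (MP_8130e1_an), goals B: completely positive maps into finite-dimensional algebras
-/

set_option autoImplicit false

open scoped ComplexOrder Topology
open Filter TopologicalSpace

namespace Pool.Agent.Helper53.AE

/-- PIN. Injective *-homomorphisms reflect positivity of matrices.
Proof. `X = (K i j) ∈ M_n(B)` (`CStarMatrix (Fin n) (Fin n) B` is a `CStarAlgebra`), `ι_n : M_n(B) → M_n(C)` entrywise is an injective *-homomorphism. `PosK` says `ι_n X = ∑_j star (Z j) * Z j ≥ 0` (`Z j` = the matrix with first row `W j`, if `n > 0`). So `X` is selfadjoint (injectivity) and `ι_n` maps its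
negative part (`cfc (t ↦ max (-t) 0) X`, homomorphisms commute with `cfc`) to `0`; so the negative part is `0`, `X ≥ 0`, `X = star Z * Z`, i.e. `K i j = ∑_l star (Z l i) * Z l j`. -/
def S_PIN : Prop := ∀ (B C : Type) [CStarAlgebra B] [CStarAlgebra C] (ι : B →⋆ₐ[ℂ] C),
  Function.Injective ι → ∀ (n : ℕ) (K : Fin n → Fin n → B),
  PosK Set.univ (fun i j => ι (K i j)) → PosK Set.univ K

/-- KRN. Krein's extension theorem.
Proof. For selfadjoint `x ∈ V`: `‖x‖ 1 - x` and `‖x‖ 1` are of the form `star z * z`, so `Λ x` is real. Apply `riesz_extension` (Mathlib) to the real space `E = selfAdjoint G`, the convex cone of the `x` of the form `star z * z` (sums of such elements are such: `CStarAlgebra.nonneg_iff_eq_star_mul_self` for the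
spectral order), the subspace `{x ∈ E : x ∈ V}` and `re Λ`; every `y ∈ E` has `‖y‖ 1 + y` in the cone. Result `g : E →ₗ[ℝ] ℝ`; `Λ' x = g (realPart x) + i g (imaginaryPart x)` is complex linear, extends `Λ` (`V` is closed under `star`, so under real and imaginary parts), and `Λ' (star z * z) = g ≥ 0`. -/
def S_KRN : Prop := ∀ (G : Type) [CStarAlgebra G] (V : Submodule ℂ G) (Λ : V →ₗ[ℂ] ℂ),
  (1 : G) ∈ V → (∀ x ∈ V, star x ∈ V) → (∀ x : V, (∃ z : G, (x : G) = star z * z) → 0 ≤ Λ x) →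
  ∃ Λ' : G →ₗ[ℂ] ℂ, (∀ x : V, Λ' x = Λ x) ∧ ∀ z, 0 ≤ Λ' (star z * z)

/-- ARV. Arveson's extension theorem with values in a finite-dimensional algebra (uses COE, KRN).
Proof. If `n = 0` then `spn f = 0`, `κ = 0`. Let `n > 0`; `c p q : M →ₗ ℂ` from COE for `f`. `G = CStarMatrix (Fin n) (Fin n) N`, `V_G` the matrices with entries in `V`, `Λ X = ∑ p, ∑ q, c p q (μ (X p q))`. Positivity: `X = star Z * Z` means `X p q = ∑_l star (Z l p) * Z l q`, so by hypothesis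
`μ (X p q) = ∑_j star (W j p) * W j q` with `W j p ∈ M`. For a root `ρ = r ρ`: `∑_{r p = r q = ρ} f ρ p * μ (X p q) * f q ρ = ∑_j star (B j) * B j`, `B j = ∑_{r p = ρ} W j p * f p ρ`; and `f ρ p * μ (X p q) * f q ρ = c p q (μ (X p q)) • f ρ ρ` (as `μ (X p q) ∈ spn f`). So `(∑_{r p = r q = ρ} c p q (μ (X p q))) • f ρ ρ ≥ 0`,
and `f ρ ρ` is a nonzero projection, so the scalar is `≥ 0`; sum over `ρ` (`c p q = 0` in different blocks). KRN: `Λ'`. Write `x[p,q]` for the matrix with the entry `x` at `(p, q)`. `κ x = ∑_{r p = r q} Λ' (x[p,q]) • f p q`. For `x ∈ V`: `Λ' (x[p,q]) = c p q (μ x)`, so `κ x = μ x`. `PosK`: for `Y : Fin k → N` the scalar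
matrix `A (s,p) (t,q) = Λ' ((star (Y s) * Y t)[p,q])` is positive semidefinite: `∑ conj (z s p) z t q A = Λ' (star Z * Z)`, `Z = ∑ z t q • (Y t)[0,q]`. So `A (s,p) (t,q) = ∑_j conj (g j s p) g j t q` (`Matrix.posSemidef_iff_eq_conjTranspose_mul_self` or the like), and
`κ (star (Y s) * Y t) = ∑_j ∑_ρ star (w) w` with `w j ρ s = ∑_{r p = ρ} g j s p • f ρ p` (`ρ` over the roots; put `w = 0` if `r ρ ≠ ρ`). Reindex `(j, ρ)` by some `Fin r`. -/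
def S_ARV : Prop := ∀ (N M : Type) [CStarAlgebra N] [CStarAlgebra M] (V : Submodule ℂ N)
  (μ : V →ₗ[ℂ] M) (n : ℕ) (r : Fin n → Fin n) (f : Fin n → Fin n → M), MUs r f → (1 : N) ∈ V →
  (∀ x ∈ V, star x ∈ V) → (∀ x : V, μ x ∈ spn f) →
  (∀ K : Fin n → Fin n → V, PosK Set.univ (fun i j => (K i j : N)) →
    PosK Set.univ fun i j => μ (K i j)) →
  ∃ κ : N →ₗ[ℂ] M, (∀ x : V, κ x = μ x) ∧
    ∀ (k : ℕ) (Y : Fin k → N), PosK (spn f : Set M) fun s t => κ (star (Y s) * Y t)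

/-- BND. Bound for completely positive maps.
Proof. With the spectral order: `κ (star z * z) ≥ 0` (one `Y`), so `κ` preserves positivity; for selfadjoint `x`: `-‖x‖ 1 ≤ x ≤ ‖x‖ 1` gives `-‖x‖ κ 1 ≤ κ x ≤ ‖x‖ κ 1`, so `κ x` is selfadjoint and `‖κ x‖ ≤ ‖x‖ ‖κ 1‖ ≤ ‖x‖`. Real and imaginary parts: `‖κ x‖ ≤ 2 ‖x‖`. -/
def S_BND : Prop := ∀ (N M : Type) [CStarAlgebra N] [CStarAlgebra M] (κ : N →ₗ[ℂ] M),
  (∀ (k : ℕ) (Y : Fin k → N), PosK Set.univ fun s t => κ (star (Y s) * Y t)) → ‖κ 1‖ ≤ 1 →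
  ∀ x, ‖κ x‖ ≤ 2 * ‖x‖

/-- CEX. Conditional expectations onto finite-dimensional subalgebras (uses ARV).
Proof. `P = ∑ f p p` is the unit of `spn f`. ARV for `N = M`, `V = {x : ∃ l, x - l 1 ∈ spn f}`, `μ x = P x` (`= x P = P x P ∈ spn f`). If `K i j = ∑ star (W l i) * W l j ∈ V` then `μ (K i j) = P K i j P = ∑ star (W l i P) * (W l j P)`. `κ a = P a = a` for `a ∈ spn f`, `κ 1 = P`. -/
def S_CEX : Prop := ∀ (M : Type) [CStarAlgebra M] (n : ℕ) (r : Fin n → Fin n)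
  (f : Fin n → Fin n → M), MUs r f → ∃ Ψ : M →ₗ[ℂ] M, (∀ a ∈ spn f, Ψ a = a) ∧
    Ψ 1 = ∑ p, f p p ∧
    ∀ (k : ℕ) (Y : Fin k → M), PosK (spn f : Set M) fun s t => Ψ (star (Y s) * Y t)

/-- KAP. Completely positive maps out of `C` that follow a lifting (uses PIN, ARV, BND, CEX).
Proof. `P = ∑ f p p`. `Ψ` from CEX; `Ψ' m = Ψ (P m P)`: `PosK (spn f) (Ψ' (star (Y s) * Y t))` (take `Y s * P`). Let `V = ι(E) ⊆ C`, `μ : V → M`, `μ (ι x) = Ψ' (θ (s x))`. `V ∋ 1` is closed under `star`, `μ` takes values in `spn f` (the case `k = 1` of `PosK` and linearity, or: `Ψ m` for `m = star y * y` is in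
`spn f`, `spn f` is closed under products, and every `m` is a combination of such; or use that `PosK (spn f)` for `Y = (star m, 1)` gives `Ψ (m) = ∑ star w w' ∈ spn f`). If `K i j = ι (K' i j)`, `K' i j ∈ E`, is `PosK univ` then so is `K'` (PIN), then `s K'` (hypothesis), then `θ (s K')`, and
`Ψ' (∑_l star (W l i) * W l j) = ∑_l (a PosK)`. ARV: `κ : C →ₗ M`; `κ (ι x) = Ψ' (θ (s x))`, `κ 1 = Ψ P = P`. For `y ∈ spn f`, `m = P θ(s x) P`: `‖κ (ι x) - m‖ ≤ ‖Ψ (m - y)‖ + ‖y - m‖ ≤ 3 ‖m - y‖` (BND for `Ψ`, `‖Ψ 1‖ = ‖P‖ ≤ 1`). -/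
def S_KAP : Prop := ∀ (A B C M : Type) [CStarAlgebra A] [CStarAlgebra B] [CStarAlgebra C]
  [CStarAlgebra M] (θ : A →⋆ₐ[ℂ] M) (ι : B →⋆ₐ[ℂ] C), Function.Injective ι →
  ∀ (E : Submodule ℂ B) (s : E →ₗ[ℂ] A) (h1 : (1 : B) ∈ E), (∀ x ∈ E, star x ∈ E) →
  s ⟨1, h1⟩ = 1 → (∀ (n : ℕ) (K : Fin n → Fin n → E), PosK Set.univ (fun i j => (K i j : B)) →
    PosK Set.univ fun i j => s (K i j)) →
  ∀ (n : ℕ) (r : Fin n → Fin n) (f : Fin n → Fin n → M), MUs r f → ∃ κ : C →ₗ[ℂ] M,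
    κ 1 = ∑ p, f p p ∧
    (∀ (k : ℕ) (Y : Fin k → C), PosK (spn f : Set M) fun s t => κ (star (Y s) * Y t)) ∧
    ∀ (x : E), ∀ y ∈ spn f, ‖κ (ι x) - (∑ p, f p p) * θ (s x) * ∑ p, f p p‖ ≤
      3 * ‖(∑ p, f p p) * θ (s x) * (∑ p, f p p) - y‖

/-- ONE. The step of the construction (uses PRX, MU1, KAP, BND, STL).
Proof. PRX (`g = P`, the finite set `{P θ(s (x i)) P}`, `δ/8`): `F' ≤ D` finite-dimensional, `P ∈ F'`; `P F' P` is a finite-dimensional *-algebra with unit `P`, it contains `y i` with `‖P θ(s (x i)) P - y i‖ < δ/8`. MU1: `r`, `f` with `spn f = P F' P`, `∑ f p p = P`. KAP: `κ`, `κ 1 = P`,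
`‖κ (ι (x i)) - P θ(s (x i)) P‖ ≤ 3δ/8`. BND: `‖κ c‖ ≤ 2 ‖c‖`. Choose `k` and `c i ∈ F k`, `‖ι (x i) - c i‖ < δ/16` (density; `F` increases): `‖κ (c i) - P θ(s (x i)) P‖ < δ/2`. MU1 for `F k`: `b`, `e`. For `x, x' : Fin m`: `e x x' = ∑_ρ star (e ρ x) * e ρ x'` over the roots `ρ = b ρ`, so
`κ (e x x') = ∑_ρ κ (star (Y_ρ x) * Y_ρ x')`, `Y_ρ x = e ρ x`, is a `PosK (spn f)` kernel: `κ (e x x') = ∑_{l < L} star (y l x) * y l x'`, `y l x ∈ spn f ⊆ D`. STL (`Isr (σ (e x x))`: `e x x ∈ F k` is a nonzero projection; the finite set `S`, `δ`): `X ∈ D`, `star X σ(e x x') X = κ (e x x')` (both are `0` if `b x ≠ b x'`),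
so `star X σ(c) X = κ c` for `c ∈ F k`. `c = 1`: `star X X = P`, `‖X‖ ≤ 1`. `‖star X σ(ι (x i)) X - P θ(s (x i)) P‖ ≤ ‖ι (x i) - c i‖ + ‖κ (c i) - P θ(s (x i)) P‖ < δ`. -/
def S_ONE : Prop := ∀ (A B C M : Type) [CStarAlgebra A] [CStarAlgebra B] [CStarAlgebra C]
  [CStarAlgebra M] (D : NonUnitalStarSubalgebra ℂ M), Idl D → LAF D → ∀ s₁ s₂ : M, Cz s₁ s₂ →
  ∀ (θ : A →⋆ₐ[ℂ] M) (ι : B →⋆ₐ[ℂ] C), Function.Injective ι →
  ∀ F : ℕ → NonUnitalStarSubalgebra ℂ C, Brt F → ∀ σ : C →⋆ₐ[ℂ] M,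
  (∀ k, ∀ p ∈ F k, Pj p → p ≠ 0 → Isr (σ p)) →
  ∀ (E : Submodule ℂ B) (s : E →ₗ[ℂ] A) (h1 : (1 : B) ∈ E), (∀ x ∈ E, star x ∈ E) →
  s ⟨1, h1⟩ = 1 → (∀ (n : ℕ) (K : Fin n → Fin n → E), PosK Set.univ (fun i j => (K i j : B)) →
    PosK Set.univ fun i j => s (K i j)) →
  ∀ (n : ℕ) (x : Fin n → E) (P : M), P ∈ D → Pj P → ∀ (S : Finset M) (δ : ℝ),
  (∀ d ∈ S, d ∈ D) → 0 < δ → ∃ X ∈ D, star X * X = P ∧
    (∀ i, ‖star X * σ (ι (x i)) * X - P * θ (s (x i)) * P‖ < δ) ∧ ∀ d ∈ S, ‖star X * d‖ < δ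

/-! ## Projections and windows -/

/-- PSQ. An increasing approximate unit of projections, almost invariant under `x` (uses PEX).
Proof. `d` a dense sequence in `D`. `p 0 = 0`. Given `p k`: PEX for `p = p k`, the finite set `{x j * p k, star (x j) * p k : j ≤ k} ∪ {d j : j ≤ k}` and `ε = 2^-k`: `q = p (k+1)`. For `d ∈ D`: `‖d - p k d‖ ≤ 2 ‖d - d j‖ + ‖d j - p k d j‖`. (`‖p k x j (1 - q)‖ = ‖(1 - q) star (x j) p k‖`.) -/
def S_PSQ : Prop := ∀ (M : Type) [CStarAlgebra M] (D : NonUnitalStarSubalgebra ℂ M), Env M D →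
  ∀ x : ℕ → M, ∃ p : ℕ → M, p 0 = 0 ∧ (∀ k, p k ∈ D ∧ Pj (p k)) ∧ (∀ k, p (k + 1) * p k = p k) ∧
    (∀ j k, j ≤ k → ‖(1 - p (k + 1)) * x j * p k‖ ≤ (1 / 2) ^ k ∧
      ‖p k * x j * (1 - p (k + 1))‖ ≤ (1 / 2) ^ k) ∧
    ∀ d ∈ D, Tendsto (fun k => p k * d) atTop (𝓝 d)

/-- WIN. Windows.
Proof. `N 0 = 0`, `N (n+1) ≥ max (R (n+1)) (N n + 4^(n+1))`. `c n k = √(g n k)`: `g n k = (k - N n)/(N (n+1) - N n)` for `N n ≤ k ≤ N (n+1)`, `n ≥ 1`; `g 0 k = 1` for `k ≤ N 1`; `g n k = (N (n+2) - k)/(N (n+2) - N (n+1))` for `N (n+1) ≤ k ≤ N (n+2)`; `0` elsewhere.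
For `N n ≤ k ≤ N (n+1)`, `n ≥ 1`: `g n k + g (n-1) k = 1` and the others are `0`; for `k ≤ N 1`: `g 0 k = 1`, the others `0`. `|√a - √b| ≤ √|a - b|`, `|g n k - g n (k+1)| ≤ 4^-n` (the gaps are `≥ 4^(n+1)`). -/
def S_WIN : Prop := ∀ R : ℕ → ℕ, ∃ (N : ℕ → ℕ) (c : ℕ → ℕ → ℝ), N 0 = 0 ∧
  (∀ n, 0 < n → R n ≤ N n) ∧ (∀ n, N n < N (n + 1)) ∧ (∀ n k, 0 ≤ c n k) ∧
  (∀ n k, k < N n ∨ N (n + 2) ≤ k → c n k = 0) ∧ (∀ n k, |c n k - c n (k + 1)| ≤ (1 / 2) ^ n) ∧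
  ∀ k n, k < N n → ∑ i ∈ Finset.range n, c i k ^ 2 = 1

/-- The window elements. -/
noncomputable def fw {M : Type} [CStarAlgebra M] (p : ℕ → M) (N : ℕ → ℕ) (c : ℕ → ℕ → ℝ) (n : ℕ) :
    M :=
  ∑ k ∈ Finset.range (N (n + 2)), (c n k : ℂ) • (p (k + 1) - p k)

/-- FWA. The window elements, algebraic part.
Proof. `q k = p (k+1) - p k` are orthogonal projections (`p i * p j = p (min i j)` by induction), in `D`; `0 ≤ c n k ≤ 1` (`c n k ^ 2` is one of the nonnegative terms of a sum equal to `1`). So `f n` is selfadjoint in `D`, `‖f n‖ ≤ 1`, `f n p (N (n+2)) = f n`,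
`f n p (N n) = 0` (`c n k = 0` for `k < N n`; `q k p (N n) = 0` for `k ≥ N n`). `∑_{i<n} f i * f i = ∑_{k < N (n+1)} a k q k` with `a k = ∑_{i<n} c i k ^ 2`, `= 1` for `k < N n` and in `[0, 1]` always (it is at most the sum over `i < n'` with `k < N n'`). So the norm is `≤ 1`,
and `(1 - ∑_{i<n} f i * f i) = (1 - ∑_{i<n} f i * f i) (1 - p (N n))`, of norm `≤ 1`, so `‖(1 - ∑) d‖ ≤ ‖(1 - p (N n)) d‖ → 0`. -/
def S_FWA : Prop := ∀ (M : Type) [CStarAlgebra M] (D : NonUnitalStarSubalgebra ℂ M), Env M D →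
  ∀ p : ℕ → M, p 0 = 0 → (∀ k, p k ∈ D ∧ Pj (p k)) → (∀ k, p (k + 1) * p k = p k) →
  (∀ d ∈ D, Tendsto (fun k => p k * d) atTop (𝓝 d)) →
  ∀ (N : ℕ → ℕ) (c : ℕ → ℕ → ℝ), N 0 = 0 → (∀ n, N n < N (n + 1)) → (∀ n k, 0 ≤ c n k) →
  (∀ n k, k < N n ∨ N (n + 2) ≤ k → c n k = 0) →
  (∀ k n, k < N n → ∑ i ∈ Finset.range n, c i k ^ 2 = 1) →
  (∀ n, fw p N c n ∈ D ∧ star (fw p N c n) = fw p N c n ∧ ‖fw p N c n‖ ≤ 1 ∧
    p (N (n + 2)) * fw p N c n = fw p N c n ∧ fw p N c n * p (N n) = 0) ∧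
  (∀ n, ‖∑ i ∈ Finset.range n, fw p N c i * fw p N c i‖ ≤ 1) ∧
  ∀ d ∈ D, Tendsto (fun n => (∑ i ∈ Finset.range n, fw p N c i * fw p N c i) * d) atTop (𝓝 d)

/-- FWB. The window elements almost commute with `x`.
Proof. Fix `j < n`, `x = x j`, `c = c n`, `L = N (n+2)`, `q k = p (k+1) - p k`. Abel summation (`p 0 = 0`, `c L = 0`): `f n = ∑_{1 ≤ k ≤ L} δ k p k`, `δ k = c (k-1) - c k`; `δ k = 0` unless `k > N n` (for `k < N n` clear; for `k = N n`: `c (k-1) = 0`, and the term `k = N n` has `|δ k| ≤ 2^-n` too; include it). So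
`[f n, x] = ∑ δ k (p k x (1 - p k) - (1 - p k) x p k)`, `N n ≤ k ≤ L`, `k ≥ 1`, `|δ k| ≤ 2^-n`. For `k ≥ n ≥ j + 1`: `p k x (1 - p k) = q (k-1) x q k + p (k-1) x (1 - p k) q k + p k x (1 - p (k+1))` and the last two terms have norm `≤ 2^-(k-1)`, `≤ 2^-k` (`j ≤ k - 1`). The sum `∑ δ k q (k-1) x q k` has norm `≤ max |δ k| ‖x‖ ≤ 2^-n ‖x‖`
(orthogonal ranges and sources: if `y k = q (k-1) y k q k` then `star (∑ y k) ∑ y k = ∑ star (y k) y k` is a sum of elements of the orthogonal corners `q k M q k`, of norm `max ‖y k‖²`; cf. `Pool.Agent.Helper61.CAR.orth`; or, for finite sums in a C*-algebra, induct with `‖a + b‖ = max ‖a‖ ‖b‖` if `star a b = 0 = a star b`).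
The second half is the same with stars. `∑_{k ≥ n} (2^-(k-1) + 2^-k) = 6 · 2^-n`. Total `≤ 2^-n (2 ‖x‖ + 12)`. (`N n ≥ n`.) -/
def S_FWB : Prop := ∀ (M : Type) [CStarAlgebra M] (p x : ℕ → M), p 0 = 0 → (∀ k, Pj (p k)) →
  (∀ k, p (k + 1) * p k = p k) →
  (∀ j k, j ≤ k → ‖(1 - p (k + 1)) * x j * p k‖ ≤ (1 / 2) ^ k ∧
    ‖p k * x j * (1 - p (k + 1))‖ ≤ (1 / 2) ^ k) →
  ∀ (N : ℕ → ℕ) (c : ℕ → ℕ → ℝ), N 0 = 0 → (∀ n, N n < N (n + 1)) → (∀ n k, 0 ≤ c n k) →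
  (∀ n k, k < N n ∨ N (n + 2) ≤ k → c n k = 0) → (∀ n k, |c n k - c n (k + 1)| ≤ (1 / 2) ^ n) →
  ∀ j n, j < n → ‖fw p N c n * x j - x j * fw p N c n‖ ≤ (2 * ‖x j‖ + 12) * (1 / 2) ^ n

/-! ## Gluing -/

/-- GLA. Choice of the sequence.
Proof. Strong recursion on `n`: the one-step property for `n`, the finite set `{X m : m < n} ∪ {y j * X m, star (y j) * X m : j, m < n} ∪ {d j : j < n}` (in `D`) and `δ = (1/16)^(n+1)`. -/
def S_GLA : Prop := ∀ (M : Type) [CStarAlgebra M] (D : NonUnitalStarSubalgebra ℂ M), Idl D →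
  ∀ (P y : ℕ → M) (z : ℕ → ℕ → M) (d : ℕ → M), (∀ j, d j ∈ D) →
  (∀ (n : ℕ) (S : Finset M) (δ : ℝ), (∀ d ∈ S, d ∈ D) → 0 < δ → ∃ X ∈ D, star X * X = P n ∧
    (∀ j < n, ‖star X * y j * X - P n * z n j * P n‖ < δ) ∧ ∀ d ∈ S, ‖star X * d‖ < δ) →
  ∃ X : ℕ → M, ∀ n, X n ∈ D ∧ star (X n) * X n = P n ∧
    (∀ j < n, ‖star (X n) * y j * X n - P n * z n j * P n‖ < (1 / 16) ^ (n + 1)) ∧
    (∀ m < n, ‖star (X n) * X m‖ < (1 / 16) ^ (n + 1)) ∧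
    (∀ j < n, ∀ m < n, ‖star (X n) * y j * X m‖ < (1 / 16) ^ (n + 1) ∧
      ‖star (X n) * star (y j) * X m‖ < (1 / 16) ^ (n + 1)) ∧
    ∀ j < n, ‖star (X n) * d j‖ < (1 / 16) ^ (n + 1)

/-- GLB. The sum.
Proof. `‖X n‖ ≤ 1` (`P n` is a projection or `‖star X X‖ ≤ 1`; here `P n` is a projection). `V N = ∑_{n<N} X n f n`. `star (V N) V N = ∑_{n<N} f n² + H N`, `H N = ∑_{m ≠ n < N} f m star (X m) X n f n ∈ D`; `‖H N - H N'‖ ≤ 2 ∑_{n ≥ N'} n (1/16)^(n+1)` for `N' ≤ N`, so `H N → h ∈ D` and `‖h‖ ≤ 2 ∑ n (1/16)^(n+1) < 1/2`.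
So `‖V N‖² ≤ 2`. Strict convergence: for `d ∈ D`, `‖(V N - V N') d‖² ≤ ‖d‖ ‖∑_{N' ≤ n < N} f n² d‖ + ‖d‖² · tail → 0`; `‖d (V N - V N')‖ ≤ ∑_{N' ≤ n < N} ‖d X n‖`, and for `d = star (d j)`: `‖star (d j) X n‖ = ‖star (X n) d j‖ < (1/16)^(n+1)` for `n > j`, so Cauchy for these; they are dense in `D` and the `V N` are bounded. `strict` gives `V`
with `V N d → V d`, `d V N → d V` (`d ∈ D`). Then `star (V N) a → star V a` for `a ∈ D` (adjoints), so `star (V N) w V N d → star V w V d` for every `w ∈ M`, `d ∈ D` (`V N d → V d`, `w V d ∈ D`, bounded). `w = 1`: `star V V d = d + h d`, so `star V V = 1 + h` (`ess`). `w = y j`: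
`star (V N) y j V N = (∑_{n<N} f n²) x j + R N`, `R N = ∑_{n<N} (f n star (X n) y j X n f n - f n² x j) + ∑_{m ≠ n < N} f m star (X m) y j X n f n ∈ D`. For `n > j`: `‖f n star (X n) y j X n f n - f n z n j f n‖ ≤ (1/16)^(n+1)` (`P n f n = f n`), `‖f n (z n j - x j) f n‖ ≤ C j 2^-n`, `‖f n x j f n - f n² x j‖ ≤ C j 2^-n`; the off-diagonal terms with
`max m n > j` are `≤ (1/16)^(max m n + 1)` (adjoint if `m < n`). So `R N → R ∈ D`, and `(∑_{n<N} f n²) x j d → x j d` (`x j d ∈ D`): `star V y j V d = x j d + R d`, so `star V y j V - x j = R ∈ D`. -/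
def S_GLB : Prop := ∀ (M : Type) [CStarAlgebra M] (D : NonUnitalStarSubalgebra ℂ M), Env M D →
  ∀ (f P y x : ℕ → M) (z : ℕ → ℕ → M) (C : ℕ → ℝ) (d X : ℕ → M), (∀ j, d j ∈ D) →
  (∀ a ∈ D, ∀ ε : ℝ, 0 < ε → ∃ j, ‖a - d j‖ < ε) →
  (∀ n, f n ∈ D ∧ star (f n) = f n ∧ ‖f n‖ ≤ 1 ∧ P n * f n = f n ∧ Pj (P n)) →
  (∀ a ∈ D, Tendsto (fun n => (∑ i ∈ Finset.range n, f i * f i) * a) atTop (𝓝 a)) →
  (∀ n, ‖∑ i ∈ Finset.range n, f i * f i‖ ≤ 1) →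
  (∀ j n, j < n → ‖f n * (z n j - x j) * f n‖ ≤ C j * (1 / 2) ^ n) →
  (∀ j n, j < n → ‖f n * x j - x j * f n‖ ≤ C j * (1 / 2) ^ n) →
  (∀ n, X n ∈ D ∧ star (X n) * X n = P n ∧
    (∀ j < n, ‖star (X n) * y j * X n - P n * z n j * P n‖ < (1 / 16) ^ (n + 1)) ∧
    (∀ m < n, ‖star (X n) * X m‖ < (1 / 16) ^ (n + 1)) ∧
    (∀ j < n, ∀ m < n, ‖star (X n) * y j * X m‖ < (1 / 16) ^ (n + 1) ∧
      ‖star (X n) * star (y j) * X m‖ < (1 / 16) ^ (n + 1)) ∧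
    ∀ j < n, ‖star (X n) * d j‖ < (1 / 16) ^ (n + 1)) →
  ∃ V h : M, h ∈ D ∧ star V * V = 1 + h ∧ ‖h‖ < 1 / 2 ∧ ∀ j, star V * y j * V - x j ∈ D

/-- NRM. Normalisation.
Proof. `h = star V V - 1` is selfadjoint with spectrum in `[-1/2, 1/2]`. `g t = (1 + max t (-1/2))^(-1/2) - 1`, `g 0 = 0`, `k = cfcₙ g h ∈ D` (closed *-subalgebra), `z = 1 + k`: `z (1 + h) z = 1`. `v = V z`: `star v v = 1`. If `star V y V = x + d`, `d ∈ D`, then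
`star v y v - x = z (x + d) z - x ∈ D` (expand `z = 1 + k`; `D` is an ideal). -/
def S_NRM : Prop := ∀ (M : Type) [CStarAlgebra M] (D : NonUnitalStarSubalgebra ℂ M), Idl D →
  ∀ V h : M, h ∈ D → star V * V = 1 + h → ‖h‖ < 1 / 2 →
  ∃ v : M, star v * v = 1 ∧ ∀ y x : M, star V * y * V - x ∈ D → star v * y * v - x ∈ D

/-- ABS. Absorption.
Proof. (1) If `star r * r ∈ D` then `r ∈ D`: `r g_δ(star r r) ∈ D` with `g_δ t = min 1 (t/δ)`, and `‖r - r g_δ(star r r)‖² = ‖(1 - g_δ) star r r (1 - g_δ)‖ ≤ δ`; `D` is closed. (2) Write `≡` for congruence modulo `D`. `r = ς a * v - v * θ a`: `star r r = star v ς(star a a) v - (star v ς(star a) v) θ a - θ (star a) (star v ς a v) + θ (star a a) ≡ 0`, so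
`ς a * v ≡ v * θ a`, and `star v * ς a ≡ θ a * star v` (adjoints). (3) `W₁ = v s₁`, `W₂ = v s₂ star v + (1 - v star v)`: `star W₁ W₁ = 1`, `star W₂ W₂ = v star v + (1 - v star v) = 1`, `W₁ star W₁ + W₂ star W₂ = v (s₁ star s₁ + s₂ star s₂) star v + (1 - v star v) = 1`, hence `star W₁ W₂ = 0`. So
`Φ a = W₁ θ a star W₁ + W₂ ς a star W₂` is a unital *-homomorphism, `star W₁ Φ a W₁ = θ a`. (4) `W₁ θ a star W₁ = v θ a s₁ star s₁ star v`; `W₂ ς a star W₂ ≡ v s₂ θ a star s₂ star v + ς a (1 - v star v)` (use (2); cross terms contain `θ a star v (1 - v star v) = 0`), `s₂ θ a star s₂ = θ a s₂ star s₂`. The sum is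
`≡ v θ a star v + ς a (1 - v star v) ≡ ς a v star v + ς a (1 - v star v) = ς a`. -/
def S_ABS : Prop := ∀ (A M : Type) [CStarAlgebra A] [CStarAlgebra M]
  (D : NonUnitalStarSubalgebra ℂ M), Idl D → ∀ (θ ς : A →⋆ₐ[ℂ] M) (s₁ s₂ v : M), Cz s₁ s₂ →
  (∀ a, s₁ * θ a = θ a * s₁ ∧ s₂ * θ a = θ a * s₂) → star v * v = 1 →
  (∀ a, star v * ς a * v - θ a ∈ D) →
  ∃ Φ : A →⋆ₐ[ℂ] M, (∀ a, Φ a - ς a ∈ D) ∧ ∀ a, Φ a = 0 → θ a = 0

end Pool.Agent.Helper53.AE
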