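import Pool.Agent.Helper53.AE.GoalsC

/-!
# Project AE (MP_8130e1_an), goals D: nuclear quotients, surjections have approximate liftings
-/

set_option autoImplicit false

open scoped ComplexOrder Topology
open Filter TopologicalSpace

namespace Pool.Agent.Helper53.AE

/-- operators of the Hermitian space of dimension `k` -/
abbrev Mk (k : ℕ) : Type := EuclideanSpace ℂ (Fin k) →L[ℂ] EuclideanSpace ℂ (Fin k)

/-- `φ` is completely positive. -/
def IsCP {A D : Type} [NonUnitalCStarAlgebra A] [NonUnitalCStarAlgebra D] (φ : A →ₗ[ℂ] D) : Prop :=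
  ∀ (n : ℕ) (y : CStarMatrix (Fin n) (Fin n) A),
    ∃ z : CStarMatrix (Fin n) (Fin n) D, (star y * y).map ⇑φ = star z * z

/-- `B` is nuclear (completely positive approximation property). -/
def Nuc (B : Type) [NonUnitalCStarAlgebra B] : Prop :=
  ∀ (F : Finset B) (ε : ℝ), 0 < ε → ∃ (k : ℕ) (φ : B →ₗ[ℂ] Mk k) (ψ : Mk k →ₗ[ℂ] B),
    (∀ a, ‖φ a‖ ≤ ‖a‖) ∧ (∀ x, ‖ψ x‖ ≤ ‖x‖) ∧ IsCP φ ∧ IsCP ψ ∧ ∀ a ∈ F, ‖ψ (φ a) - a‖ < ε

/-- CPK. Completely positive maps preserve positive kernels.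
Proof. `PosK univ K`, `K s t = ∑_j star (W j s) * W j t`. If `n = 0` trivial (`r = 0`). For each `j` take `y` with first row `W j` and the other rows `0`: `(star y * y) s t = star (W j s) * W j t`, so `φ (star (W j s) * W j t) = (star z * z) s t = ∑_l star (z l s) * z l t`. Sum over `j` (reindex). -/
def S_CPK : Prop := ∀ (A D : Type) [NonUnitalCStarAlgebra A] [NonUnitalCStarAlgebra D]
  (φ : A →ₗ[ℂ] D), IsCP φ → ∀ (n : ℕ) (K : Fin n → Fin n → A), PosK Set.univ K →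
  PosK Set.univ fun i j => φ (K i j)

/-- LFP. Completely positive contractions of matrix algebras lift (uses CPK).
Proof. `ε i j ∈ Mk k` the matrix units (`x = ∑ x i j • ε i j`, `x i j = ⟪e i, x e j⟫`, `star (ε 0' i) * ε 0' j = ε i j` for a fixed index `0'`; if `k = 0` take `0`). The kernel `ε i j` is `PosK univ`, so `ψ (ε i j) = ∑_l star (w l i) * w l j` (CPK), `w l i ∈ B`. Choose `w' l i ∈ A` with `π (w' l i) = w l i` and put
`ψ₀ x = ∑_l ∑_i ∑_j x i j • (star (w' l i) * w' l j)`: `π (ψ₀ x) = ψ x`, and `ψ₀ (star (Y s) * Y t) = ∑_{m,l} star (∑_i (Y s) m i • w' l i) * (∑_j (Y t) m j • w' l j)`. `a = ψ₀ 1 = ∑ star w' w' ≥ 0`, `π a = ψ 1`, `‖ψ 1‖ ≤ 1`. `g t = (max 1 t)^(-1/2) - 1` (`g 0 = 0`), `h = cfcₙ g a ∈ A`, `π h = cfcₙ g (ψ 1) = 0`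
(`g = 0` on `[0, 1]`). `ψ' x = ψ₀ x + h ψ₀ x + ψ₀ x h + h ψ₀ x h`, that is `(1 + h) ψ₀ x (1 + h)` in the unitization. Then `π ∘ ψ' = ψ`, `ψ'` has the same form with `w' l i` replaced by `w' l i + w' l i * h` (`h` is selfadjoint), `ψ' 1 = cfcₙ (t ↦ t (1 + g t)²) a = cfcₙ (min t 1) a`, `‖ψ' 1‖ ≤ 1`. -/
def S_LFP : Prop := ∀ (A B : Type) [NonUnitalCStarAlgebra A] [NonUnitalCStarAlgebra B]
  (π : A →⋆ₙₐ[ℂ] B), Function.Surjective π → ∀ (k : ℕ) (ψ : Mk k →ₗ[ℂ] B),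
  (∀ x, ‖ψ x‖ ≤ ‖x‖) → IsCP ψ → ∃ ψ' : Mk k →ₗ[ℂ] A, (∀ x, π (ψ' x) = ψ x) ∧ ‖ψ' 1‖ ≤ 1 ∧
    ∀ (n : ℕ) (K : Fin n → Fin n → Mk k), PosK Set.univ K → PosK Set.univ fun i j => ψ' (K i j)

/-- UCE. Unital extension of a completely positive contraction.
Proof. It suffices to treat `K i j = star (Y i) * Y j`, `Y i = (l i, b i)` (sum over `j`, reindex). `s (K i j) = conj (l i) l j 1 + T (star (b i) * b j + conj (l i) b j + l j star (b i))`. For `e ∈ B`, `0 ≤ e`, `‖e‖ ≤ 1` put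
`K_e i j = T (star (b i + l i e) * (b j + l j e)) + conj (l i) l j (1 - T (e * e))`: the first part is `PosK`; `0 ≤ T (e e)`, `‖T (e e)‖ ≤ 1` (hypothesis), so `1 - T (e e) = star c * c` in the unitization and the second part is `star (l i c) * (l j c)`. As `e` runs through an approximate unit (`CStarAlgebra.approximateUnit` or any),
`K_e i j → s (K i j)` (the difference is `T` of `l j (star (b i) e - star (b i)) + conj (l i) (e b j - b j)`, and `T` is bounded by `hT`; the terms `conj (l i) l j T (e e)` cancel). In the C*-algebra `CStarMatrix (Fin n) (Fin n) (Unitization ℂ A)` the positive elements are closed and each is `star Z * Z`, i.e. `PosK univ`. -/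
def S_UCE : Prop := ∀ (A B : Type) [NonUnitalCStarAlgebra A] [NonUnitalCStarAlgebra B]
  (T : B →ₗ[ℂ] A), (∀ b, ‖T b‖ ≤ 2 * ‖b‖) → (∀ e : B, ‖e‖ ≤ 1 → ‖T (star e * e)‖ ≤ 1) →
  (∀ (n : ℕ) (K : Fin n → Fin n → B), PosK Set.univ K → PosK Set.univ fun i j => T (K i j)) →
  ∃ s : Unitization ℂ B →ₗ[ℂ] Unitization ℂ A,
    (∀ (l : ℂ) (b : B), s (Unitization.inl l + (b : Unitization ℂ B)) =
      Unitization.inl l + (T b : Unitization ℂ A)) ∧
    ∀ (n : ℕ) (K : Fin n → Fin n → Unitization ℂ B), PosK Set.univ K →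
      PosK Set.univ fun i j => s (K i j)

/-- NUC. Surjections onto nuclear algebras have approximate liftings (uses CPK, LFP, UCE, BND).
Proof. Given a finite `S ⊆ B⁺` and `ε`; let `S₀ ⊆ B` be the second coordinates. `φ`, `ψ` from `Nuc` for `S₀`, `ε`; `ψ'` from LFP; `T = ψ' ∘ φ`. It preserves `PosK` (CPK for `φ`); `‖ψ' x‖ ≤ 2 ‖x‖` (BND-type estimate: `ψ'` is positive with `‖ψ' 1‖ ≤ 1`; for `0 ≤ x`, `‖ψ' x‖ ≤ ‖x‖`, since `x ≤ ‖x‖ 1`), `‖φ b‖ ≤ ‖b‖`, so `‖T b‖ ≤ 2 ‖b‖`, and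
`‖T (star e * e)‖ ≤ ‖φ (star e * e)‖ ≤ 1`. UCE: `s`. LocLift with `E = ⊤` (`s` restricted), `s 1 = 1`; for `x = (l, b) ∈ S`: `π⁺ (s x) - x = π (T b) - b = ψ (φ b) - b`. (The norm of `B → B⁺` is isometric.) -/
def S_NUC : Prop := ∀ (A B : Type) [NonUnitalCStarAlgebra A] [NonUnitalCStarAlgebra B]
  (π : A →⋆ₙₐ[ℂ] B), Function.Surjective π → Nuc B →
  LocLift (Unitization.starMap π : Unitization ℂ A →⋆ₐ[ℂ] Unitization ℂ B)

end Pool.Agent.Helper53.AE
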