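import Pool.Agent.Helper53.AE.GoalsA

/-!
# Packet AE-MU1 (MP_8130e1_an): matrix units
-/

set_option autoImplicit false

open scoped ComplexOrder Topology
open Filter TopologicalSpace

namespace Pool.Agent.Helper53.AE.MU1

theorem pos_of {N : Type} [NonUnitalCStarAlgebra N] {p w : N} (hp : Pj p) {l : ℂ}
    (h : star w * w = l • p) (hw : w ≠ 0) : ∃ s : ℝ, 0 < s ∧ l = s := by
  letI := CStarAlgebra.spectralOrder N
  haveI := CStarAlgebra.spectralOrderedRing N
  have hww : star w * w ≠ 0 := fun h0 => hw (CStarRing.star_mul_self_eq_zero_iff _ |>.1 h0)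
  have hp0 : p ≠ 0 := by
    rintro rfl
    rw [smul_zero] at h
    exact hww h
  have hl : star l = l := by
    have h1 := congrArg star h
    rw [star_mul, star_star, h, star_smul, hp.1] at h1
    have h2 : (l - star l) • p = 0 := by rw [sub_smul, ← h1, sub_self]
    exact (sub_eq_zero.1 ((smul_eq_zero.1 h2).resolve_right hp0)).symm
  have hlr : l = (l.re : ℂ) := (Complex.conj_eq_iff_re.1 hl).symm
  refine ⟨l.re, ?_, hlr⟩
  by_contra hc
  push Not at hc
  have h1 : 0 ≤ star w * w := star_mul_self_nonneg w
  have h2 : 0 ≤ star (((Real.sqrt (-l.re) : ℝ) : ℂ) • p) * (((Real.sqrt (-l.re) : ℝ) : ℂ) • p) :=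
    star_mul_self_nonneg _
  have h3 : star (((Real.sqrt (-l.re) : ℝ) : ℂ) • p) * (((Real.sqrt (-l.re) : ℝ) : ℂ) • p) =
      -(star w * w) := by
    rw [star_smul, hp.1, smul_mul_smul_comm, hp.2, h]
    have h4 : star (((Real.sqrt (-l.re) : ℝ) : ℂ)) * ((Real.sqrt (-l.re) : ℝ) : ℂ) = -l := by
      have h5 : star (((Real.sqrt (-l.re) : ℝ) : ℂ)) = ((Real.sqrt (-l.re) : ℝ) : ℂ) :=
        Complex.conj_ofReal _
      rw [h5, ← Complex.ofReal_mul, Real.mul_self_sqrt (by linarith)]
      rw [hlr]
      simp
    rw [h4, neg_smul]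
  rw [h3] at h2
  exact hww (le_antisymm (neg_nonneg.1 h2) h1)

theorem t (hMPR : S_MPR) : S_MU1 := by
  classical
  intro N _ F hF
  obtain ⟨m, p, hp, horth, hunit, hmin⟩ := hMPR N F hF
  let rel : Fin m → Fin m → Prop := fun x y => ∃ a ∈ F, p x * a * p y ≠ 0
  have hrefl : ∀ x, rel x x := fun x => ⟨p x, (hp x).1, by
    rw [(hp x).2.1.2, (hp x).2.1.2]
    exact (hp x).2.2⟩
  have hsymm : ∀ x y, rel x y → rel y x := by
    rintro x y ⟨a, ha, h0⟩
    refine ⟨star a, star_mem ha, fun hc => h0 ?_⟩
    have := congrArg star hc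
    rwa [star_mul, star_mul, star_star, (hp x).2.1.1, (hp y).2.1.1, star_zero, ← mul_assoc] at this
  have htrans : ∀ x y z, rel x y → rel y z → rel x z := by
    rintro x y z ⟨a, ha, ha0⟩ ⟨c, hc, hc0⟩
    refine ⟨a * p y * c, mul_mem (mul_mem ha (hp y).1) hc, fun h0 => hc0 ?_⟩
    set w : N := p x * a * p y with hw
    obtain ⟨l, hl⟩ := hmin y (star a * p x * a) (mul_mem (mul_mem (star_mem ha) (hp x).1) ha)
    have h1 : star w * w = l • p y := by
      rw [← hl, hw]
      simp only [star_mul, (hp x).2.1.1, (hp y).2.1.1]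
      rw [show p y * (star a * p x) * (p x * a * p y) = p y * (star a * (p x * p x) * a) * p y by
        simp only [mul_assoc], (hp x).2.1.2]
    have hl0 : l ≠ 0 := by
      rintro rfl
      rw [zero_smul] at h1
      exact ha0 (CStarRing.star_mul_self_eq_zero_iff _ |>.1 h1)
    have h2 : w * (p y * c * p z) = 0 := by
      rw [hw]
      rw [show p x * a * p y * (p y * c * p z) = p x * a * (p y * p y) * c * p z by
        simp only [mul_assoc], (hp y).2.1.2]
      rw [show p x * a * p y * c * p z = p x * (a * p y * c) * p z by simp only [mul_assoc]]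
      exact h0
    have h3 : l • (p y * c * p z) = 0 := by
      have h4 : star w * (w * (p y * c * p z)) = l • (p y * c * p z) := by
        rw [← mul_assoc, h1, smul_mul_assoc]
        rw [show p y * (p y * c * p z) = (p y * p y) * c * p z by simp only [mul_assoc],
          (hp y).2.1.2]
      rw [← h4, h2, mul_zero]
    exact (smul_eq_zero.1 h3).resolve_left hl0
  let T : Fin m → Finset (Fin m) := fun x => Finset.univ.filter fun y => rel y x
  have hT : ∀ x, (T x).Nonempty := fun x => ⟨x, by simp [T, hrefl]⟩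
  let b : Fin m → Fin m := fun x => (T x).min' (hT x)
  have hb1 : ∀ x, rel (b x) x := fun x => by
    have := Finset.min'_mem (T x) (hT x)
    exact (Finset.mem_filter.1 this).2
  have hb2 : ∀ x y, rel x y → b x = b y := by
    intro x y hxy
    have hTT : T x = T y := by
      ext z
      simp only [T, Finset.mem_filter, Finset.mem_univ, true_and]
      exact ⟨fun h => htrans z x y h hxy, fun h => htrans z y x h (hsymm x y hxy)⟩
    simp only [b, hTT]
  have hb3 : ∀ x, b (b x) = b x := fun x => hb2 _ _ (hb1 x)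
  have hb4 : ∀ x y, b x = b y → rel x y := fun x y h =>
    htrans x (b x) y (hsymm _ _ (hb1 x)) (by rw [h]; exact hb1 y)
  -- partial isometries
  have hv : ∀ x, ∃ v ∈ F, p x * v = v ∧ v * p (b x) = v ∧ star v * v = p (b x) ∧
      v * star v = p x := by
    intro x
    obtain ⟨a, ha, ha0⟩ := hsymm _ _ (hb1 x)
    set w : N := p x * a * p (b x) with hw
    have hwF : w ∈ F := mul_mem (mul_mem (hp x).1 ha) (hp _).1
    have hw1 : p x * w = w := by rw [hw, ← mul_assoc, ← mul_assoc, (hp x).2.1.2]
    have hw2 : w * p (b x) = w := by rw [hw, mul_assoc, (hp (b x)).2.1.2]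
    obtain ⟨l, hl⟩ := hmin (b x) (star w * w) (mul_mem (star_mem hwF) hwF)
    have h1 : star w * w = l • p (b x) := by
      rw [← hl]
      have h2 : p (b x) * star w = star w := by
        have := congrArg star hw2
        rwa [star_mul, (hp _).2.1.1] at this
      rw [← mul_assoc (p (b x)), h2, mul_assoc, hw2]
    obtain ⟨s, hs, rfl⟩ := pos_of (hp (b x)).2.1 h1 ha0
    have hsc : star (((Real.sqrt s)⁻¹ : ℝ) : ℂ) * (((Real.sqrt s)⁻¹ : ℝ) : ℂ) * (s : ℂ) = 1 := by
      have h5 : star ((((Real.sqrt s)⁻¹ : ℝ) : ℂ)) = (((Real.sqrt s)⁻¹ : ℝ) : ℂ) :=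
        Complex.conj_ofReal _
      rw [h5, ← Complex.ofReal_mul, ← Complex.ofReal_mul]
      have h6 := Real.mul_self_sqrt hs.le
      have h7 := (Real.sqrt_pos.2 hs).ne'
      have h8 : (Real.sqrt s)⁻¹ * (Real.sqrt s)⁻¹ * s = 1 := by
        field_simp
        nlinarith
      rw [h8, Complex.ofReal_one]
    set v : N := (((Real.sqrt s)⁻¹ : ℝ) : ℂ) • w with hvdef
    have hvF : v ∈ F := SMulMemClass.smul_mem _ hwF
    have hv1 : p x * v = v := by rw [hvdef, mul_smul_comm, hw1]
    have hv2 : v * p (b x) = v := by rw [hvdef, smul_mul_assoc, hw2]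
    have hv3 : star v * v = p (b x) := by
      rw [hvdef, star_smul, smul_mul_smul_comm, h1, smul_smul, hsc, one_smul]
    refine ⟨v, hvF, hv1, hv2, hv3, ?_⟩
    obtain ⟨μ, hμ⟩ := hmin x (v * star v) (mul_mem hvF (star_mem hvF))
    have h9 : v * star v = μ • p x := by
      rw [← hμ]
      have h2 : star v * p x = star v := by
        have := congrArg star hv1
        rwa [star_mul, (hp _).2.1.1] at this
      rw [← mul_assoc, hv1, mul_assoc, h2]
    have h10 : v * star v * (v * star v) = v * star v := by
      rw [mul_assoc, ← mul_assoc (star v), hv3, ← mul_assoc, hv2]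
    have h11 : μ * μ = μ := by
      rw [h9, smul_mul_smul_comm, (hp x).2.1.2] at h10
      have : (μ * μ - μ) • p x = 0 := by rw [sub_smul, h10, sub_self]
      exact sub_eq_zero.1 ((smul_eq_zero.1 this).resolve_right (hp x).2.2)
    have h12 : μ ≠ 0 := by
      rintro rfl
      rw [zero_smul] at h9
      have : star v = 0 := CStarRing.star_mul_self_eq_zero_iff (star v) |>.1 (by
        rw [star_star]; exact h9)
      rw [this, zero_mul] at hv3
      exact (hp (b x)).2.2 hv3.symm
    have h13 : μ = 1 := by
      have := mul_left_cancel₀ h12 (h11.trans (mul_one μ).symm)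
      exact this
    rw [h9, h13, one_smul]
  choose v hvF hv1 hv2 hv3 hv4 using hv
  have hv5 : ∀ x, star (v x) * p x = star (v x) := fun x => by
    have := congrArg star (hv1 x)
    rwa [star_mul, (hp _).2.1.1] at this
  have hv6 : ∀ x, p (b x) * star (v x) = star (v x) := fun x => by
    have := congrArg star (hv2 x)
    rwa [star_mul, (hp _).2.1.1] at this
  let e : Fin m → Fin m → N := fun x y => if b x = b y then v x * star (v y) else 0
  have he1 : ∀ x y, b x = b y → e x y = v x * star (v y) := fun x y h => if_pos h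
  have he0 : ∀ x y, b x ≠ b y → e x y = 0 := fun x y h => if_neg h
  have heF : ∀ x y, e x y ∈ F := by
    intro x y
    by_cases h : b x = b y
    · rw [he1 x y h]
      exact mul_mem (hvF x) (star_mem (hvF y))
    · rw [he0 x y h]
      exact zero_mem F
  have hexx : ∀ x, e x x = p x := fun x => by rw [he1 x x rfl, hv4]
  have hmus : MUs b e := by
    refine ⟨hb3, he0, fun x y => ?_, fun x y z hxy hyz => ?_, fun x y z w hyz => ?_, fun x => ?_⟩
    · by_cases h : b x = b y
      · rw [he1 x y h, he1 y x h.symm, star_mul, star_star]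
      · rw [he0 x y h, he0 y x (Ne.symm h), star_zero]
    · rw [he1 x y hxy, he1 y z hyz, he1 x z (hxy.trans hyz), mul_assoc, ← mul_assoc (star (v y)),
        hv3, ← hxy, ← mul_assoc, hv2]
    · by_cases h : b x = b y
      · by_cases h' : b z = b w
        · rw [he1 x y h, he1 z w h', mul_assoc, ← mul_assoc (star (v y)), ← hv5 y,
            mul_assoc (star (v y)), ← hv1 z, ← mul_assoc (p y), horth y z hyz, zero_mul, mul_zero,
            zero_mul, mul_zero]
        · rw [he0 z w h', mul_zero]
      · rw [he0 x y h, zero_mul]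
    · rw [hexx]
      exact (hp x).2.2
  have hspan : ∀ a ∈ F, a ∈ spn e := by
    intro a ha
    have h1 : a = ∑ x, ∑ y, p x * a * p y := by
      have h2 : (∑ x, p x) * a * ∑ y, p y = a := by rw [(hunit a ha).1, (hunit a ha).2]
      refine h2.symm.trans ?_
      rw [Finset.sum_mul, Finset.sum_mul]
      refine Finset.sum_congr rfl fun x _ => ?_
      rw [Finset.mul_sum]
    rw [h1]
    refine Submodule.sum_mem _ fun x _ => Submodule.sum_mem _ fun y _ => ?_
    by_cases h : b x = b y
    · obtain ⟨μ, hμ⟩ := hmin (b x) (star (v x) * a * v y)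
        (mul_mem (mul_mem (star_mem (hvF x)) ha) (hvF y))
      have h3 : star (v x) * a * v y = μ • p (b x) := by
        rw [← hμ]
        have h4 : v y * p (b x) = v y := by rw [h, hv2]
        rw [show p (b x) * (star (v x) * a * v y) * p (b x) =
          (p (b x) * star (v x)) * a * (v y * p (b x)) by simp only [mul_assoc], hv6, h4]
      have h5 : p x * a * p y = μ • e x y := by
        rw [he1 x y h, ← hv4 x, ← hv4 y]
        rw [show v x * star (v x) * a * (v y * star (v y)) =
          v x * (star (v x) * a * v y) * star (v y) by simp only [mul_assoc], h3, mul_smul_comm,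
          hv2, smul_mul_assoc]
      rw [h5]
      exact Submodule.smul_mem _ _ (Submodule.subset_span ⟨(x, y), rfl⟩)
    · have h6 : p x * a * p y = 0 := by
        by_contra hne
        exact h (hb2 x y ⟨a, ha, hne⟩)
      rw [h6]
      exact Submodule.zero_mem _
  refine ⟨m, b, e, hmus, fun a => ⟨hspan a, fun ha => ?_⟩, fun a ha => ?_⟩
  · have hle : spn e ≤ F.toNonUnitalSubalgebra.toSubmodule := by
      refine Submodule.span_le.2 ?_
      rintro _ ⟨q, rfl⟩
      exact heF q.1 q.2
    exact hle ha
  · simp only [hexx]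
    exact hunit a ha

end Pool.Agent.Helper53.AE.MU1
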