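import Pool.Agent.Helper53.AE.GoalsD

/-!
# Project AE (MP_8130e1_an): reduction of the main theorem to unital algebras
-/

set_option autoImplicit false

open scoped ComplexOrder Topology
open Filter TopologicalSpace

namespace Pool.Agent.Helper53.AE

theorem sep_unitization {A : Type} [NonUnitalCStarAlgebra A] [SeparableSpace A] :
    SeparableSpace (Unitization ℂ A) := by
  have h : DenseRange (fun x : ℂ × A => (Unitization.inl x.1 + (x.2 : Unitization ℂ A))) := by
    have : Function.Surjective
        (fun x : ℂ × A => (Unitization.inl x.1 + (x.2 : Unitization ℂ A))) := by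
      intro y
      refine ⟨(y.fst, y.snd), ?_⟩
      exact Unitization.inl_fst_add_inr_snd_eq y
    exact this.denseRange
  have hc : Continuous (fun x : ℂ × A => (Unitization.inl x.1 + (x.2 : Unitization ℂ A))) := by
    have h1 : Continuous (fun x : ℂ => (Unitization.inl x : Unitization ℂ A)) := by
      have : (fun x : ℂ => (Unitization.inl x : Unitization ℂ A)) =
          fun x : ℂ => x • (1 : Unitization ℂ A) := by
        ext x
        · simp
        · simp
      rw [this]
      fun_prop
    have h2 : Continuous (fun x : A => (x : Unitization ℂ A)) :=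
      (Unitization.isometry_inr (𝕜 := ℂ) (A := A)).continuous
    exact (h1.comp continuous_fst).add (h2.comp continuous_snd)
  exact h.separableSpace hc

theorem main_of (hCOR : S_COR) (hUTB : S_UTB) : S_MAIN := by
  intro J A B _ _ _ _ u π hu hker hL hJ hB
  obtain ⟨C, iC, ι, hC, h1, hι⟩ := hUTB B hB
  letI := iC
  haveI : SeparableSpace (Unitization ℂ A) := sep_unitization
  let u' : J →⋆ₙₐ[ℂ] Unitization ℂ A := (Unitization.inrNonUnitalStarAlgHom ℂ A).comp u
  have hu' : ∀ j, u' j = (u j : Unitization ℂ A) := fun _ => rfl
  have key : AFEmb (Unitization ℂ A) := by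
    refine hCOR J (Unitization ℂ A) (Unitization ℂ B) C u' (Unitization.starMap π) ι ?_ ?_ hι hC
      h1 hL hJ
    · intro a b hab
      rw [hu', hu'] at hab
      exact hu (Unitization.inr_injective hab)
    · intro a
      constructor
      · intro h
        have hf : a.fst = 0 := by
          have := congrArg (fun z : Unitization ℂ B => z.fst) h
          simpa [Unitization.algebraMap_eq_inl] using this
        have hs : π a.snd = 0 := by
          have := congrArg (fun z : Unitization ℂ B => z.snd) h
          simpa [Unitization.algebraMap_eq_inl] using this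
        obtain ⟨j, hj⟩ := (hker _).1 hs
        refine ⟨j, ?_⟩
        rw [hu', hj]
        ext
        · simp [hf]
        · simp
      · rintro ⟨j, rfl⟩
        have hs : π (u j) = 0 := (hker _).2 ⟨j, rfl⟩
        rw [hu']
        ext
        · simp
        · simp [hs]
  obtain ⟨G, iG, hG, Ξ, hΞ⟩ := key
  refine ⟨G, iG, hG, Ξ.comp (Unitization.inrNonUnitalStarAlgHom ℂ A), ?_⟩
  intro a b hab
  exact Unitization.inr_injective (hΞ hab)

end Pool.Agent.Helper53.AE
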