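import Pool.Agent.Helper53.AE.GoalsB

/-!
# Packet AE-NRM (MP_8130e1_an)
-/

set_option autoImplicit false

open scoped ComplexOrder Topology
open Filter TopologicalSpace

namespace Pool.Agent.Helper53.AE.NRM

theorem t : S_NRM := by
  intro M _ D hD V h hh hV hn
  haveI := hD.1
  have hs : star h = h := by
    have h1 : h = star V * V - 1 := by rw [hV, add_sub_cancel_left]
    rw [h1]
    simp only [star_sub, star_mul, star_star, star_one]
  have hsa : IsSelfAdjoint h := hs
  let g : ℝ → ℝ := fun t => (Real.sqrt (1 + max t (-1 / 2)))⁻¹ - 1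
  have hpos : ∀ t : ℝ, 0 < 1 + max t (-1 / 2) := fun t => by
    have := le_max_right t (-1 / 2)
    linarith
  have hg : Continuous g := by
    refine Continuous.sub (Continuous.inv₀ (by fun_prop) fun t => ?_) continuous_const
    exact (Real.sqrt_pos.2 (hpos t)).ne'
  have hg0 : g 0 = 0 := by
    show (Real.sqrt (1 + max (0 : ℝ) (-1 / 2)))⁻¹ - 1 = 0
    rw [max_eq_left (by norm_num), add_zero, Real.sqrt_one]
    norm_num
  have hk : cfcₙ g h ∈ D := cfcₙ_mem g hh
  set k : M := cfcₙ g h with hkdef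
  have hks : star k = k := by
    have h2 : IsSelfAdjoint k := cfcₙ_predicate _ h
    exact h2
  have hkc : 1 + k = cfc (fun t => 1 + g t) h := by
    rw [hkdef, cfcₙ_eq_cfc (hf := hg.continuousOn) (hf0 := hg0),
      cfc_add h (fun _ : ℝ => (1 : ℝ)) g (by fun_prop) hg.continuousOn, cfc_const_one ℝ h hsa]
  have hhc : 1 + h = cfc (fun t : ℝ => 1 + t) h := by
    rw [cfc_add h (fun _ : ℝ => (1 : ℝ)) (fun t : ℝ => t) (by fun_prop) (by fun_prop),
      cfc_const_one ℝ h hsa, cfc_id' ℝ h hsa]
  have hg1 : Continuous fun t => 1 + g t := continuous_const.add hg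
  have hmain : (1 + k) * (1 + h) * (1 + k) = 1 := by
    rw [hkc, hhc, ← cfc_mul (fun t => 1 + g t) (fun t : ℝ => 1 + t) h hg1.continuousOn
      (by fun_prop), ← cfc_mul (fun t => (1 + g t) * (1 + t)) (fun t => 1 + g t) h
      (hg1.continuousOn.mul (by fun_prop)) hg1.continuousOn, ← cfc_const_one ℝ h hsa]
    refine cfc_congr fun t ht => ?_
    have h3 : ‖t‖ ≤ ‖h‖ := by
      have h4 := norm_apply_le_norm_cfc (fun x : ℝ => x) h ht (by fun_prop) hsa
      rwa [cfc_id' ℝ h hsa] at h4
    rw [Real.norm_eq_abs] at h3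
    have h5 := (abs_le.1 h3).1
    have h6 : max t (-1 / 2) = t := max_eq_left (by linarith)
    show (1 + ((Real.sqrt (1 + max t (-1 / 2)))⁻¹ - 1)) * (1 + t) *
      (1 + ((Real.sqrt (1 + max t (-1 / 2)))⁻¹ - 1)) = 1
    rw [h6]
    have h7 : 0 < 1 + t := by linarith
    have h8 := Real.mul_self_sqrt h7.le
    have h9 := (Real.sqrt_pos.2 h7).ne'
    have h10 : (1 + ((Real.sqrt (1 + t))⁻¹ - 1)) = (Real.sqrt (1 + t))⁻¹ := by ring
    rw [h10]
    field_simp
    nlinarith
  have hzs : star (1 + k) = 1 + k := by rw [star_add, star_one, hks]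
  refine ⟨V * (1 + k), ?_, fun y x hyx => ?_⟩
  · rw [star_mul, hzs, mul_assoc, ← mul_assoc (star V), hV, ← mul_assoc]
    exact hmain
  · have e1 : star (V * (1 + k)) * y * (V * (1 + k)) - x =
        (star V * y * V - x) + (k * (star V * y * V) + (star V * y * V) * k +
          k * (star V * y * V) * k) := by
      rw [star_mul, hzs]
      simp only [mul_add, add_mul, mul_one, one_mul, mul_assoc]
      abel
    rw [e1]
    refine D.add_mem hyx (D.add_mem (D.add_mem (hD.2 _ _ hk).2 (hD.2 _ _ hk).1) ?_)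
    exact (hD.2 _ _ hk).1

end Pool.Agent.Helper53.AE.NRM
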