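import Pool.Agent.Helper53.AE.GoalsA
import Pool.Agent.Helper82.BD.AfA

/-!
# Packet AE-PCL (MP_8130e1_an)

Adapted from `Helper82/BD/AfA.lean`.
-/

set_option autoImplicit false

open scoped ComplexOrder Topology
open Filter TopologicalSpace

namespace Pool.Agent.Helper53.AE.PCL

open Pool.Agent.Helper82.BD

theorem t : S_PCL := by
  intro A _ p q hp hq hpq
  obtain ⟨hp1, hp2⟩ := hp
  obtain ⟨hq1, hq2⟩ := hq
  have h : ‖p - q‖ < 1 := by linarith
  letI := CStarAlgebra.spectralOrder A
  haveI := CStarAlgebra.spectralOrderedRing A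
  set w : A := q * p + (1 - q) * (1 - p) with hw
  set m : A := 1 - (p - q) * (p - q) with hm
  have e3 : star w = p * q + (1 - p) * (1 - q) := by
    rw [hw]
    simp only [star_add, star_sub, star_mul, star_one, hp1, hq1]
  have k1 : star w * w = m := by
    rw [e3, hw, hm, corner_id p q hp2 hq2]
  have k2 : w * star w = m := by
    rw [e3, hw, corner_id q p hq2 hp2, hm]
    congr 1
    noncomm_ring
  have hwm : w * m = m * w := by
    rw [← k1, ← mul_assoc, k2, k1]
  have hms : star m = m := by rw [← k1, star_mul, star_star]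
  have hwp : w * p = q * w := by
    have h1 : (1 - p) * p = 0 := by rw [sub_mul, one_mul, hp2, sub_self]
    have h2 : q * (1 - q) = 0 := by rw [mul_sub, mul_one, hq2, sub_self]
    rw [hw, add_mul, mul_add, mul_assoc (1 - q), h1, mul_zero, add_zero, ← mul_assoc q (1 - q), h2,
      zero_mul, add_zero, mul_assoc, hp2, ← mul_assoc, hq2]
  have hmp : m * p = p * m := by
    have h1 : m * p = p - (p * (p * p) - q * (p * p) - p * (q * p) + (q * q) * p) := by
      rw [hm]
      simp only [sub_mul, mul_sub, one_mul, mul_assoc]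
      abel
    have h2 : p * m = p - ((p * p) * p - (p * p) * q - p * (q * p) + p * (q * q)) := by
      rw [hm]
      simp only [sub_mul, mul_sub, mul_one, mul_assoc]
      abel
    rw [h1, h2, hp2, hq2, hp2]
    abel
  -- the inverse square root
  have hu : IsUnit m := by
    have h1 : ‖(p - q) * (p - q)‖ < 1 := by
      refine (norm_mul_le _ _).trans_lt ?_
      nlinarith [norm_nonneg (p - q)]
    exact ⟨Units.oneSub _ h1, rfl⟩
  have hm0 : 0 ≤ m := by
    rw [← k1]
    exact star_mul_self_nonneg w
  have hpos : ∀ x ∈ spectrum ℝ m, 0 < x := by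
    intro x hx
    have h1 : 0 ≤ x := spectrum_nonneg_of_nonneg hm0 hx
    rcases h1.lt_or_eq with h2 | h2
    · exact h2
    · exfalso
      rw [← h2] at hx
      exact (spectrum.zero_notMem_iff ℝ).2 hu hx
  have hsa : IsSelfAdjoint m := hms
  set r : A := cfc (fun x : ℝ => (Real.sqrt x)⁻¹) m with hr
  have hcont : ContinuousOn (fun x : ℝ => (Real.sqrt x)⁻¹) (spectrum ℝ m) := by
    refine ContinuousOn.inv₀ (Real.continuous_sqrt.continuousOn) fun x hx => ?_
    exact (Real.sqrt_pos.2 (hpos x hx)).ne'
  have hrs : star r = r := by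
    have h1 : IsSelfAdjoint r := cfc_predicate _ m
    exact h1
  have hrrm : r * r * m = 1 := by
    have h1 : r * r * m = cfc (fun x : ℝ => (Real.sqrt x)⁻¹ * (Real.sqrt x)⁻¹ * x) m := by
      rw [cfc_mul (fun x : ℝ => (Real.sqrt x)⁻¹ * (Real.sqrt x)⁻¹) (fun x : ℝ => x) m
        (hcont.mul hcont) continuousOn_id, cfc_mul (fun x : ℝ => (Real.sqrt x)⁻¹)
        (fun x : ℝ => (Real.sqrt x)⁻¹) m hcont hcont, cfc_id' ℝ m hsa]
    rw [h1]
    have h2 : cfc (fun x : ℝ => (Real.sqrt x)⁻¹ * (Real.sqrt x)⁻¹ * x) m =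
        cfc (fun _ : ℝ => (1 : ℝ)) m := by
      refine cfc_congr fun x hx => ?_
      have h3 := hpos x hx
      have h4 := Real.mul_self_sqrt h3.le
      have h5 := (Real.sqrt_pos.2 h3).ne'
      show (Real.sqrt x)⁻¹ * (Real.sqrt x)⁻¹ * x = 1
      field_simp
      nlinarith
    rw [h2, cfc_const_one ℝ m hsa]
  have hcomm : ∀ b, m * b = b * m → r * b = b * r := fun b hb => by
    have h1 : Commute m b := hb
    exact (h1.cfc_real (fun x : ℝ => (Real.sqrt x)⁻¹)).eq
  have hrm : r * m = m * r := hcomm m rfl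
  have hrw : r * w = w * r := hcomm w hwm.symm
  have hrp : r * p = p * r := hcomm p hmp
  refine ⟨w * r, ?_, ?_, ?_, ?_, fun x hx1 hx2 => ?_⟩
  · rw [star_mul, hrs, mul_assoc r, ← mul_assoc (star w), k1, ← hrm, ← mul_assoc, hrrm]
  · have h1 : w * r * star (w * r) = r * r * (w * star w) := by
      rw [star_mul, hrs, ← hrw]
      rw [mul_assoc r w, ← mul_assoc w r, ← hrw, ← mul_assoc, ← mul_assoc, ← mul_assoc]
    rw [h1, k2, hrrm]
  · rw [mul_assoc, hrp, ← mul_assoc, hwp, mul_assoc]
  · -- the norm
    have n1 : ‖w - 1‖ ≤ ‖p - q‖ := by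
      have g1 : w - 1 = (q - (1 - q)) * (p - q) := by
        have g2 : w - 1 = 2 • (q * p) - q - p := by
          rw [hw]
          noncomm_ring
        have g3 : (q - (1 - q)) * (p - q) = 2 • (q * p) - q - p + (q + q - 2 • (q * q)) := by
          noncomm_ring
        rw [g2, g3, hq2]
        abel
      have g4 : star (q - (1 - q)) * (q - (1 - q)) = 1 := by
        have g5 : star (q - (1 - q)) = q - (1 - q) := by
          simp only [star_sub, star_one, hq1]
        have g6 : (q - (1 - q)) * (q - (1 - q)) = 1 + (4 • (q * q) - 4 • q) := by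
          noncomm_ring
        rw [g5, g6, hq2, sub_self, add_zero]
      have g7 : ‖q - (1 - q)‖ ≤ 1 := by
        by_cases hnt : Nontrivial A
        · have g8 : ‖q - (1 - q)‖ * ‖q - (1 - q)‖ = 1 := by
            rw [← CStarRing.norm_star_mul_self, g4, CStarRing.norm_one]
          nlinarith [norm_nonneg (q - (1 - q))]
        · rw [not_nontrivial_iff_subsingleton] at hnt
          rw [Subsingleton.elim (q - (1 - q)) 0, norm_zero]
          norm_num
      rw [g1]
      refine (norm_mul_le _ _).trans ?_
      nlinarith [norm_nonneg (p - q)]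
    have n2 : ∀ x ∈ spectrum ℝ m, |x - 1| ≤ ‖p - q‖ * ‖p - q‖ := by
      intro x hx
      have g1 := norm_apply_le_norm_cfc (fun x : ℝ => x - 1) m hx (by fun_prop) hsa
      rw [cfc_sub (fun x : ℝ => x) (fun _ : ℝ => (1 : ℝ)) m, cfc_id' ℝ m hsa,
        cfc_const_one ℝ m hsa] at g1
      have g2 : m - 1 = -((p - q) * (p - q)) := by
        rw [hm]
        abel
      rw [g2, norm_neg] at g1
      exact g1.trans (norm_mul_le _ _)
    have hd0 := norm_nonneg (p - q)
    have n3 : ‖r - 1‖ ≤ 2 * (‖p - q‖ * ‖p - q‖) := by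
      have g1 : r - 1 = cfc (fun x : ℝ => (Real.sqrt x)⁻¹ - 1) m := by
        rw [cfc_sub (fun x : ℝ => (Real.sqrt x)⁻¹) (fun _ : ℝ => (1 : ℝ)) m hcont,
          cfc_const_one ℝ m hsa]
      rw [g1]
      refine norm_cfc_le (by positivity) fun x hx => ?_
      have g2 := n2 x hx
      have g3 : (15 : ℝ) / 16 ≤ x := by
        have := (abs_le.1 g2).1
        nlinarith
      have g4 : (1 / 2 : ℝ) ≤ Real.sqrt x := by
        rw [show (1 / 2 : ℝ) = Real.sqrt (1 / 4) by
          rw [show (1 / 4 : ℝ) = (1 / 2) ^ 2 by norm_num, Real.sqrt_sq (by norm_num)]]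
        exact Real.sqrt_le_sqrt (by linarith)
      have g5 := Real.mul_self_sqrt (show 0 ≤ x by linarith)
      have g6 : (Real.sqrt x)⁻¹ - 1 = (1 - x) / (Real.sqrt x * (1 + Real.sqrt x)) := by
        have : Real.sqrt x ≠ 0 := by positivity
        field_simp
        nlinarith
      rw [g6, Real.norm_eq_abs, abs_div, abs_sub_comm 1 x]
      have g7 : (1 / 2 : ℝ) ≤ |Real.sqrt x * (1 + Real.sqrt x)| := by
        rw [abs_of_nonneg (by positivity)]
        nlinarith
      rw [div_le_iff₀ (by linarith)]
      nlinarith [abs_nonneg (x - 1)]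
    have n4 : ‖w‖ ≤ 5 / 4 := by
      have g1 : ‖w‖ * ‖w‖ = ‖m‖ := by rw [← CStarRing.norm_star_mul_self, k1]
      have g2 : ‖m‖ ≤ 17 / 16 := by
        have g3 : ‖m‖ ≤ ‖(1 : A)‖ + ‖(p - q) * (p - q)‖ := norm_sub_le _ _
        have g4 : ‖(1 : A)‖ ≤ 1 := by
          by_cases hnt : Nontrivial A
          · rw [CStarRing.norm_one]
          · rw [not_nontrivial_iff_subsingleton] at hnt
            rw [Subsingleton.elim (1 : A) 0, norm_zero]
            norm_num
        have g5 := norm_mul_le (p - q) (p - q)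
        nlinarith
      by_contra hcon
      push Not at hcon
      nlinarith
    have n5 : w * r - 1 = w * (r - 1) + (w - 1) := by
      rw [mul_sub, mul_one]
      abel
    rw [n5]
    refine (norm_add_le _ _).trans ?_
    have n6 := norm_mul_le w (r - 1)
    have n7 : ‖w‖ * ‖r - 1‖ ≤ 5 / 4 * (2 * (‖p - q‖ * ‖p - q‖)) :=
      mul_le_mul n4 n3 (norm_nonneg _) (by norm_num)
    nlinarith
  · have h1 : x * w = w * x := by
      have h2 : (1 - q) * (1 - p) = 1 - p - q + q * p := by noncomm_ring
      have h3 : x * (q * p) = q * p * x := by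
        rw [← mul_assoc, hx2, mul_assoc, hx1, mul_assoc]
      rw [hw, h2, mul_add, add_mul, mul_add, add_mul, mul_sub, mul_sub, sub_mul, sub_mul, h3, hx1,
        hx2, mul_one, one_mul]
    have h4 : m * x = x * m := by
      have h5 : star x * w = w * star x := by
        have g1 : star x * p = p * star x := by
          have := congrArg star hx1
          rw [star_mul, star_mul, hp1] at this
          exact this.symm
        have g2 : star x * q = q * star x := by
          have := congrArg star hx2
          rw [star_mul, star_mul, hq1] at this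
          exact this.symm
        have h2 : (1 - q) * (1 - p) = 1 - p - q + q * p := by noncomm_ring
        have h3 : star x * (q * p) = q * p * star x := by
          rw [← mul_assoc, g2, mul_assoc, g1, mul_assoc]
        rw [hw, h2, mul_add, add_mul, mul_add, add_mul, mul_sub, mul_sub, sub_mul, sub_mul, h3, g1,
          g2, mul_one, one_mul]
      have h6 : x * star w = star w * x := by
        have := congrArg star h5
        rw [star_mul, star_mul, star_star] at this
        exact this.symm
      rw [← k1, mul_assoc, ← h1, ← mul_assoc, ← h6, mul_assoc]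
    rw [← mul_assoc, h1, mul_assoc, ← hcomm x h4, mul_assoc]


end Pool.Agent.Helper53.AE.PCL
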