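import Pool.Agent.Helper53.AE.GoalsB

/-!
# Packets AE-PEX, AE-PSQ (MP_8130e1_an)
-/

set_option autoImplicit false

open scoped ComplexOrder Topology
open Filter TopologicalSpace

namespace Pool.Agent.Helper53.AE.PEX

theorem norm_le_one {M : Type} [CStarAlgebra M] {q : M} (h : Pj q) : ‖q‖ ≤ 1 := by
  have h1 : ‖q‖ * ‖q‖ = ‖q‖ := by
    rw [← CStarRing.norm_star_mul_self, h.1, h.2]
  by_contra hc
  push Not at hc
  nlinarith [norm_nonneg q]

theorem t (hPRX : S_PRX) (hMPR : S_MPR) : S_PEX := by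
  intro M _ D hD hL p hp hpj S ε hS hε
  obtain ⟨F, hF1, hF2, hF3, hF4⟩ := hPRX M D hD hL 1 (fun _ => p) (fun _ => ⟨hp, hpj⟩)
    (fun i j hij => absurd (Subsingleton.elim i j) hij) S (ε / 2) hS (by positivity)
  obtain ⟨m, e, he1, he2, he3, -⟩ := hMPR M F hF1
  have hqF : ∑ x, e x ∈ F := sum_mem fun x _ => (he1 x).1
  have hqs : star (∑ x, e x) = ∑ x, e x := by
    rw [star_sum]
    exact Finset.sum_congr rfl fun x _ => (he1 x).2.1.1
  have hqj : Pj (∑ x, e x) := ⟨hqs, (he3 _ hqF).1⟩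
  have hqn := norm_le_one hqj
  refine ⟨∑ x, e x, hF2 hqF, hqj, (he3 p (hF3 0)).1, fun s hs => ?_⟩
  obtain ⟨y, hy, hys⟩ := hF4 s hs
  constructor
  · have h1 : s - (∑ x, e x) * s = (s - y) - (∑ x, e x) * (s - y) := by
      rw [mul_sub, (he3 y hy).1]
      abel
    rw [h1]
    refine (norm_sub_le _ _).trans_lt ?_
    have h2 := norm_mul_le (∑ x, e x) (s - y)
    nlinarith [norm_nonneg (s - y)]
  · have h1 : s - s * (∑ x, e x) = (s - y) - (s - y) * (∑ x, e x) := by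
      rw [sub_mul, (he3 y hy).2]
      abel
    rw [h1]
    refine (norm_sub_le _ _).trans_lt ?_
    have h2 := norm_mul_le (s - y) (∑ x, e x)
    nlinarith [norm_nonneg (s - y)]

theorem psq (hPEX : S_PEX) : S_PSQ := by
  classical
  intro M _ D hE x
  obtain ⟨t, hts, htc, htd⟩ := hE.sep.exists_countable_dense_subset
  have hne : t.Nonempty := by
    by_contra hn
    rw [Set.not_nonempty_iff_eq_empty] at hn
    have : (0 : M) ∈ closure t := htd D.zero_mem
    simp [hn] at this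
  obtain ⟨d, hd⟩ := htc.exists_eq_range hne
  have hdD : ∀ j, d j ∈ D := fun j => hts (by rw [hd]; exact ⟨j, rfl⟩)
  let Z : Type := {p : M // p ∈ D ∧ Pj p}
  have hst : ∀ (k : ℕ) (p : Z), ∃ q : Z, q.1 * p.1 = p.1 ∧
      (∀ j ≤ k, ‖(1 - q.1) * x j * p.1‖ ≤ (1 / 2) ^ k ∧ ‖p.1 * x j * (1 - q.1)‖ ≤ (1 / 2) ^ k) ∧
      ∀ j ≤ k, ‖d j - q.1 * d j‖ ≤ (1 / 2) ^ k := by
    intro k p
    obtain ⟨q, hq1, hq2, hq3, hq4⟩ := hPEX M D hE.idl hE.laf p.1 p.2.1 p.2.2
      (((Finset.range (k + 1)).image fun j => x j * p.1) ∪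
        (((Finset.range (k + 1)).image fun j => p.1 * x j) ∪ (Finset.range (k + 1)).image d))
      ((1 / 2) ^ k) (by
        intro a ha
        simp only [Finset.mem_union, Finset.mem_image] at ha
        rcases ha with ⟨j, _, rfl⟩ | ⟨j, _, rfl⟩ | ⟨j, _, rfl⟩
        · exact (hE.idl.2 _ _ p.2.1).1
        · exact (hE.idl.2 _ _ p.2.1).2
        · exact hdD j) (by positivity)
    refine ⟨⟨q, hq1, hq2⟩, hq3, fun j hj => ⟨?_, ?_⟩, fun j hj => ?_⟩
    · have := (hq4 (x j * p.1) (Finset.mem_union_left _ (Finset.mem_image.2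
        ⟨j, Finset.mem_range.2 (by omega), rfl⟩))).1
      rw [mul_assoc, sub_mul, one_mul]
      exact this.le
    · have := (hq4 (p.1 * x j) (Finset.mem_union_right _ (Finset.mem_union_left _
        (Finset.mem_image.2 ⟨j, Finset.mem_range.2 (by omega), rfl⟩)))).2
      rw [mul_sub, mul_one]
      exact this.le
    · exact (hq4 (d j) (Finset.mem_union_right _ (Finset.mem_union_right _
        (Finset.mem_image.2 ⟨j, Finset.mem_range.2 (by omega), rfl⟩)))).1.le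
  choose nx hnx1 hnx2 hnx3 using hst
  let G : ℕ → Z := fun n => Nat.rec ⟨0, D.zero_mem, star_zero _, mul_zero _⟩
    (fun n F => nx n F) n
  have hG : ∀ n, G (n + 1) = nx n (G n) := fun n => rfl
  refine ⟨fun n => (G n).1, rfl, fun k => (G k).2, fun k => ?_, fun j k hjk => ?_, fun a ha => ?_⟩
  · exact hnx1 k (G k)
  · exact hnx2 k (G k) j hjk
  · rw [Metric.tendsto_atTop]
    intro ε hε
    obtain ⟨b, hb, hbe⟩ := Metric.mem_closure_iff.1 (htd ha) (ε / 4) (by positivity)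
    rw [hd] at hb
    obtain ⟨j, rfl⟩ := hb
    obtain ⟨m, hm⟩ := exists_pow_lt_of_lt_one (show (0 : ℝ) < ε / 4 by positivity)
      (show (1 / 2 : ℝ) < 1 by norm_num)
    refine ⟨max j m + 1, fun n hn => ?_⟩
    obtain ⟨k, rfl⟩ : ∃ k, n = k + 1 := ⟨n - 1, by omega⟩
    have h1 : ‖d j - (G (k + 1)).1 * d j‖ ≤ (1 / 2) ^ k := by
      rw [hG]
      exact hnx3 k (G k) j (by omega)
    have h2 : (1 / 2 : ℝ) ^ k ≤ (1 / 2) ^ m :=
      pow_le_pow_of_le_one (by norm_num) (by norm_num) (by omega)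
    have h3 : ‖(G (k + 1)).1‖ ≤ 1 := norm_le_one (G (k + 1)).2.2
    rw [dist_eq_norm] at hbe ⊢
    show ‖(G (k + 1)).1 * a - a‖ < ε
    have h4 : (G (k + 1)).1 * a - a = (G (k + 1)).1 * (a - d j) - (a - d j) -
        (d j - (G (k + 1)).1 * d j) := by
      rw [mul_sub]
      abel
    rw [h4]
    refine (norm_sub_le _ _).trans_lt ?_
    have h5 := norm_sub_le ((G (k + 1)).1 * (a - d j)) (a - d j)
    have h6 := norm_mul_le (G (k + 1)).1 (a - d j)
    nlinarith [norm_nonneg (a - d j)]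

end Pool.Agent.Helper53.AE.PEX
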