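import Pool.Agent.Helper53.AE.GoalsA

/-!
# Packet AE-PRJ (MP_8130e1_an)

Adapted from `Helper82/BD/AfB.lean`.
-/

set_option autoImplicit false

open scoped ComplexOrder Topology
open Filter TopologicalSpace

namespace Pool.Agent.Helper53.AE.PRJ

theorem t : S_PRJ := by
  intro A _ C hC c hc hs δ hδ h
  haveI := hC
  have hsa : IsSelfAdjoint c := hs
  let f : ℝ → ℝ := fun x => max 0 (min 1 (2 * x - 1 / 2))
  have hf : Continuous f := by fun_prop
  have hf0 : f 0 = 0 := by
    show max 0 (min 1 (2 * (0 : ℝ) - 1 / 2)) = 0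
    norm_num
  have hfa : ∀ x : ℝ, 3 / 4 ≤ x → f x = 1 := by
    intro x hx
    show max 0 (min 1 (2 * x - 1 / 2)) = 1
    rw [min_eq_left (by linarith), max_eq_right (by norm_num)]
  have hfb : ∀ x : ℝ, x ≤ 1 / 4 → f x = 0 := by
    intro x hx
    show max 0 (min 1 (2 * x - 1 / 2)) = 0
    rw [min_eq_right (by linarith), max_eq_left (by linarith)]
  -- the spectrum
  have h1 : cfcₙ (fun x : ℝ => x * x - x) c = c * c - c := by
    rw [cfcₙ_sub (fun x : ℝ => x * x) (fun x : ℝ => x) c (by fun_prop) (by simp) (by fun_prop)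
      rfl, cfcₙ_mul (fun x : ℝ => x) (fun x : ℝ => x) c (by fun_prop) rfl (by fun_prop) rfl,
      cfcₙ_id' ℝ c hsa]
  have hsp : ∀ x ∈ quasispectrum ℝ c, |x * x - x| ≤ δ := by
    intro x hx
    have h2 := norm_apply_le_norm_cfcₙ (fun x : ℝ => x * x - x) c hx (by fun_prop) (by simp) hsa
    rw [h1] at h2
    exact h2.trans h
  have hsp2 : ∀ x ∈ quasispectrum ℝ c, x ≤ 1 / 4 ∨ 3 / 4 ≤ x := by
    intro x hx
    have h2 := hsp x hx
    rw [abs_le] at h2
    by_contra h3
    push Not at h3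
    nlinarith [h3.1, h3.2, h2.1]
  have hff : ∀ x ∈ quasispectrum ℝ c, f x * f x = f x := by
    intro x hx
    rcases hsp2 x hx with h2 | h2
    · rw [hfb x h2, mul_zero]
    · rw [hfa x h2, mul_one]
  refine ⟨cfcₙ f c, cfcₙ_mem f hc, ⟨?_, ?_⟩, ?_, fun x hx => ?_⟩
  · have h2 : IsSelfAdjoint (cfcₙ f c) := cfcₙ_predicate _ c
    exact h2
  · rw [← cfcₙ_mul f f c hf.continuousOn hf0 hf.continuousOn hf0]
    exact cfcₙ_congr fun x hx => hff x hx
  · have h2 : cfcₙ f c - c = cfcₙ (fun x => f x - x) c := by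
      rw [cfcₙ_sub f (fun x : ℝ => x) c hf.continuousOn hf0 (by fun_prop) rfl, cfcₙ_id' ℝ c hsa]
    rw [h2]
    refine norm_cfcₙ_le fun x hx => ?_
    rw [Real.norm_eq_abs]
    have h3 := hsp x hx
    rcases hsp2 x hx with h4 | h4
    · rw [hfb x h4, zero_sub, abs_neg]
      have h5 : |x * x - x| = |x| * (1 - x) := by
        rw [show x * x - x = -(x * (1 - x)) by ring, abs_neg, abs_mul,
          abs_of_nonneg (show 0 ≤ 1 - x by linarith)]
      rw [h5] at h3
      nlinarith [abs_nonneg x]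
    · rw [hfa x h4]
      have h5 : |x * x - x| = x * |1 - x| := by
        rw [show x * x - x = -(x * (1 - x)) by ring, abs_neg, abs_mul,
          abs_of_nonneg (show 0 ≤ x by linarith)]
      rw [h5] at h3
      nlinarith [abs_nonneg (1 - x)]
  · have h2 : Commute c x := hx.symm
    exact ((h2.cfcₙ_real f).eq).symm

end Pool.Agent.Helper53.AE.PRJ
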