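import Pool.Agent.Helper53.AE.GoalsC

/-!
# Packet AE-QDI (MP_8130e1_an)
-/

set_option autoImplicit false

open scoped ComplexOrder Topology
open Filter TopologicalSpace

namespace Pool.Agent.Helper53.AE.QDI

theorem t : S_QDI := by
  intro A B _ _ π x δ hδ hx
  letI := CStarAlgebra.spectralOrder A
  haveI := CStarAlgebra.spectralOrderedRing A
  letI := CStarAlgebra.spectralOrder B
  haveI := CStarAlgebra.spectralOrderedRing B
  let f : ℝ → ℝ := fun t => δ / max δ (Real.sqrt t)
  have hmx : ∀ t : ℝ, 0 < max δ (Real.sqrt t) := fun t => lt_of_lt_of_le hδ (le_max_left _ _)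
  have hf : Continuous f := by
    refine continuous_const.div (by fun_prop) fun t => (hmx t).ne'
  set a : A := star x * x with ha
  have hasa : IsSelfAdjoint a := by
    rw [ha]
    exact IsSelfAdjoint.star_mul_self x
  have ha0 : 0 ≤ a := star_mul_self_nonneg x
  set c : A := cfc f a with hc
  have hcs : star c = c := by
    have h2 : IsSelfAdjoint c := cfc_predicate _ a
    exact h2
  refine ⟨x - x * c, ?_, ?_⟩
  · have h1 : π c = 1 := by
      have h3 : π a = star (π x) * π x := by rw [ha, map_mul, map_star]
      have h4 : IsSelfAdjoint (π a) := by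
        rw [h3]
        exact IsSelfAdjoint.star_mul_self _
      have h2 : π c = cfc f (π a) := by
        rw [hc]
        exact StarAlgHomClass.map_cfc π f a hf.continuousOn
          (AddMonoidHomClass.continuous_of_bound π 1 fun y => by
            simpa using NonUnitalStarAlgHom.norm_apply_le π y) hasa h4
      rw [h2, ← cfc_const_one ℝ (π a) h4]
      refine cfc_congr fun t ht => ?_
      have h5 : ‖t‖ ≤ ‖π a‖ := by
        have h6 := norm_apply_le_norm_cfc (fun x : ℝ => x) (π a) ht (by fun_prop) h4
        rwa [cfc_id' ℝ (π a) h4] at h6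
      have h7 : ‖π a‖ = ‖π x‖ * ‖π x‖ := by rw [h3, CStarRing.norm_star_mul_self]
      rw [Real.norm_eq_abs, h7] at h5
      have h8 : Real.sqrt t ≤ δ := by
        rw [Real.sqrt_le_left hδ.le]
        nlinarith [le_abs_self t, norm_nonneg (π x)]
      show δ / max δ (Real.sqrt t) = 1
      rw [max_eq_left h8, div_self hδ.ne']
    rw [map_sub, map_mul, h1, mul_one, sub_self]
  · rw [sub_sub_cancel]
    have h1 : ‖x * c‖ * ‖x * c‖ ≤ δ * δ := by
      rw [← CStarRing.norm_star_mul_self, star_mul, hcs]
      have h2 : c * star x * (x * c) = cfc (fun t => f t * t * f t) a := by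
        rw [cfc_mul (fun t => f t * t) f a (hf.continuousOn.mul (by fun_prop)) hf.continuousOn,
          cfc_mul f (fun t : ℝ => t) a hf.continuousOn (by fun_prop), cfc_id' ℝ a hasa, ← hc, ha]
        simp only [mul_assoc]
      rw [h2]
      refine norm_cfc_le (by positivity) fun t ht => ?_
      have h3 : 0 ≤ t := spectrum_nonneg_of_nonneg ha0 ht
      have h4 := Real.mul_self_sqrt h3
      have h5 := le_max_right δ (Real.sqrt t)
      have h6 := hmx t
      have h7 : 0 ≤ f t * t * f t := by
        have : 0 ≤ f t := div_nonneg hδ.le h6.le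
        positivity
      rw [Real.norm_eq_abs, abs_of_nonneg h7]
      show δ / max δ (Real.sqrt t) * t * (δ / max δ (Real.sqrt t)) ≤ δ * δ
      have h8 : δ / max δ (Real.sqrt t) * t * (δ / max δ (Real.sqrt t)) =
          δ * δ * (t / (max δ (Real.sqrt t) * max δ (Real.sqrt t))) := by
        field_simp
      rw [h8]
      have h9 : t / (max δ (Real.sqrt t) * max δ (Real.sqrt t)) ≤ 1 := by
        rw [div_le_one (by positivity)]
        nlinarith [Real.sqrt_nonneg t]
      nlinarith [mul_pos hδ hδ]
    exact abs_le_of_sq_le_sq' (by nlinarith) hδ.le |>.2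

end Pool.Agent.Helper53.AE.QDI
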