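import Pool.Agent.Helper53.AE.GoalsA

/-!
# Packet AE-SGX (MP_8130e1_an)
-/

set_option autoImplicit false

open scoped ComplexOrder Topology
open Filter TopologicalSpace

namespace Pool.Agent.Helper53.AE.SGX

theorem t (hGHX : S_GHX) (hEQV : S_EQV) : S_SGX := by
  intro C M _ _ s₁ s₂ hs h1 F₁ F₂ hf1 hf2 h1F hle σ₁ hσ₁
  obtain ⟨σ', hσ'⟩ := hGHX C M s₁ s₂ hs h1 F₂ hf2 (hle h1F)
  let inc : F₁ →⋆ₙₐ[ℂ] F₂ := NonUnitalStarSubalgebra.inclusion hle
  have hinc : ∀ a : F₁, ((inc a : F₂) : C) = a := fun a => rfl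
  have hg : Good (σ'.comp inc) := by
    refine ⟨fun h => ?_, fun p hp1 hp2 hp3 => ?_⟩
    · have := hσ'.1 (hle h)
      exact this
    · refine hσ'.2 (inc p) ?_ ?_ ?_
      · rw [← map_star, hp1]
      · rw [← map_mul, hp2]
      · intro h0
        apply hp3
        have h2 : ((inc p : F₂) : C) = 0 := by rw [h0]; rfl
        rw [hinc] at h2
        exact Subtype.ext h2
  obtain ⟨U, hU1, hU2, hU⟩ := hEQV C M F₁ hf1 h1F (σ'.comp inc) σ₁ hg hσ₁
  have hmul : ∀ x y : M, U * x * star U * (U * y * star U) = U * (x * y) * star U := by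
    intro x y
    calc U * x * star U * (U * y * star U) = U * x * (star U * U) * y * star U := by
          simp only [mul_assoc]
      _ = U * (x * y) * star U := by rw [hU1, mul_one]; simp only [mul_assoc]
  let σ₂ : F₂ →⋆ₙₐ[ℂ] M :=
    { toFun := fun a => U * σ' a * star U
      map_smul' := fun c a => by
        simp only [map_smul, mul_smul_comm, smul_mul_assoc, MonoidHom.id_apply]
      map_zero' := by simp
      map_add' := fun a b => by rw [map_add, mul_add, add_mul]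
      map_mul' := fun a b => by rw [hmul, map_mul]
      map_star' := fun a => by
        rw [map_star, star_mul, star_mul, star_star, mul_assoc] }
  have hσ₂ : ∀ a, σ₂ a = U * σ' a * star U := fun _ => rfl
  refine ⟨σ₂, ⟨fun h => ?_, fun p hp1 hp2 hp3 => ?_⟩, fun a ha1 ha2 => ?_⟩
  · rw [hσ₂, hσ'.1 h, mul_one, hU2]
  · obtain ⟨t, ht1, ht2⟩ := hσ'.2 p hp1 hp2 hp3
    refine ⟨U * t, ?_, ?_⟩
    · rw [star_mul, mul_assoc, ← mul_assoc (star U), hU1, one_mul, ht1]
    · rw [hσ₂, star_mul, ← ht2]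
      simp only [mul_assoc]
  · rw [hσ₂]
    exact hU ⟨a, ha1⟩

end Pool.Agent.Helper53.AE.SGX
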