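import Pool.Agent.Helper53.AE.GoalsA
import Pool.Agent.Helper52.CAR.EXT

/-!
# Packet AE-SIG (MP_8130e1_an)
-/

set_option autoImplicit false

open scoped ComplexOrder Topology
open Filter TopologicalSpace

namespace Pool.Agent.Helper53.AE.SIG

theorem t (hGHX : S_GHX) (hSGX : S_SGX) : S_SIG := by
  classical
  intro C M _ _ s₁ s₂ hs h1 F hF
  obtain ⟨hF1, hF2⟩ := hF
  let Z : ℕ → Type := fun k => {σ : F k →⋆ₙₐ[ℂ] M // Good σ}
  have hst : ∀ (k : ℕ) (σ : Z k), ∃ σ' : Z (k + 1), ∀ a (h₁ : a ∈ F k) (h₂ : a ∈ F (k + 1)),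
      σ'.1 ⟨a, h₂⟩ = σ.1 ⟨a, h₁⟩ := by
    intro k σ
    obtain ⟨σ', hg, he⟩ := hSGX C M s₁ s₂ hs h1 (F k) (F (k + 1)) (hF1 k).1 (hF1 (k + 1)).1
      (hF1 k).2.1 (hF1 k).2.2 σ.1 σ.2
    exact ⟨⟨σ', hg⟩, he⟩
  choose nx hnx using hst
  obtain ⟨σ0, hσ0⟩ := hGHX C M s₁ s₂ hs h1 (F 0) (hF1 0).1 (hF1 0).2.1
  let G : ∀ k, Z k := fun k => Nat.rec (motive := Z) ⟨σ0, hσ0⟩ (fun k σ => nx k σ) k
  have hG : ∀ k, G (k + 1) = nx k (G k) := fun _ => rfl
  have hcl : ∀ k, IsClosed (F k : Set C) := fun k => by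
    haveI := (hF1 k).1
    exact Submodule.closed_of_finiteDimensional (F k).toNonUnitalSubalgebra.toSubmodule
  letI hinst : ∀ k, NonUnitalCStarAlgebra (F k) := fun k => by
    haveI := hcl k
    infer_instance
  obtain ⟨σ, hσ⟩ := Pool.Agent.Helper52.CAR.ext C M (fun k => F k)
    (fun k => NonUnitalStarSubalgebraClass.subtype (F k)) (fun k => (G k).1)
    (fun k => Subtype.val_injective)
    (fun k x => ⟨⟨x.1, (hF1 k).2.2 x.2⟩, rfl, hnx k (G k) x.1 x.2 _⟩) (by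
      have : (⋃ k, Set.range (NonUnitalStarSubalgebraClass.subtype (F k))) =
          ⋃ k, (F k : Set C) := by
        refine Set.iUnion_congr fun k => ?_
        ext x
        constructor
        · rintro ⟨y, rfl⟩
          exact y.2
        · intro hx
          exact ⟨⟨x, hx⟩, rfl⟩
      rw [this]
      exact hF2)
  have hone : σ 1 = 1 := by
    have := hσ 0 ⟨1, (hF1 0).2.1⟩
    have h2 := (G 0).2.1 (hF1 0).2.1
    rw [h2] at this
    exact this
  let σ' : C →⋆ₐ[ℂ] M :=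
    { toFun := σ
      map_one' := hone
      map_mul' := map_mul σ
      map_zero' := map_zero σ
      map_add' := map_add σ
      commutes' := fun r => by
        rw [Algebra.algebraMap_eq_smul_one, map_smul, hone, Algebra.algebraMap_eq_smul_one]
      map_star' := map_star σ }
  have hσ' : ∀ a, σ' a = σ a := fun _ => rfl
  refine ⟨σ', fun k p hp hpj hp0 => ?_⟩
  have h3 : σ' p = (G k).1 ⟨p, hp⟩ := hσ k ⟨p, hp⟩
  rw [h3]
  refine (G k).2.2 ⟨p, hp⟩ (Subtype.ext hpj.1) (Subtype.ext hpj.2) fun h => hp0 ?_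
  exact congrArg Subtype.val h

end Pool.Agent.Helper53.AE.SIG
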