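import Pool.Agent.Helper53.AE.GoalsC

/-!
# Packet AE-TBD (MP_8130e1_an)
-/

set_option autoImplicit false

open scoped ComplexOrder Topology
open Filter TopologicalSpace

namespace Pool.Agent.Helper53.AE.TBD

theorem exists_sqrt {J : Type} [NonUnitalCStarAlgebra J] (a : J) :
    ∃ k : J, star k = k ∧ k * k = star a * a := by
  letI := CStarAlgebra.spectralOrder J
  haveI := CStarAlgebra.spectralOrderedRing J
  refine ⟨CFC.sqrt (star a * a), ?_, ?_⟩
  · exact (CFC.sqrt_nonneg (a := star a * a)).isSelfAdjoint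
  · exact CFC.sqrt_mul_sqrt_self _ (star_mul_self_nonneg a)

theorem exists_compl {O : Type} [CStarAlgebra O] (x : O) :
    ∃ y : O, ((‖x‖ * ‖x‖ : ℝ) : ℂ) • (1 : O) - star x * x = star y * y := by
  letI := CStarAlgebra.spectralOrder O
  haveI := CStarAlgebra.spectralOrderedRing O
  have h1 : star x * x ≤ algebraMap ℝ O ‖star x * x‖ :=
    (IsSelfAdjoint.star_mul_self x).le_algebraMap_norm_self
  rw [CStarRing.norm_star_mul_self, Algebra.algebraMap_eq_smul_one] at h1
  have h2 : 0 ≤ ((‖x‖ * ‖x‖ : ℝ) : ℂ) • (1 : O) - star x * x := by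
    rw [sub_nonneg]
    refine h1.trans (le_of_eq ?_)
    exact (Complex.coe_smul _ _).symm
  exact CStarAlgebra.nonneg_iff_eq_star_mul_self.1 h2

theorem t : S_TBD := by
  intro J O K _ _ _ T hT a x
  obtain ⟨hmul, hstar, -⟩ := hT
  letI := CStarAlgebra.spectralOrder K
  haveI := CStarAlgebra.spectralOrderedRing K
  let φ : J →⋆ₙₐ[ℂ] K :=
    { toFun := fun a => T a 1
      map_smul' := fun c a => by simp
      map_zero' := by simp
      map_add' := fun a b => by simp
      map_mul' := fun a b => by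
        show T (a * b) 1 = T a 1 * T b 1
        rw [hmul, mul_one]
      map_star' := fun a => by
        show T (star a) 1 = star (T a 1)
        rw [hstar, star_one] }
  have hφ : ∀ a, ‖T a 1‖ ≤ ‖a‖ := fun a => NonUnitalStarAlgHom.norm_apply_le φ a
  obtain ⟨k, hk1, hk2⟩ := exists_sqrt a
  obtain ⟨y, hy⟩ := exists_compl x
  have e1 : star (T a x) * T a x = T (star a * a) (star x * x) := by rw [hstar, hmul]
  have e2 : star (T k y) * T k y = ((‖x‖ * ‖x‖ : ℝ) : ℂ) • T (star a * a) 1 -
      T (star a * a) (star x * x) := by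
    rw [hstar, hmul, hk1, hk2, ← hy, map_sub, map_smul]
  have h1 : T (star a * a) (star x * x) ≤ ((‖x‖ * ‖x‖ : ℝ) : ℂ) • T (star a * a) 1 := by
    rw [← sub_nonneg, ← e2]
    exact star_mul_self_nonneg _
  have h2 : 0 ≤ T (star a * a) (star x * x) := by
    rw [← e1]
    exact star_mul_self_nonneg _
  have h3 := CStarAlgebra.norm_le_norm_of_nonneg_of_le h2 h1
  rw [← e1, CStarRing.norm_star_mul_self, norm_smul, Complex.norm_real, Real.norm_eq_abs,
    abs_of_nonneg (by positivity)] at h3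
  have h4 := hφ (star a * a)
  rw [CStarRing.norm_star_mul_self] at h4
  have h5 : ‖T a x‖ * ‖T a x‖ ≤ (‖a‖ * ‖x‖) * (‖a‖ * ‖x‖) := by
    refine h3.trans ?_
    have := mul_le_mul_of_nonneg_left h4 (mul_self_nonneg ‖x‖)
    nlinarith
  exact abs_le_of_sq_le_sq' (by nlinarith) (by positivity) |>.2

end Pool.Agent.Helper53.AE.TBD
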