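import Pool.Agent.Helper53.AE.GoalsC

/-!
# Packet AE-UTB (MP_8130e1_an)
-/

set_option autoImplicit false

open scoped ComplexOrder Topology
open Filter TopologicalSpace

namespace Pool.Agent.Helper53.AE.UTB

theorem t : S_UTB := by
  classical
  intro B _ hB
  obtain ⟨B₀, iB, hB₀, j, hj⟩ := hB
  haveI := hB₀.1
  let ι : Unitization ℂ B →⋆ₐ[ℂ] B₀ × ℂ :=
    (Unitization.starLift j).prod
      { Unitization.fstHom ℂ B with map_star' := fun _ => rfl }
  have hι : ∀ a : Unitization ℂ B, ι a = (algebraMap ℂ B₀ a.fst + j a.snd, a.fst) := by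
    intro a
    rfl
  refine ⟨B₀ × ℂ, inferInstance, ι, ⟨inferInstance, fun F ε hε => ?_⟩, ?_, ?_⟩
  · obtain ⟨D, hD1, hD2⟩ := hB₀.2 (F.image Prod.fst) ε hε
    haveI := hD1
    let D' : StarSubalgebra ℂ (B₀ × ℂ) := D.comap (StarAlgHom.fst ℂ B₀ ℂ)
    refine ⟨D', ?_, fun x hx => ?_⟩
    · let φ : D × ℂ →ₗ[ℂ] D' :=
        { toFun := fun z => ⟨(z.1.1, z.2), z.1.2⟩
          map_add' := fun a b => rfl
          map_smul' := fun a b => rfl }
      refine Module.Finite.of_surjective φ ?_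
      rintro ⟨⟨x, c⟩, hx⟩
      exact ⟨(⟨x, hx⟩, c), rfl⟩
    · obtain ⟨y, hy, hyx⟩ := hD2 x.1 (Finset.mem_image.2 ⟨x, hx, rfl⟩)
      refine ⟨(y, x.2), hy, ?_⟩
      have : x - (y, x.2) = (x.1 - y, 0) := by
        ext <;> simp
      rw [this, Prod.norm_def]
      simpa using hyx
  · intro h
    have := congrArg Prod.snd h
    simp at this
  · rw [injective_iff_map_eq_zero]
    intro a ha
    rw [hι] at ha
    have h1 : a.fst = 0 := congrArg Prod.snd ha
    have h2 : algebraMap ℂ B₀ a.fst + j a.snd = 0 := congrArg Prod.fst ha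
    rw [h1, map_zero, zero_add] at h2
    have h3 : a.snd = 0 := hj (by rw [h2, map_zero])
    ext
    · exact h1
    · exact h3

end Pool.Agent.Helper53.AE.UTB
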