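import Pool.Agent.Helper14.AE.NUC
import Pool.Agent.Helper2.AE.FWB
import Pool.Agent.Helper22.AE.STL
import Pool.Agent.Helper29.AE.CPK
import Pool.Agent.Helper30.AE.WIN
import Pool.Agent.Helper31.AE.PIN
import Pool.Agent.Helper32.AE.FWA
import Pool.Agent.Helper36.AE.THB
import Pool.Agent.Helper37.AE.AUS
import Pool.Agent.Helper39.AE.ENV
import Pool.Agent.Helper4.AE.HER
import Pool.Agent.Helper40.AE.UCE
import Pool.Agent.Helper43.AE.HDR
import Pool.Agent.Helper44.AE.ARV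
import Pool.Agent.Helper49.AE.GHX
import Pool.Agent.Helper51.AE.ABS
import Pool.Agent.Helper53.AE.ABV
import Pool.Agent.Helper53.AE.BRT
import Pool.Agent.Helper53.AE.COE
import Pool.Agent.Helper53.AE.COR
import Pool.Agent.Helper53.AE.CUN
import Pool.Agent.Helper53.AE.EQV
import Pool.Agent.Helper53.AE.GAF
import Pool.Agent.Helper53.AE.GLA
import Pool.Agent.Helper53.AE.MPR
import Pool.Agent.Helper53.AE.MU1
import Pool.Agent.Helper53.AE.NRM
import Pool.Agent.Helper53.AE.PCL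
import Pool.Agent.Helper53.AE.PEX
import Pool.Agent.Helper53.AE.PRJ
import Pool.Agent.Helper53.AE.QDI
import Pool.Agent.Helper53.AE.SGX
import Pool.Agent.Helper53.AE.SIG
import Pool.Agent.Helper53.AE.TBD
import Pool.Agent.Helper53.AE.UTB
import Pool.Agent.Helper54.AE.KAP
import Pool.Agent.Helper57.AE.PRX
import Pool.Agent.Helper69.AE.BND
import Pool.Agent.Helper70.AE.XAF
import Pool.Agent.Helper71.AE.ONE
import Pool.Agent.Helper73.AE.EXF
import Pool.Agent.Helper77.AE.QPR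
import Pool.Agent.Helper79.AE.GLB
import Pool.Agent.Helper85.AE.LFP
import Pool.Agent.Helper86.AE.KRN
import Pool.Agent.Helper89.AE.FAR
import Pool.Agent.Helper90.AE.POL
import Pool.Agent.Helper91.AE.THA
import Pool.Agent.Helper99.AE.CEX
import Pool.Agent.Helper53.AE.Main

/-!
# Project AE (MP_8130e1_an): the proved parts
-/

set_option autoImplicit false

namespace Pool.Agent.Helper53.AE

theorem p_CPK : S_CPK := Pool.Agent.Helper29.AE.t
theorem p_LFP : S_LFP := Pool.Agent.Helper85.AE.LFP.t p_CPK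
theorem p_UCE : S_UCE := Pool.Agent.Helper40.AE.UCE.t
theorem p_BND : S_BND := Pool.Agent.Helper69.AE.t
theorem p_NUC : S_NUC := Pool.Agent.Helper14.AE.NUC.t p_CPK p_LFP p_UCE p_BND
theorem p_FWB : S_FWB := Pool.Agent.Helper2.AE.FWB.t
theorem p_CUN : S_CUN := Pool.Agent.Helper53.AE.CUN.t
theorem p_FAR : S_FAR := Pool.Agent.Helper89.AE.FAR.t
theorem p_STL : S_STL := Pool.Agent.Helper22.AE.t p_CUN p_FAR
theorem p_WIN : S_WIN := Pool.Agent.Helper30.AE.WIN.t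
theorem p_PIN : S_PIN := Pool.Agent.Helper31.AE.PIN.t
theorem p_FWA : S_FWA := Pool.Agent.Helper32.AE.FWA.t
theorem p_THB : S_THB := Pool.Agent.Helper36.AE.t
theorem p_AUS : S_AUS := Pool.Agent.Helper37.AE.AUS.t
theorem p_ENV : S_ENV := Pool.Agent.Helper39.AE.ENV.t p_AUS
theorem p_PRJ : S_PRJ := Pool.Agent.Helper53.AE.PRJ.t
theorem p_PCL : S_PCL := Pool.Agent.Helper53.AE.PCL.t
theorem p_HER : S_HER := Pool.Agent.Helper4.AE.HER.t p_PRJ p_PCL
theorem p_TBD : S_TBD := Pool.Agent.Helper53.AE.TBD.t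
theorem p_HDR : S_HDR := Pool.Agent.Helper43.AE.HDR.t p_TBD p_AUS p_HER
theorem p_COE : S_COE := Pool.Agent.Helper53.AE.COE.t
theorem p_KRN : S_KRN := Pool.Agent.Helper86.AE.KRN.t
theorem p_ARV : S_ARV := Pool.Agent.Helper44.AE.ARV.t p_COE p_KRN
theorem p_MPR : S_MPR := Pool.Agent.Helper53.AE.MPR.t
theorem p_MU1 : S_MU1 := Pool.Agent.Helper53.AE.MU1.t p_MPR
theorem p_HOM : S_HOM := Pool.Agent.Helper53.AE.COE.hom p_COE
theorem p_ISM : S_ISM := Pool.Agent.Helper53.AE.CUN.ism p_CUN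
theorem p_GHX : S_GHX := Pool.Agent.Helper49.AE.t p_MPR p_MU1 p_HOM p_CUN p_ISM
theorem p_ABS : S_ABS := Pool.Agent.Helper51.AE.t
theorem p_PRX : S_PRX := Pool.Agent.Helper57.AE.PRX.t p_PRJ p_PCL
theorem p_PEX : S_PEX := Pool.Agent.Helper53.AE.PEX.t p_PRX p_MPR
theorem p_PSQ : S_PSQ := Pool.Agent.Helper53.AE.PEX.psq p_PEX
theorem p_QDI : S_QDI := Pool.Agent.Helper53.AE.QDI.t
theorem p_CEX : S_CEX := Pool.Agent.Helper99.AE.CEX.t p_ARV
theorem p_KAP : S_KAP := Pool.Agent.Helper54.AE.KAP.t p_PIN p_ARV p_BND p_CEX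
theorem p_ONE : S_ONE := Pool.Agent.Helper71.AE.t p_PRX p_MU1 p_KAP p_BND p_STL
theorem p_GLA : S_GLA := Pool.Agent.Helper53.AE.GLA.t
theorem p_GLB : S_GLB := Pool.Agent.Helper79.AE.t
theorem p_NRM : S_NRM := Pool.Agent.Helper53.AE.NRM.t
theorem p_ABV : S_ABV := Pool.Agent.Helper53.AE.ABV.t p_PSQ p_WIN p_FWA p_FWB p_QDI p_ONE p_GLA p_GLB p_NRM
theorem p_POL : S_POL := Pool.Agent.Helper90.AE.t
theorem p_EXF : S_EXF := Pool.Agent.Helper73.AE.t p_MU1 p_PRX p_POL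
theorem p_BRT : S_BRT := Pool.Agent.Helper53.AE.BRT.t p_EXF
theorem p_THA : S_THA := Pool.Agent.Helper91.AE.THA.t p_TBD p_AUS
theorem p_EQV : S_EQV := Pool.Agent.Helper53.AE.EQV.t p_MU1
theorem p_SGX : S_SGX := Pool.Agent.Helper53.AE.SGX.t p_GHX p_EQV
theorem p_SIG : S_SIG := Pool.Agent.Helper53.AE.SIG.t p_GHX p_SGX
theorem p_QPR : S_QPR := Pool.Agent.Helper77.AE.QPR.t p_HER p_MPR
theorem p_XAF : S_XAF := Pool.Agent.Helper70.AE.t p_PRX
theorem p_GAF : S_GAF := Pool.Agent.Helper53.AE.GAF.t p_BRT p_MU1 p_QPR p_XAF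
theorem p_COR : S_COR := Pool.Agent.Helper53.AE.COR.t p_HDR p_ENV p_THA p_THB p_BRT p_SIG p_ABV p_ABS p_GAF
theorem p_UTB : S_UTB := Pool.Agent.Helper53.AE.UTB.t
theorem main : S_MAIN := main_of p_COR p_UTB

end Pool.Agent.Helper53.AE
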